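import Pool.Agent.Burnside6.Free

set_option autoImplicit false

namespace Pool.Agent.Burnside6

open Filter Topology

theorem eq_bot_of_closed {H : Type} [Group H] (t : TopologicalSpace H) (ht : IsTopologicalGroup H)
    (F : Set H) (hF : IsClosed F) (h1 : (1 : H) ∉ F) (h2 : ∀ x, x ≠ 1 → x ∈ F) : t = ⊥ := by
  have : ({1} : Set H) = Fᶜ := by
    ext x
    constructor
    · rintro rfl; exact h1
    · intro hx; by_contra hc; exact hx (h2 x hc)
  exact (discreteTopology_of_isOpen_singleton_one (this ▸ hF.isOpen_compl)).eq_bot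

theorem exists_top {Q : Type} [Group Q] {m : ℕ} [Fact (1 < m)] (β : Q →* Multiplicative (ℕ → ZMod m))
    (hβ : ∀ i, ∃ q, β q = Multiplicative.ofAdd (Pi.single i 1)) :
    ∃ t : TopologicalSpace (Q ⧸ β.ker), @IsTopologicalGroup _ t _ ∧ @T2Space _ t ∧ t ≠ ⊥ := by
  let : TopologicalSpace (ZMod m) := ⊥
  have : DiscreteTopology (ZMod m) := ⟨rfl⟩
  let t : TopologicalSpace (Q ⧸ β.ker) := TopologicalSpace.induced (QuotientGroup.kerLift β) inferInstance
  refine ⟨t, topologicalGroup_induced _, T2Space.of_injective_continuous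
    (QuotientGroup.kerLift_injective β) continuous_induced_dom, fun h => ?_⟩
  choose q hq using hβ
  have h1 : Tendsto (fun i => (q i : Q ⧸ β.ker)) atTop (𝓝 1) := by
    rw [nhds_induced, tendsto_comap_iff, map_one]
    have : Tendsto (fun i : ℕ => (Pi.single i 1 : ℕ → ZMod m)) atTop (𝓝 0) := by
      rw [tendsto_pi_nhds]
      intro j
      refine tendsto_const_nhds.congr' ?_
      filter_upwards [eventually_gt_atTop j] with i hi
      simp [hi.ne]
    refine (continuous_ofAdd.tendsto 0).comp this |>.congr fun i => ?_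
    simp [hq]
  have : DiscreteTopology (Q ⧸ β.ker) := ⟨h⟩
  rw [nhds_discrete, tendsto_pure] at h1
  obtain ⟨i, hi⟩ := h1.exists
  rw [QuotientGroup.eq_one_iff, MonoidHom.mem_ker, hq] at hi
  have := congrFun (Multiplicative.ofAdd.injective hi) i
  simp at this

theorem exists_n₁ : ∃ n : ℕ, Odd n ∧ 600000000000000000000000000 ≤ n :=
  ⟨600000000000000000000000001, by decide, by norm_num⟩

/-- the exponent -/
noncomputable def n₁ : ℕ := exists_n₁.choose

theorem n₁_spec : Odd n₁ ∧ 600000000000000000000000000 ≤ n₁ := exists_n₁.choose_spec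

noncomputable def par₁ : Par (Multiplicative ℤ) (Multiplicative (ℕ → ZMod n₁)) where
  E := 6000000000000
  n := n₁
  R := 1000000
  Nf _ := n₁
  z₀ := Multiplicative.ofAdd 1
  α := FreeGroup.lift fun i => Multiplicative.ofAdd (Pi.single i 1)
  odd := n₁_spec.1
  hR := le_rfl
  hE := by norm_num
  hN _ := by have := n₁_spec.2; omega
  hNn _ := dvd_rfl
  hC _ j z h := by
    have := congrArg Multiplicative.toAdd h
    simp only [toAdd_mul, toAdd_zpow, toAdd_ofAdd, toAdd_pow, toAdd_one, smul_eq_mul, nsmul_eq_mul] at this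
    exact ⟨-z.toAdd, by linarith⟩
  tf z m hm h := (pow_eq_one_iff_left hm).1 h
  hB _ b := by
    apply Multiplicative.toAdd.injective
    ext i
    simp

noncomputable def W₁ : Subgroup (FreeGroup ℕ × Multiplicative ℤ) where
  carrier := {γ | ∃ z, γ * (1, z) ^ n₁ ∈ par₁.L}
  one_mem' := ⟨1, by rw [one_mul]; exact pow_mem par₁.L.one_mem _⟩
  mul_mem' := by
    rintro a b ⟨z, hz⟩ ⟨w, hw⟩
    refine ⟨z * w, ?_⟩
    convert mul_mem hz hw using 1
    ext <;> simp [mul_pow, mul_mul_mul_comm]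
  inv_mem' := by
    rintro a ⟨z, hz⟩
    refine ⟨z⁻¹, ?_⟩
    convert inv_mem hz using 1
    ext <;> simp [mul_comm]

instance : W₁.Normal := ⟨by
  rintro a ⟨z, hz⟩ g
  refine ⟨z, ?_⟩
  convert Subgroup.Normal.conj_mem inferInstance _ hz g using 1
  ext <;> simp [mul_comm]⟩

theorem adian : ∃ S : Set ((FreeGroup ℕ × Multiplicative ℤ) ⧸ W₁), S.Finite ∧ 1 ∉ S ∧
    ∀ x, x ≠ 1 → x ∈ S ∨ x ^ n₁ ∈ S := by
  let f : Multiplicative ℤ → (FreeGroup ℕ × Multiplicative ℤ) ⧸ W₁ := fun z => ((1, z) : FreeGroup ℕ × _)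
  have hn : n₁ ≠ 0 := n₁_spec.1.pos.ne'
  have hM : ∀ γ ∈ par₁.M, (γ : _ ⧸ W₁) ∈ Set.range f := by
    intro γ hγ
    obtain ⟨z, hz⟩ := (par₁.M_iff γ).1 hγ
    refine ⟨z⁻¹, QuotientGroup.eq.2 ⟨1, ?_⟩⟩
    convert hz using 1
    ext <;> simp [mul_comm]
  refine ⟨Set.range f \ {1}, Set.Finite.sdiff ?_, by simp, fun x hx => ?_⟩
  · refine ((Set.finite_Ico (0 : ℤ) n₁).image (fun j => f (Multiplicative.ofAdd j))).subset ?_
    rintro _ ⟨z, rfl⟩
    refine ⟨z.toAdd % n₁, ⟨Int.emod_nonneg _ (by exact_mod_cast hn),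
      Int.emod_lt_of_pos _ (by omega)⟩, QuotientGroup.eq.2 ⟨Multiplicative.ofAdd (-(z.toAdd / n₁)), ?_⟩⟩
    convert par₁.L.one_mem
    ext
    · simp
    · have := Int.emod_add_mul_ediv z.toAdd n₁
      simp; linarith
  obtain ⟨γ, rfl⟩ := QuotientGroup.mk_surjective x
  by_cases h : γ ∈ par₁.M
  · exact Or.inl ⟨hM γ h, hx⟩
  refine Or.inr ⟨hM _ (par₁.M_pow γ), fun h1 => h ?_⟩
  obtain ⟨z, hz⟩ := (QuotientGroup.eq_one_iff (γ ^ n₁)).1 h1
  refine (par₁.M_iff γ).2 ⟨z, par₁.L_tf hn ?_⟩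
  convert hz using 1
  ext <;> simp [mul_pow]

theorem adian_nontop (H : Subgroup ((FreeGroup ℕ × Multiplicative ℤ) ⧸ W₁)) (t : TopologicalSpace H)
    (h1 : IsTopologicalGroup H) (h2 : T2Space H) : t = ⊥ := by
  obtain ⟨S, s1, s2, s3⟩ := adian
  have hc : IsClosed (Subtype.val ⁻¹' S : Set H) := (s1.preimage Subtype.val_injective.injOn).isClosed
  refine eq_bot_of_closed t h1 _ (hc.union (hc.preimage (continuous_pow n₁))) (by simpa using s2) ?_
  intro x hx
  simpa using s3 x (by simpa using hx)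

noncomputable def β₁ : (FreeGroup ℕ × Multiplicative ℤ) ⧸ W₁ →* Multiplicative (ℕ → ZMod n₁) :=
  QuotientGroup.lift _ (par₁.α.comp (MonoidHom.fst _ _)) (by
    rintro γ ⟨z, hz⟩
    exact par₁.M_ab ((par₁.M_iff γ).2 ⟨z ^ n₁, by simpa using hz⟩))

theorem β₁_single (i : ℕ) : ∃ q, β₁ q = Multiplicative.ofAdd (Pi.single i 1) :=
  ⟨((FreeGroup.of i, 1) : FreeGroup ℕ × Multiplicative ℤ), by simp [β₁, par₁]⟩

end Pool.Agent.Burnside6
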