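import Mathlib

set_option autoImplicit false

namespace Pool.Agent.Burnside6

/-- A geodesic integer norm on a group. -/
structure Nm (G : Type) [Group G] where
  ν : G → ℕ
  one : ν 1 = 0
  eq_one : ∀ g, ν g = 0 → g = 1
  inv : ∀ g, ν g⁻¹ = ν g
  mul : ∀ a b, ν (a * b) ≤ ν a + ν b
  split : ∀ g s t, ν g ≤ s + t → ∃ a b, g = a * b ∧ ν a ≤ s ∧ ν b ≤ t

variable {G : Type} [Group G]

namespace Nm

variable (X : Nm G)

def d (x y : G) : ℕ := X.ν (x⁻¹ * y)

@[simp] theorem d_self (x : G) : X.d x x = 0 := by simp [d, X.one]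

theorem comm (x y : G) : X.d x y = X.d y x := by
  unfold d; rw [← X.inv]; simp

theorem tri (x y z : G) : X.d x z ≤ X.d x y + X.d y z := by
  unfold d
  have := X.mul (x⁻¹ * y) (y⁻¹ * z)
  simpa [mul_assoc] using this

theorem tri' (x y z : G) : X.d x z ≤ X.d y x + X.d y z := by
  rw [X.comm y x]; exact X.tri x y z

theorem tri'' (x y z : G) : X.d x z ≤ X.d x y + X.d z y := by
  rw [X.comm z y]; exact X.tri x y z

@[simp] theorem d_mul (g x y : G) : X.d (g * x) (g * y) = X.d x y := by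
  unfold d; simp [mul_assoc]

theorem d_inv_left (g x y : G) : X.d (g⁻¹ * x) y = X.d x (g * y) := by
  rw [← X.d_mul g]; simp

theorem d_inv_right (g x y : G) : X.d x (g⁻¹ * y) = X.d (g * x) y := by
  rw [← X.d_mul g]; simp

theorem d_inv_self (g x : G) : X.d x (g⁻¹ * x) = X.d x (g * x) := by
  rw [X.d_inv_right, X.comm]

theorem d_one (g : G) : X.d 1 g = X.ν g := by simp [d]

theorem eq_of_d {x y : G} (h : X.d x y = 0) : x = y := by
  have := X.eq_one _ h
  exact (inv_mul_eq_one.mp this)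

theorem d_conj (g u x : G) : X.d x (g * u * g⁻¹ * x) = X.d (g⁻¹ * x) (u * (g⁻¹ * x)) := by
  rw [← X.d_mul g⁻¹]; simp [mul_assoc]

theorem split_d (x y : G) (s t : ℕ) (h : X.d x y ≤ s + t) :
    ∃ m, X.d x m ≤ s ∧ X.d m y ≤ t := by
  obtain ⟨a, b, hab, ha, hb⟩ := X.split _ s t h
  refine ⟨x * a, by simpa [d] using ha, ?_⟩
  have : (x * a)⁻¹ * y = b := by
    rw [mul_inv_rev, mul_assoc, hab]; simp
  unfold d; rw [this]; exact hb

theorem exists_between (x y : G) (t : ℕ) (h : t ≤ X.d x y) :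
    ∃ m, X.d x m = t ∧ X.d x m + X.d m y = X.d x y := by
  obtain ⟨m, h1, h2⟩ := X.split_d x y t (X.d x y - t) (by omega)
  have := X.tri x m y
  exact ⟨m, by omega, by omega⟩

/-- The four point condition with constant `D`. -/
def FP (D : ℕ) : Prop :=
  ∀ x y z w, X.d x y + X.d z w ≤ max (X.d x z + X.d y w) (X.d x w + X.d y z) + D

variable {X}

theorem FP.mono {D D' : ℕ} (h : X.FP D) (hD : D ≤ D') : X.FP D' := fun x y z w => by
  have := h x y z w; omega

/-- a point nearly between `x` and `y` is nearly between `x,z` or `z,y`. -/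
theorem FP.L1 {D : ℕ} (h : X.FP D) {x m y : G} {c : ℕ} (hm : X.d x m + X.d m y ≤ X.d x y + c)
    (z : G) : X.d x m + X.d m z ≤ X.d x z + (c + D) ∨ X.d z m + X.d m y ≤ X.d z y + (c + D) := by
  have := h z m x y
  have := X.comm z m
  have := X.comm z x
  have := X.comm m x
  omega

theorem FP.L2 {D : ℕ} (h : X.FP D) {x m m' y : G} {c c' : ℕ}
    (hm : X.d x m + X.d m y ≤ X.d x y + c) (hm' : X.d x m' + X.d m' y ≤ X.d x y + c') :
    X.d m m' + X.d x m' ≤ X.d x m + (c' + D) ∨ X.d m m' + X.d x m ≤ X.d x m' + (c + D) := by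
  have := h m m' x y
  have := X.comm m x
  have := X.comm m' x
  omega

theorem FP.near {D : ℕ} (h : X.FP D) {x m y : G} {c : ℕ}
    (hm : X.d x m + X.d m y ≤ X.d x y + c) :
    ∃ m', X.d x m' + X.d m' y = X.d x y ∧ X.d m m' ≤ c + D := by
  by_cases ht : X.d x m ≤ X.d x y
  · obtain ⟨m', h1, h2⟩ := X.exists_between x y _ ht
    refine ⟨m', h2, ?_⟩
    have := h.L2 (c' := 0) hm (le_of_eq h2)
    omega
  · exact ⟨y, by simp, by omega⟩

/-- displacement convexity -/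
theorem FP.disp {D : ℕ} (h : X.FP D) {p q z u : G} {c C : ℕ}
    (hz : X.d p z + X.d z q ≤ X.d p q + c) (hp : X.d p (u * p) ≤ C) (hq : X.d q (u * q) ≤ C) :
    X.d z (u * z) ≤ C + c + D := by
  have h1 := h.L1 hz (u * z)
  have := X.tri p (u * p) (u * z)
  have := X.tri (u * z) (u * q) q
  have := X.comm (u * q) q
  have := X.comm (u * z) z
  simp only [d_mul] at *
  omega

/-- moving the left end point -/
theorem FP.moveL {D : ℕ} (h : X.FP D) {p p' m q : G} {c : ℕ}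
    (hm : X.d p m + X.d m q ≤ X.d p q + c) (hp : 2 * X.d p p' + c + D < 2 * X.d p m) :
    X.d p' m + X.d m q ≤ X.d p' q + (c + D) := by
  have h1 := h.L1 hm p'
  have := X.tri p p' m
  have := X.comm p' m
  omega

theorem FP.moveR {D : ℕ} (h : X.FP D) {p q' m q : G} {c : ℕ}
    (hm : X.d p m + X.d m q ≤ X.d p q + c) (hp : 2 * X.d q q' + c + D < 2 * X.d m q) :
    X.d p m + X.d m q' ≤ X.d p q' + (c + D) := by
  have h1 := h.L1 hm q'
  have := X.tri m q' q
  have := X.comm q' m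
  have := X.comm q' q
  omega

theorem FP_of_hyp {κ : ℕ} (h : ∀ x y z m, X.d x m + X.d m y = X.d x y →
    X.d x m + X.d m z ≤ X.d x z + κ ∨ X.d z m + X.d m y ≤ X.d z y + κ) : X.FP (2 * κ + 1) := by
  intro x y z w
  have t1 := X.tri x z y
  have t2 := X.tri x y z
  have t3 := X.tri z x y
  have := X.comm x z
  have := X.comm y z
  obtain ⟨m, h1, h2⟩ := X.exists_between x y ((X.d x y + X.d x z - X.d z y) / 2) (by omega)
  have a1 := h x y z m h2
  have a2 := h x y w m h2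
  have := X.tri z m w
  have := X.comm m z
  have := X.comm m w
  have := X.comm w y
  omega

/-- unit step paths -/
theorem path_d (X : Nm G) {γ : ℕ → G} (h : ∀ i, X.d (γ i) (γ (i + 1)) ≤ 1) (i k : ℕ) :
    X.d (γ i) (γ (i + k)) ≤ k := by
  induction k with
  | zero => simp
  | succ k ih =>
    have := X.tri (γ i) (γ (i + k)) (γ (i + k + 1))
    have := h (i + k)
    rw [← add_assoc]; omega

theorem path_d' (X : Nm G) {γ : ℕ → G} (h : ∀ i, X.d (γ i) (γ (i + 1)) ≤ 1) {i j : ℕ} (hij : i ≤ j) :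
    X.d (γ i) (γ j) ≤ j - i := by
  have := X.path_d h i (j - i)
  rwa [show i + (j - i) = j by omega] at this

theorem geo_d (X : Nm G) {γ : ℕ → G} (h : ∀ i, X.d (γ i) (γ (i + 1)) ≤ 1) {l : ℕ}
    (hl : X.d (γ 0) (γ l) = l) {i j : ℕ} (hij : i ≤ j) (hj : j ≤ l) :
    X.d (γ i) (γ j) = j - i := by
  have h1 := X.path_d' h hij
  have h2 := X.path_d' h (Nat.zero_le i)
  have h3 := X.path_d' h hj
  have := X.tri (γ 0) (γ i) (γ l)
  have := X.tri (γ i) (γ j) (γ l)
  omega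

theorem exists_path (X : Nm G) (l : ℕ) : ∀ x y : G, X.d x y ≤ l →
    ∃ γ : ℕ → G, γ 0 = x ∧ γ l = y ∧ ∀ i, X.d (γ i) (γ (i + 1)) ≤ 1 := by
  induction l with
  | zero =>
    intro x y h
    exact ⟨fun _ => x, rfl, X.eq_of_d (Nat.le_zero.1 h), by simp⟩
  | succ l ih =>
    intro x y h
    obtain ⟨m, h1, h2⟩ := X.split_d x y 1 l (by omega)
    obtain ⟨γ, g0, gl, g⟩ := ih m y h2
    refine ⟨fun i => Nat.casesOn i x γ, rfl, gl, ?_⟩
    intro i
    cases i with
    | zero => simpa [g0] using h1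
    | succ i => exact g i

/-- geodesic through a point -/
theorem exists_path_through (X : Nm G) {x m y : G} (h : X.d x m + X.d m y = X.d x y) :
    ∃ γ : ℕ → G, γ 0 = x ∧ γ (X.d x m) = m ∧ γ (X.d x y) = y ∧ ∀ i, X.d (γ i) (γ (i + 1)) ≤ 1 := by
  obtain ⟨γ, g0, gl, g⟩ := X.exists_path _ x m le_rfl
  obtain ⟨δ, d0, dl, dd⟩ := X.exists_path _ m y le_rfl
  refine ⟨fun i => if i < X.d x m then γ i else δ (i - X.d x m), ?_, by simp [d0], ?_, ?_⟩
  · by_cases h0 : 0 < X.d x m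
    · simp [h0, g0]
    · have : X.d x m = 0 := by omega
      simp [d0, X.eq_of_d this]
  · have : ¬ X.d x y < X.d x m := by omega
    simp only [this, if_false]
    rw [show X.d x y - X.d x m = X.d m y by omega, dl]
  · intro i
    by_cases h1 : i + 1 < X.d x m
    · have : i < X.d x m := by omega
      simp only [h1, this, if_true]; exact g i
    · by_cases h2 : i < X.d x m
      · simp only [h1, h2, if_true, if_false]
        have e : i + 1 = X.d x m := by omega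
        have := g i
        rw [e, gl] at this
        rw [e]; simpa [d0] using this
      · simp only [h1, h2, if_false]
        rw [show i + 1 - X.d x m = i - X.d x m + 1 by omega]; exact dd _

/-- discrete intermediate value -/
theorem ivt {f : ℕ → ℕ} {L : ℕ} (hf : ∀ i, f (i + 1) ≤ f i + L) {t : ℕ} (h0 : f 0 ≤ t) {j : ℕ}
    (hj : t ≤ f j) : ∃ i, i ≤ j ∧ t ≤ f i ∧ f i ≤ t + (L - 1) := by
  induction j with
  | zero => exact ⟨0, le_rfl, hj, by omega⟩
  | succ j ih =>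
    by_cases h : t ≤ f j
    · obtain ⟨i, a, b, c⟩ := ih h
      exact ⟨i, by omega, b, c⟩
    · exact ⟨j + 1, le_rfl, hj, by have := hf j; omega⟩

theorem ivt1 {f : ℕ → ℕ} (hf : ∀ i, f (i + 1) ≤ f i + 1) {t : ℕ} (h0 : f 0 ≤ t) {j : ℕ}
    (hj : t ≤ f j) : ∃ i, i ≤ j ∧ f i = t := by
  induction j with
  | zero => exact ⟨0, le_rfl, by omega⟩
  | succ j ih =>
    by_cases h : t ≤ f j
    · obtain ⟨i, a, b⟩ := ih h
      exact ⟨i, by omega, b⟩
    · exact ⟨j + 1, le_rfl, by have := hf j; omega⟩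

end Nm

open Pointwise in
/-- word norm of a symmetric generating set -/
noncomputable def ofGen (S : Set G) (h1 : (1 : G) ∈ S) (hi : S⁻¹ = S) (hg : ∀ g, ∃ k : ℕ, g ∈ S ^ k) :
    Nm G where
  ν g := sInf {k : ℕ | g ∈ S ^ k}
  one := by
    apply Nat.eq_zero_of_le_zero
    apply Nat.sInf_le
    simp
  eq_one g h := by
    have := Nat.sInf_mem (s := {k : ℕ | g ∈ S ^ k}) (hg g)
    rw [h] at this
    simpa using this
  inv g := by
    congr 1
    ext k
    simp only [Set.mem_ofPred_eq]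
    rw [← Set.mem_inv, ← inv_pow, hi]
  mul a b := by
    apply Nat.sInf_le
    simp only [Set.mem_ofPred_eq, pow_add]
    exact Set.mul_mem_mul (Nat.sInf_mem (s := {k : ℕ | a ∈ S ^ k}) (hg a))
      (Nat.sInf_mem (s := {k : ℕ | b ∈ S ^ k}) (hg b))
  split g s t h := by
    have h2 : g ∈ S ^ (s + t) :=
      Set.pow_subset_pow_right h1 h (Nat.sInf_mem (s := {k : ℕ | g ∈ S ^ k}) (hg g))
    rw [pow_add] at h2
    obtain ⟨a, ha, b, hb, rfl⟩ := h2
    exact ⟨a, b, rfl, Nat.sInf_le ha, Nat.sInf_le hb⟩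

open Pointwise in
theorem ofGen_le_one (S : Set G) (h1 : (1 : G) ∈ S) (hi : S⁻¹ = S) (hg : ∀ g, ∃ k : ℕ, g ∈ S ^ k)
    (g : G) : (ofGen S h1 hi hg).ν g ≤ 1 ↔ g ∈ S := by
  constructor
  · intro h
    have h2 : g ∈ S ^ 1 :=
      Set.pow_subset_pow_right h1 h (Nat.sInf_mem (s := {k : ℕ | g ∈ S ^ k}) (hg g))
    simpa using h2
  · intro h
    apply Nat.sInf_le
    simpa using h

theorem Nm.le_of_one (X Y : Nm G) (h : ∀ g, X.ν g ≤ 1 → Y.ν g ≤ 1) (g : G) : Y.ν g ≤ X.ν g := by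
  suffices H : ∀ k g, X.ν g ≤ k → Y.ν g ≤ k from H _ g le_rfl
  intro k
  induction k with
  | zero => intro g hg; rw [X.eq_one g (by omega), Y.one]
  | succ k ih =>
    intro g hg
    obtain ⟨a, b, rfl, ha, hb⟩ := X.split g k 1 hg
    have := Y.mul a b
    have := ih a ha
    have := h b hb
    omega

/-- quotient norm -/
noncomputable def Nm.quot (X : Nm G) (K : Subgroup G) [K.Normal] : Nm (G ⧸ K) where
  ν q := sInf {k | ∃ g : G, (g : G ⧸ K) = q ∧ X.ν g = k}
  one := by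
    apply Nat.eq_zero_of_le_zero
    apply Nat.sInf_le
    exact ⟨1, rfl, X.one⟩
  eq_one q h := by
    obtain ⟨g, rfl⟩ := QuotientGroup.mk_surjective q
    have := Nat.sInf_mem (s := {k | ∃ g' : G, (g' : G ⧸ K) = g ∧ X.ν g' = k}) ⟨_, g, rfl, rfl⟩
    rw [h] at this
    obtain ⟨g', h1, h2⟩ := this
    rw [← h1, X.eq_one _ h2]; rfl
  inv q := by
    congr 1
    ext k
    constructor
    · rintro ⟨g, h1, h2⟩
      exact ⟨g⁻¹, by rw [QuotientGroup.mk_inv, h1, inv_inv], by rw [X.inv, h2]⟩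
    · rintro ⟨g, h1, h2⟩
      exact ⟨g⁻¹, by rw [QuotientGroup.mk_inv, h1], by rw [X.inv, h2]⟩
  mul a b := by
    obtain ⟨a, rfl⟩ := QuotientGroup.mk_surjective a
    obtain ⟨b, rfl⟩ := QuotientGroup.mk_surjective b
    obtain ⟨a', h1, h2⟩ :=
      Nat.sInf_mem (s := {k | ∃ g' : G, (g' : G ⧸ K) = a ∧ X.ν g' = k}) ⟨_, a, rfl, rfl⟩
    obtain ⟨b', h3, h4⟩ :=
      Nat.sInf_mem (s := {k | ∃ g' : G, (g' : G ⧸ K) = b ∧ X.ν g' = k}) ⟨_, b, rfl, rfl⟩
    rw [← h2, ← h4]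
    refine le_trans (Nat.sInf_le ⟨a' * b', by rw [QuotientGroup.mk_mul, h1, h3], rfl⟩) (X.mul _ _)
  split q s t h := by
    obtain ⟨g, rfl⟩ := QuotientGroup.mk_surjective q
    obtain ⟨g', h1, h2⟩ :=
      Nat.sInf_mem (s := {k | ∃ g' : G, (g' : G ⧸ K) = g ∧ X.ν g' = k}) ⟨_, g, rfl, rfl⟩
    rw [← h2] at h
    obtain ⟨a, b, rfl, ha, hb⟩ := X.split g' s t h
    exact ⟨a, b, h1.symm, le_trans (Nat.sInf_le ⟨a, rfl, rfl⟩) ha,
      le_trans (Nat.sInf_le ⟨b, rfl, rfl⟩) hb⟩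

theorem Nm.quot_le (X : Nm G) (K : Subgroup G) [K.Normal] (g : G) :
    (X.quot K).ν (g : G ⧸ K) ≤ X.ν g := Nat.sInf_le ⟨g, rfl, rfl⟩

theorem Nm.quot_d_le (X : Nm G) (K : Subgroup G) [K.Normal] (x y : G) :
    (X.quot K).d (x : G ⧸ K) y ≤ X.d x y := X.quot_le K (x⁻¹ * y)

theorem Nm.quot_lift (X : Nm G) (K : Subgroup G) [K.Normal] (x : G) (q : G ⧸ K) :
    ∃ y : G, (y : G ⧸ K) = q ∧ X.d x y = (X.quot K).d x q := by
  obtain ⟨y, rfl⟩ := QuotientGroup.mk_surjective q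
  obtain ⟨g', h1, h2⟩ :=
    Nat.sInf_mem (s := {k | ∃ g' : G, (g' : G ⧸ K) = (x : G ⧸ K)⁻¹ * y ∧ X.ν g' = k})
      ⟨_, x⁻¹ * y, rfl, rfl⟩
  refine ⟨x * g', by rw [QuotientGroup.mk_mul, h1]; simp, ?_⟩
  simp only [Nm.d, inv_mul_cancel_left]
  exact h2

/-- rescaled norm -/
def Nm.scale (X : Nm G) (R : ℕ) (hR : 0 < R) : Nm G where
  ν g := (X.ν g + (R - 1)) / R
  one := by rw [X.one]; apply Nat.div_eq_of_lt; omega
  eq_one g h := by
    apply X.eq_one
    rw [Nat.div_eq_zero_iff] at h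
    omega
  inv g := by rw [X.inv]
  mul a b := by
    have := X.mul a b
    have h1 := Nat.lt_div_mul_add (a := X.ν a + (R - 1)) hR
    have h2 := Nat.lt_div_mul_add (a := X.ν b + (R - 1)) hR
    apply Nat.le_of_lt_succ
    rw [Nat.div_lt_iff_lt_mul hR, Nat.succ_mul, Nat.add_mul]
    omega
  split g s t h := by
    have h1 := Nat.lt_div_mul_add (a := X.ν g + (R - 1)) hR
    have h2 := Nat.mul_le_mul_right R h
    rw [Nat.add_mul] at h2
    obtain ⟨a, b, rfl, ha, hb⟩ := X.split g (s * R) (t * R) (by omega)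
    refine ⟨a, b, rfl, ?_, ?_⟩
    · apply Nat.le_of_lt_succ
      rw [Nat.div_lt_iff_lt_mul hR, Nat.succ_mul]; omega
    · apply Nat.le_of_lt_succ
      rw [Nat.div_lt_iff_lt_mul hR, Nat.succ_mul]; omega

theorem Nm.scale_le (X : Nm G) (R : ℕ) (hR : 0 < R) (g : G) (s : ℕ) :
    (X.scale R hR).ν g ≤ s ↔ X.ν g ≤ s * R := by
  change (X.ν g + (R - 1)) / R ≤ s ↔ _
  rw [← Nat.lt_succ_iff, Nat.div_lt_iff_lt_mul hR, Nat.succ_mul]
  omega

theorem Nm.scale_d_le (X : Nm G) (R : ℕ) (hR : 0 < R) (x y : G) (s : ℕ) :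
    (X.scale R hR).d x y ≤ s ↔ X.d x y ≤ s * R := X.scale_le R hR _ s

theorem Nm.scale_d_bounds (X : Nm G) (R : ℕ) (hR : 0 < R) (x y : G) :
    X.d x y ≤ (X.scale R hR).d x y * R ∧ (X.scale R hR).d x y * R < X.d x y + R := by
  refine ⟨(X.scale_d_le R hR x y _).1 le_rfl, ?_⟩
  rcases h : (X.scale R hR).d x y with _ | k
  · omega
  · have := (X.scale_d_le R hR x y k).not.1 (by omega)
    rw [Nat.succ_mul]; omega

theorem Nm.FP.scale {X : Nm G} {D R : ℕ} (h : X.FP D) (hR : 0 < R) (hD : D ≤ R) :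
    (X.scale R hR).FP 2 := by
  intro x y z w
  have := h x y z w
  have h1 := X.scale_d_bounds R hR x y
  have h2 := X.scale_d_bounds R hR z w
  have h3 := X.scale_d_bounds R hR x z
  have h4 := X.scale_d_bounds R hR y w
  have h5 := X.scale_d_bounds R hR x w
  have h6 := X.scale_d_bounds R hR y z
  generalize (X.scale R hR).d x y = a at *
  generalize (X.scale R hR).d z w = b at *
  generalize (X.scale R hR).d x z = c at *
  generalize (X.scale R hR).d y w = e at *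
  generalize (X.scale R hR).d x w = f at *
  generalize (X.scale R hR).d y z = g at *
  by_contra hc
  have k1 : c + e + 3 ≤ a + b := by omega
  have k2 : f + g + 3 ≤ a + b := by omega
  have k3 := Nat.mul_le_mul_right R k1
  have k4 := Nat.mul_le_mul_right R k2
  simp only [Nat.add_mul] at k3 k4
  omega

end Pool.Agent.Burnside6
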