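import Pool.Agent.Burnside6.Tau

set_option autoImplicit false

namespace Pool.Agent.Burnside6

variable {G : Type} [Group G]

def CSAa (G : Type) [Group G] : Prop := ∀ g a b : G, g ≠ 1 → Commute a g → Commute b g → Commute a b

def CSAb (G : Type) [Group G] : Prop := ∀ g x : G, Commute (x * g * x⁻¹) g → Commute x g

namespace Nm

def H4 (X : Nm G) (C A : ℕ) : Prop :=
  ∀ u₁ u₂ p q : G, X.d p (u₁ * p) ≤ C → X.d q (u₁ * q) ≤ C → X.d p (u₂ * p) ≤ C →
    X.d q (u₂ * q) ≤ C → A ≤ X.d p q → Commute u₁ u₂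

def Mid (X : Nm G) (p q : G) (c r : ℕ) (m : G) : Prop :=
  X.d p m + X.d m q ≤ X.d p q + c ∧ r ≤ X.d p m ∧ r ≤ X.d m q

variable {X : Nm G}

theorem FP.shift {D : ℕ} (h : X.FP D) {p q u m : G} {c r L : ℕ} (hp : X.d p (u * p) ≤ L)
    (hq : X.d q (u * q) ≤ L) (hm : X.Mid p q c (r + L) m) (hr : c + 2 * D < 2 * r) :
    X.Mid p q (c + 2 * D) r (u * m) ∧
      X.d p (u * m) + X.d p q ≤ X.d p m + X.d p (u * q) + D ∧
      X.d p m + X.d p (u * q) ≤ X.d p (u * m) + X.d p q + D := by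
  obtain ⟨h1, h2, h3⟩ := hm
  have b1 : X.d (u * p) (u * m) + X.d (u * m) (u * q) ≤ X.d (u * p) (u * q) + c := by
    simpa only [d_mul] using h1
  have b2 := h.moveL (p' := p) b1 (by rw [X.comm (u * p) p, d_mul]; omega)
  have b3 := h.moveR (q' := q) b2 (by rw [X.comm (u * q) q, d_mul]; omega)
  have t1 := X.tri (u * p) p (u * m)
  have t2 := X.tri (u * m) q (u * q)
  have t3 := X.tri (u * p) p (u * q)
  have f1 := h p (u * m) (u * p) (u * q)
  have f2 := h p (u * q) (u * p) (u * m)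
  have := X.comm (u * p) p
  have := X.comm m p
  have := X.comm q p
  have := X.comm q m
  simp only [d_mul] at *
  refine ⟨⟨by omega, by omega, by omega⟩, by omega, by omega⟩

theorem FP.comm_disp {D : ℕ} (h : X.FP D) {p q u₁ u₂ m : G} {c r L : ℕ}
    (hp : X.d p (u₁ * p) ≤ L) (hq : X.d q (u₁ * q) ≤ L) (hp' : X.d p (u₂ * p) ≤ L)
    (hq' : X.d q (u₂ * q) ≤ L) (hm : X.Mid p q c (r + 4 * L) m) (hr : c + 8 * D < 2 * r) :
    X.d m (u₁ * u₂ * u₁⁻¹ * u₂⁻¹ * m) ≤ c + 13 * D := by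
  have ip : X.d p (u₁⁻¹ * p) ≤ L := by rwa [d_inv_self]
  have iq : X.d q (u₁⁻¹ * q) ≤ L := by rwa [d_inv_self]
  have ip' : X.d p (u₂⁻¹ * p) ≤ L := by rwa [d_inv_self]
  have iq' : X.d q (u₂⁻¹ * q) ≤ L := by rwa [d_inv_self]
  obtain ⟨m1, -⟩ := h.shift (r := r + 3 * L) ip' iq' (by rwa [add_assoc, ← Nat.succ_mul]) (by omega)
  obtain ⟨m2, -⟩ := h.shift (r := r + 2 * L) ip iq (by rwa [add_assoc, ← Nat.succ_mul]) (by omega)
  obtain ⟨m3, a3⟩ := h.shift (r := r + L) hp' hq' (by rwa [add_assoc, ← two_mul]) (by omega)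
  obtain ⟨m4, a4⟩ := h.shift (r := r) hp hq m3 (by omega)
  obtain ⟨-, a1⟩ := h.shift (r := r + 2 * L) hp' hq' (by rwa [add_assoc, ← Nat.succ_mul]) (by omega)
  obtain ⟨-, a2⟩ := h.shift (r := r + L) hp hq (by rwa [add_assoc, ← two_mul]) (by omega)
  rw [mul_inv_cancel_left] at a1 a2
  have := h.L2 hm.1 m4.1
  simp only [mul_assoc]
  omega

theorem commute_of_comm {a b : G} (h : a * b * a⁻¹ * b⁻¹ = 1) : Commute a b := by
  rw [mul_inv_eq_one, mul_inv_eq_iff_eq_mul] at h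
  exact h

theorem FP.h4plus {D C A : ℕ} (h : X.FP D) (h4 : X.H4 C A) (hC : 15 * D ≤ C) (ha : CSAa G)
    (hb : CSAb G) (L : ℕ) : X.H4 L (A + 10 * L + 10 * D + 2) := by
  intro u₁ u₂ p q hp hq hp' hq' hpq
  obtain ⟨m, e1, e2⟩ := X.exists_between p q (5 * L + 5 * D + 1) (by omega)
  obtain ⟨m', e3, e4⟩ := X.exists_between p q (X.d p q - (5 * L + 5 * D + 1)) (by omega)
  have t := X.tri p m m'
  have hmm : A ≤ X.d m m' := by omega
  have key : ∀ z, X.Mid p q 0 (5 * D + 1 + 4 * L + L) z →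
      X.d z (u₁ * u₂ * u₁⁻¹ * u₂⁻¹ * z) ≤ C ∧ ∀ u, X.d p (u * p) ≤ L → X.d q (u * q) ≤ L →
      X.d z (u * (u₁ * u₂ * u₁⁻¹ * u₂⁻¹) * u⁻¹ * z) ≤ C := by
    intro z hz
    refine ⟨?_, ?_⟩
    · have := h.comm_disp (r := 5 * D + 1 + L) (c := 0) hp hq hp' hq' (m := z)
        (by rwa [show 5 * D + 1 + L + 4 * L = 5 * D + 1 + 4 * L + L by ring]) (by omega)
      omega
    · intro u up uq
      rw [← X.d_inv_self] at up uq
      obtain ⟨m1, -⟩ := h.shift up uq hz (by omega)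
      have := h.comm_disp hp hq hp' hq' m1 (by omega)
      rw [d_conj]; omega
  obtain ⟨k1, k2⟩ := key m ⟨by omega, by omega, by omega⟩
  obtain ⟨k3, k4⟩ := key m' ⟨by omega, by omega, by omega⟩
  by_cases hc : u₁ * u₂ * u₁⁻¹ * u₂⁻¹ = 1
  · exact commute_of_comm hc
  exact ha _ _ _ hc (hb _ _ (h4 _ _ _ _ (k2 u₁ hp hq) (k4 u₁ hp hq) k1 k3 hmm))
    (hb _ _ (h4 _ _ _ _ (k2 u₂ hp' hq') (k4 u₂ hp' hq') k1 k3 hmm))

theorem FP.h4_zero (h : X.FP 0) (L : ℕ) : X.H4 L (8 * L + 2) := by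
  intro u₁ u₂ p q hp hq hp' hq' hpq
  obtain ⟨m, e1, e2⟩ := X.exists_between p q (4 * L + 1) (by omega)
  have := h.comm_disp (r := 1) (c := 0) hp hq hp' hq' (m := m) ⟨by omega, by omega, by omega⟩
    (by omega)
  have := X.eq_of_d (Nat.le_zero.1 this)
  exact commute_of_comm (by simpa using this.symm)

theorem H4.mono {C A C' A' : ℕ} (h : X.H4 C A) (hC : C' ≤ C) (hA : A ≤ A') : X.H4 C' A' :=
  fun u₁ u₂ p q a b c d e => h u₁ u₂ p q (by omega) (by omega) (by omega) (by omega) (by omega)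

theorem d_commute {a H : G} (h : Commute a H) (x : G) : X.d (H * x) (a * (H * x)) = X.d x (a * x) := by
  rw [← mul_assoc, h.eq, mul_assoc, d_mul]

theorem FP.deep_comm {D c : ℕ} (h : X.FP D) {H x a b : G} (hd : X.Deep H c x) (ha : Commute a H)
    (hb : Commute b H) : X.d x (a * b * a⁻¹ * b⁻¹ * x) ≤ c + 13 * D := by
  obtain ⟨k, h1, h2⟩ := hd (c + 8 * D + 1 + 4 * max (X.d x (a * x)) (X.d x (b * x)))
  have e1 : X.d ((H ^ k)⁻¹ * x) x = X.d x (H ^ k * x) := by rw [d_inv_left]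
  have e2 : X.d ((H ^ k)⁻¹ * x) (H ^ k * x) = X.d x (H ^ (2 * k) * x) := by
    rw [d_inv_left, ← mul_assoc, ← pow_add, two_mul]
  apply h.comm_disp (p := (H ^ k)⁻¹ * x) (q := H ^ k * x)
    (L := max (X.d x (a * x)) (X.d x (b * x))) (r := c + 8 * D + 1)
  · rw [d_commute (ha.pow_right k).inv_right]; omega
  · rw [d_commute (ha.pow_right k)]; omega
  · rw [d_commute (hb.pow_right k).inv_right]; omega
  · rw [d_commute (hb.pow_right k)]; omega
  · exact ⟨by omega, by omega, by omega⟩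
  · omega

theorem FP.csa_lox_b {D n : ℕ} (h : X.FP D) (hn : Odd n) (h2 : ∀ g : G, g ^ n = 1 ∨ 0 < X.τ g)
    (he : ∀ e g : G, e ≠ 1 → e ^ n = 1 → Commute e g → g ^ n = 1) {H c y : G} (hH : 0 < X.τ H)
    (hc : 0 < X.τ c) (hcH : Commute c H) (hyH : Commute (y * c * y⁻¹) H)
    (hyc : Commute (y * c * y⁻¹) c) : Commute y c := by
  have lox : ∀ z, Commute z H → z = 1 ∨ 0 < X.τ z := by
    intro z hz
    by_cases h1 : z = 1
    · exact Or.inl h1
    · rcases h2 z with h3 | h3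
      · have := X.tau_eq_zero hn.pos (he z H h1 h3 hz)
        linarith
      · exact Or.inr h3
  rcases h.eq_or_inv hyc (X.tau_conj y c) (lox _ (hyH.mul_left hcH))
    (lox _ (hyH.mul_left hcH.inv_left)) with h3 | h3
  · exact (h.no_inv hn (h2 y) hc h3).elim
  · exact mul_inv_eq_iff_eq_mul.1 h3

theorem FP.csa_lox_a {D n C A : ℕ} (h : X.FP D) (hn : Odd n) (h2 : ∀ g : G, g ^ n = 1 ∨ 0 < X.τ g)
    (he : ∀ e g : G, e ≠ 1 → e ^ n = 1 → Commute e g → g ^ n = 1) (h4 : X.H4 C A)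
    (hC : 17 * D ≤ C) {g a b : G} (hg : 0 < X.τ g) (ha : Commute a g) (hb : Commute b g) :
    Commute a b := by
  obtain ⟨N, x, hN, hd⟩ := h.exists_deep hg
  have hH : 0 < X.τ (g ^ N) := by rw [X.tau_pow]; positivity
  have ha' := ha.pow_right N
  have hb' := hb.pow_right N
  generalize g ^ N = H at *
  have cc : ∀ a b, Commute a H → Commute b H → Commute (a * b * a⁻¹ * b⁻¹) H := fun a b ha hb =>
    ((ha.mul_left hb).mul_left ha.inv_left).mul_left hb.inv_left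
  have disp : ∀ a b, Commute a H → Commute b H → X.d x (a * b * a⁻¹ * b⁻¹ * x) ≤ C := by
    intro a b ha hb
    have := h.deep_comm hd ha hb
    omega
  by_contra hne
  have hc1 : a * b * a⁻¹ * b⁻¹ ≠ 1 := fun hh => hne (commute_of_comm hh)
  have hc : 0 < X.τ (a * b * a⁻¹ * b⁻¹) := by
    rcases h2 (a * b * a⁻¹ * b⁻¹) with h3 | h3
    · have := X.tau_eq_zero hn.pos (he _ H hc1 h3 (cc a b ha' hb'))
      linarith
    · exact h3
  have hac : Commute a (a * b * a⁻¹ * b⁻¹) := by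
    have e : a * (a * b * a⁻¹ * b⁻¹) * a⁻¹ =
        a * (a * b * a⁻¹) * a⁻¹ * (a * b * a⁻¹)⁻¹ := by group
    have hb2 : Commute (a * b * a⁻¹) H := (ha'.mul_left hb').mul_left ha'.inv_left
    apply h.csa_lox_b hn h2 he hH hc (cc a b ha' hb')
    · rw [e]; exact cc _ _ ha' hb2
    · obtain ⟨k, -, hk⟩ := hd A
      rw [e]
      apply h4 _ _ x (H ^ k * x) (disp _ _ ha' hb2) _ (disp _ _ ha' hb') _ hk
      · rw [d_commute ((cc _ _ ha' hb2).pow_right k)]; exact disp _ _ ha' hb2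
      · rw [d_commute ((cc _ _ ha' hb').pow_right k)]; exact disp _ _ ha' hb'
  have hj : ∀ j : ℕ, a ^ j * b * (a ^ j)⁻¹ * b⁻¹ = (a * b * a⁻¹ * b⁻¹) ^ j := by
    intro j
    induction j with
    | zero => simp
    | succ j ih =>
      have e : a ^ (j + 1) * b * (a ^ (j + 1))⁻¹ * b⁻¹ =
          a * (a ^ j * b * (a ^ j)⁻¹ * b⁻¹) * a⁻¹ * (a * b * a⁻¹ * b⁻¹) := by group
      rw [e, ih, (hac.pow_right j).eq, pow_succ]; group
  obtain ⟨j, hj'⟩ := exists_nat_gt ((C : ℝ) / X.τ (a * b * a⁻¹ * b⁻¹))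
  rw [div_lt_iff₀ hc] at hj'
  have e1 := X.tau_le (a * b * a⁻¹ * b⁻¹) x j
  have e2 := disp _ _ (ha'.pow_left j) hb'
  rw [hj] at e2
  have e3 : (X.d x ((a * b * a⁻¹ * b⁻¹) ^ j * x) : ℝ) ≤ C := by exact_mod_cast e2
  linarith

/-- the centraliser of an element of positive stable length is cyclic -/
theorem FP.root {D n E : ℕ} (h : X.FP D) (hn : 0 < n) (h2 : ∀ g : G, g ^ n = 1 ∨ 1 ≤ E * X.τ g)
    (he : ∀ e g : G, e ≠ 1 → e ^ n = 1 → Commute e g → g ^ n = 1) (ha : CSAa G) {g : G}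
    (hg : 0 < X.τ g) : ∃ u, Commute u g ∧ ∀ a, Commute a g → a ∈ Subgroup.zpowers u := by
  have hg1 := X.ne_one_of_tau hg
  have hE : (0 : ℝ) < E := by
    rcases h2 g with h3 | h3
    · have := X.tau_eq_zero hn h3; linarith
    · rcases Nat.eq_zero_or_pos E with rfl | hE
      · simp at h3; linarith
      · exact_mod_cast hE
  have mem : ∀ a, a ∈ Subgroup.centralizer {g} ↔ Commute a g := by
    intro a
    rw [Subgroup.mem_centralizer_singleton_iff]; rfl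
  obtain ⟨u, hu, hu'⟩ := h.cyclic (Subgroup.centralizer {g})
    (fun a ha' b hb' => ha g a b hg1 ((mem a).1 ha') ((mem b).1 hb')) (ε := 1 / E) (by positivity)
    (fun a ha' a1 => by
      rcases h2 a with h3 | h3
      · have := X.tau_eq_zero hn (he a g a1 h3 ((mem a).1 ha')); linarith
      · rw [div_le_iff₀ hE]; linarith) ((mem g).2 (Commute.refl g)) hg1
  exact ⟨u, (mem u).1 hu, fun a ha' => hu' a ((mem a).2 ha')⟩

end Nm

end Pool.Agent.Burnside6
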