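import Pool.Agent.Burnside6.Lift

set_option autoImplicit false

namespace Pool.Agent.Burnside6

variable {G : Type} [Group G] {E n : ℕ}

/-- elements that are elliptic for the electrified norm -/
def Ctx.EllS (c : Ctx G E n) (e : G) : Prop := e ^ n = 1 ∨ ∃ w, c.In w ∧ ∃ j : ℤ, e = w ^ j

theorem Ctx.EllS.conj {c : Ctx G E n} {e : G} (h : c.EllS e) (g : G) : c.EllS (g * e * g⁻¹) := by
  rcases h with h | ⟨w, hw, j, rfl⟩
  · left; rw [conj_pow, h]; simp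
  · exact Or.inr ⟨_, hw.conj g, j, by rw [conj_zpow]⟩

theorem commute_conj_iff {g a b : G} : Commute (g * a * g⁻¹) b ↔ Commute a (g⁻¹ * b * g) := by
  constructor
  · intro h
    change a * (g⁻¹ * b * g) = g⁻¹ * b * g * a
    calc _ = g⁻¹ * (g * a * g⁻¹ * b) * g := by group
      _ = _ := by rw [h.eq]; group
  · intro h
    change g * a * g⁻¹ * b = b * (g * a * g⁻¹)
    calc _ = g * (a * (g⁻¹ * b * g)) * g⁻¹ := by group
      _ = _ := by rw [h.eq]; group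

theorem conj_eq_iff {g v : G} : g⁻¹ * v * g = v ↔ Commute g v := by
  rw [mul_assoc, inv_mul_eq_iff_eq_mul, eq_comm]; rfl

namespace Kill

variable {c : Ctx G E n} (κ : Kill c)

structure Ctr (e : G) (Φ : Set G) : Prop where
  ne : Φ.Nonempty
  inv : ∀ z, e * z ∈ Φ ↔ z ∈ Φ
  alt : ∀ v, c.In v → ((∀ z, z ∈ Φ ↔ c.Y v z) ∧ ∃ j : ℤ, e = v ^ j ∧ 2 * j.natAbs ≤ κ.N v) ∨
    (¬ Commute e v ∧ ∀ z ∈ Φ, c.D v z (e * z) ≤ 4000)

variable {κ}

theorem Ctr.conj {e : G} {Φ : Set G} (h : κ.Ctr e Φ) (k : G) :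
    κ.Ctr (k * e * k⁻¹) {z | k⁻¹ * z ∈ Φ} := by
  refine ⟨?_, fun z => ?_, fun v hv => ?_⟩
  · obtain ⟨z, hz⟩ := h.ne
    exact ⟨k * z, by simpa using hz⟩
  · simpa [mul_assoc] using h.inv (k⁻¹ * z)
  · rcases h.alt _ (hv.conj' k) with ⟨h1, j, h2, h3⟩ | ⟨h1, h2⟩
    · refine Or.inl ⟨fun z => ?_, j, ?_, by rwa [κ.hNc v k hv] at h3⟩
      · rw [Set.mem_ofPred_eq, h1, ← Ctx.Y_mul]; simp
      · rw [h2, conj_zpow']; group
    · refine Or.inr ⟨by rwa [commute_conj_iff], fun z hz => ?_⟩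
      have := h2 _ hz
      rw [← Ctx.D_mul] at this
      simpa [mul_assoc] using this

theorem ctr_ell (κ : Kill c) {e : G} (h1 : e ≠ 1) (h2 : e ^ n = 1) :
    κ.Ctr e {z | c.X.d z (e * z) ≤ 7} := by
  refine ⟨c.fp.ell_fix (c.X.tau_eq_zero c.st.odd.pos h2), fun z => ?_, fun v hv => Or.inr ⟨?_, ?_⟩⟩
  · simp
  · intro hc
    have := c.X.tau_eq_zero c.st.odd.pos (c.st.he e v h1 h2 hc)
    linarith [hv.pos]
  · intro z hz
    have := hv.lip z (e * z)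
    rw [Set.mem_ofPred_eq] at hz
    omega

theorem ctr_pow (κ : Kill c) {w : G} (hw : c.In w) {j : ℤ} (h1 : j ≠ 0) (h2 : 2 * j.natAbs ≤ κ.N w) :
    κ.Ctr (w ^ j) {z | c.Y w z} := by
  refine ⟨hw, fun z => ⟨fun h => ?_, fun h => Ctx.Y.zpow h j⟩, fun v hv => ?_⟩
  · simpa using Ctx.Y.zpow h (-j)
  by_cases hvw : v = w
  · subst hvw
    exact Or.inl ⟨fun z => Iff.rfl, j, rfl, h2⟩
  refine Or.inr ⟨fun hc => hvw (hv.eq hw ?_), fun z hz => hv.diam hz (Ctx.Y.zpow hz j) hvw⟩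
  exact c.st.csaa (w ^ j) v w (fun h => h1 (c.X.zpow_eq_one_of_tau hw.pos h)) hc.symm
    ((Commute.refl w).zpow_right j)

theorem Ctr.not_mem {e : G} {Φ : Set G} (h : κ.Ctr e Φ) (h1 : e ≠ 1) : e ∉ κ.K := by
  intro hK
  obtain ⟨z, hz⟩ := h.ne
  obtain ⟨v, hv, h2⟩ := κ.green e hK h1 z
  have := κ.hN v hv
  have := E_pos hv
  rcases h.alt v hv with ⟨-, j, rfl, h3⟩ | ⟨-, h3⟩
  · rw [hv.s_zpow, hv.s_self] at h2; omega
  · have := hv.s_le (h3 z hz); omega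

theorem norm_exp (κ : Kill c) {w : G} (hw : c.In w) (j : ℤ) : ∃ j' : ℤ, 2 * j'.natAbs ≤ κ.N w ∧
    ((w ^ j' : G) : G ⧸ κ.K) = (w ^ j : G) ∧ (κ.N w : ℤ) ∣ j - j' := by
  have := κ.hN w hw
  have := E_pos hw
  have hN : 0 < κ.N w := by omega
  have e : j = κ.N w * (j.bdiv (κ.N w)) + j.bmod (κ.N w) := (Int.bdiv_add_bmod j _).symm
  refine ⟨j.bmod (κ.N w), ?_, ?_, j.bdiv (κ.N w), by omega⟩
  · have := Int.le_bmod (x := j) hN
    have := Int.bmod_lt (x := j) hN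
    omega
  · conv_rhs => rw [e, zpow_add, zpow_mul, zpow_natCast, κ.mk_K (zpow_mem (κ.hK w hw) _)]

theorem dvd_of_mem (κ : Kill c) {w : G} (hw : c.In w) {j : ℤ} (h : w ^ j ∈ κ.K) : (κ.N w : ℤ) ∣ j := by
  obtain ⟨j', h1, h2, h3⟩ := κ.norm_exp hw j
  by_cases h0 : j' = 0
  · simpa [h0] using h3
  · exfalso
    refine (κ.ctr_pow hw h0 h1).not_mem (fun h => h0 (c.X.zpow_eq_one_of_tau hw.pos h)) ?_
    rwa [← QuotientGroup.eq_one_iff, h2, QuotientGroup.eq_one_iff]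

theorem ctr_of_ell (κ : Kill c) {e : G} (h : c.EllS e) (h1 : (e : G ⧸ κ.K) ≠ 1) :
    ∃ e' Φ, κ.Ctr e' Φ ∧ (e' : G ⧸ κ.K) = e ∧ Commute e' e := by
  rcases h with h | ⟨w, hw, j, rfl⟩
  · exact ⟨e, _, κ.ctr_ell (by rintro rfl; exact h1 rfl) h, rfl, Commute.refl e⟩
  · obtain ⟨j', a, b, -⟩ := κ.norm_exp hw j
    refine ⟨_, _, κ.ctr_pow hw (by rintro rfl; exact h1 (by simpa using b.symm)) a, b,
      (Commute.refl w).zpow_zpow _ _⟩

theorem Ctr.twin {e : G} {Φ : Set G} (h : κ.Ctr e Φ) {x y v : G} (hy : y ∈ Φ)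
    (hm : ∀ z ∈ Φ, c.X.d x y ≤ c.X.d x z) (hv : c.In v) (hc : ¬ Commute e v)
    (h1 : 17344 ≤ c.D v x y) (h2 : 17344 ≤ c.D (e⁻¹ * v * e) x y) : False := by
  have hv' := hv.conj' e
  have key : ∀ w, c.In w → 86 < c.D w x y → ∀ z ∈ Φ, c.D w y z ≤ 4000 →
      c.X.d y (c.π w y) ≤ c.X.d z (c.π w z) + 4172 := by
    intro w hw hD z hz hD'
    have := hw.Pb hD
    have := hm z hz
    have := c.X.tri x (c.π w x) z
    have := c.X.tri'' (c.π w x) (c.π w z) z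
    have := Ctx.D_tri (c := c) w x y z
    unfold Ctx.D at *
    omega
  have hD : c.D v y (e * y) ≤ 4000 := by
    rcases h.alt v hv with ⟨-, j, rfl, -⟩ | ⟨-, h3⟩
    · exact absurd ((Commute.refl v).zpow_left j) hc
    · exact h3 y hy
  have k1 := key v hv (by omega) _ ((h.inv y).2 hy) hD
  have k2 := key _ hv' (by omega) (e⁻¹ * y) ((h.inv _).1 (by simpa using hy)) (by
    rw [← Ctx.D_mul, Ctx.D_comm]; simpa using hD)
  rw [Ctx.dπ_mul] at k1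
  rw [← Ctx.dπ_mul v e (e⁻¹ * y), mul_inv_cancel_left] at k2
  have := hv.sep hv' (fun h => hc (conj_eq_iff.1 h.symm)) (k := 4172) h1 h2
  omega

theorem small (κ : Kill c) {x y : G} (hm : ∀ k ∈ κ.K, c.X.d x y ≤ c.X.d x (k * y)) {v : G}
    (hv : c.In v) : 2 * (c.s v x y).natAbs < κ.N v + 1200 * E := by
  by_contra hc
  obtain ⟨r, r1, -, r3⟩ := κ.short hv (k := 1) (by norm_num) (not_lt.1 hc)
  have := hm r r1
  omega

theorem el0_core {e₀ e₁ : G} {Φ₀ Φ₁ : Set G} (h₀ : κ.Ctr e₀ Φ₀) (h₁ : κ.Ctr e₁ Φ₁) {x₀ x₁ : G}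
    (hx₀ : x₀ ∈ Φ₀) (hx₁ : x₁ ∈ Φ₁)
    (hm : ∀ z₀ ∈ Φ₀, ∀ z₁ ∈ Φ₁, ∀ k ∈ κ.K, c.X.d x₀ x₁ ≤ c.X.d z₀ (k * z₁))
    (he : (e₁ : G ⧸ κ.K) = e₀) : Commute e₁ e₀ := by
  by_contra hc
  obtain ⟨v, hv, h2⟩ := κ.green _ (κ.mem_of_eq he)
    (fun h => hc (by rw [mul_inv_eq_one.1 h])) (e₀ * x₀)
  rw [mul_assoc, inv_mul_cancel_left] at h2
  have hv' := hv.conj' e₁
  have s1 := hv.s_add (e₀ * x₀) x₀ (e₁ * x₀)
  have s2 := hv.s_add x₀ x₁ (e₁ * x₀)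
  have s3 := hv.s_add x₁ (e₁ * x₁) (e₁ * x₀)
  have s4 := hv.s_mul e₁ x₁ x₀
  have s5 := hv'.s_neg x₀ x₁
  have s6 := hv.s_neg x₀ (e₀ * x₀)
  have n1 := κ.hN v hv
  have n2 := κ.hNc v e₁ hv
  have hE := E_pos hv
  have m1 := κ.small (hm x₀ hx₀ x₁ hx₁) hv
  have m2 := κ.small (hm x₀ hx₀ x₁ hx₁) hv'
  rcases h₀.alt v hv with ⟨a1, j, a2, a3⟩ | ⟨a1, a2⟩
  · rcases h₁.alt v hv with ⟨b1, j', b2, b3⟩ | ⟨b1, b2⟩
    · exact hc (by rw [a2, b2]; exact (Commute.refl v).zpow_zpow _ _)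
    · have y0 := (a1 x₀).1 hx₀
      have d1 : c.D v x₀ x₁ ≤ 85 := by
        have := y0.Pa x₁
        have := hm _ ((a1 _).2 (hv.π_Y x₁)) x₁ hx₁ 1 (one_mem _)
        rw [one_mul] at this
        have := c.X.comm x₁ (c.π v x₁)
        have := c.X.comm x₀ (c.π v x₁)
        have := c.X.comm x₀ x₁
        unfold Ctx.D; rw [y0.π_eq]; omega
      have := hv.s_le d1
      have := hv.s_le (b2 x₁ hx₁)
      have s7 : c.s v x₀ (e₀ * x₀) = j := by rw [a2, hv.s_zpow, hv.s_self, zero_add]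
      have d2 := hv'.lt_D (k := 172) (x := x₀) (y := x₁) (by omega)
      have := hv'.Pb (x := x₀) (y := x₁) (by omega)
      have := hm _ ((a1 _).2 (hv.π_Y (e₁ * x₁))) _ ((h₁.inv x₁).2 hx₁) 1 (one_mem _)
      rw [one_mul, c.X.comm (c.π v (e₁ * x₁)), Ctx.dπ_mul] at this
      omega
  · have := hv.s_le (a2 x₀ hx₀)
    rcases h₁.alt v hv with ⟨b1, j', b2, b3⟩ | ⟨b1, b2⟩
    · have s7 : c.s v x₁ (e₁ * x₁) = j' := by rw [b2, hv.s_zpow, hv.s_self, zero_add]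
      rw [conj_eq_iff.2 (b2 ▸ (Commute.refl v).zpow_left j')] at s4 s5
      omega
    · have := hv.s_le (b2 x₁ hx₁)
      refine h₁.twin hx₁ (fun z hz => by simpa using hm x₀ hx₀ z hz 1 (one_mem _)) hv b1
        (hv.lt_D (k := 17344) (by omega)).le (hv'.lt_D (k := 17344) (by omega)).le

theorem exists_min3 (κ : Kill c) {Φ₀ Φ₁ : Set G} (h₀ : Φ₀.Nonempty) (h₁ : Φ₁.Nonempty) :
    ∃ x₀ ∈ Φ₀, ∃ x₁ ∈ Φ₁, ∃ k₀ ∈ κ.K, ∀ z₀ ∈ Φ₀, ∀ z₁ ∈ Φ₁, ∀ k ∈ κ.K,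
      c.X.d x₀ (k₀ * x₁) ≤ c.X.d z₀ (k * z₁) := by
  obtain ⟨a, ha⟩ := h₀
  obtain ⟨b, hb⟩ := h₁
  let S : Set (G × G × G) := {t | t.1 ∈ Φ₀ ∧ t.2.1 ∈ Φ₁ ∧ t.2.2 ∈ κ.K}
  have hS : S.Nonempty := ⟨(a, b, 1), ha, hb, one_mem _⟩
  obtain ⟨h1, h2, h3⟩ := Function.argminOn_mem (fun t : G × G × G => c.X.d t.1 (t.2.2 * t.2.1)) S hS
  exact ⟨_, h1, _, h2, _, h3, fun z₀ a z₁ b k d =>
    Function.argminOn_le (fun t : G × G × G => c.X.d t.1 (t.2.2 * t.2.1)) S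
      (a := (z₀, z₁, k)) ⟨a, b, d⟩⟩

theorem mk_conj (κ : Kill c) {k : G} (hk : k ∈ κ.K) (e : G) : ((k * e * k⁻¹ : G) : G ⧸ κ.K) = e := by
  rw [mul_assoc, κ.mk_K hk, QuotientGroup.mk_mul, (QuotientGroup.eq_one_iff _).2 (inv_mem hk), mul_one]

theorem el0 (κ : Kill c) {e₀ e₁ : G} (h₀ : c.EllS e₀) (h₁ : c.EllS e₁) (he : (e₁ : G ⧸ κ.K) = e₀)
    (h1 : (e₀ : G ⧸ κ.K) ≠ 1) : ∃ k ∈ κ.K, Commute (k * e₁ * k⁻¹) e₀ := by
  obtain ⟨f₀, Φ₀, a1, a2, a3⟩ := κ.ctr_of_ell h₀ h1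
  obtain ⟨f₁, Φ₁, b1, b2, b3⟩ := κ.ctr_of_ell h₁ (he ▸ h1)
  obtain ⟨x₀, c1, x₁, c2, k, c3, c4⟩ := κ.exists_min3 a1.ne b1.ne
  have := el0_core a1 (b1.conj k) (x₁ := k * x₁) c1 (by simpa using c2) (fun z₀ d1 z₁ d2 k' d3 => by
    simpa [mul_assoc] using c4 z₀ d1 _ d2 (k' * k) (mul_mem d3 c3))
    (by rw [κ.mk_conj c3, b2, a2, he])
  have n0 : f₀ ≠ 1 := by rintro rfl; exact h1 a2.symm
  have n1 : k * f₁ * k⁻¹ ≠ 1 := by
    intro h
    have := κ.mk_conj c3 f₁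
    rw [h, b2, he] at this
    exact h1 this.symm
  refine ⟨k, c3, c.st.csaa _ _ _ n1 ?_ (c.st.csaa _ _ _ n0 a3.symm this)⟩
  rw [commute_conj_iff]; simpa [mul_assoc] using b3.symm

theorem coreB (κ : Kill c) {g x : G} {k : ℕ} (hk : k ≤ 100000) (hg : ∀ v, c.In v → ¬ Commute g v)
    (hτ : 1 ≤ c.X.τ g)
    (hx : ∀ i j : ℕ, c.X.d x (g ^ i * x) + c.X.d x (g ^ j * x) ≤ c.X.d x (g ^ (i + j) * x) + k)
    (hs : ∀ (m : ℕ) v, c.In v → (c.s v x (g ^ m * x)).natAbs + 5032001 * E ≤ κ.N v) :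
    1 ≤ 6000000 * κ.Q.τ (g : G ⧸ κ.K) := by
  have iso : ∀ m : ℕ, c.H.d x (g ^ m * x) ≤ κ.Q.d x ((g : G ⧸ κ.K) ^ m * x) := fun m =>
    κ.iso (hs m)
  by_cases h : ∀ (m : ℕ) v, c.In v → c.D v x (g ^ m * x) ≤ 5200172
  · have : (1 / 6000000 : ℝ) ≤ κ.Q.τ (g : G ⧸ κ.K) := by
      apply κ.Q.le_tau x (c := 0)
      intro m
      have h1 := Ctx.qi (h m)
      have h2 := c.X.tau_le g x m
      have h3 := iso m
      have h4 : (c.X.d x (g ^ m * x) : ℝ) ≤ 6000000 * κ.Q.d x ((g : G ⧸ κ.K) ^ m * x) := by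
        exact_mod_cast (by omega)
      have : (m : ℝ) * 1 ≤ m * c.X.τ g := by gcongr
      linarith
    linarith
  push Not at h
  obtain ⟨m₀, v, hv, hD⟩ := h
  have : (1 : ℝ) ≤ κ.Q.τ (g : G ⧸ κ.K) := by
    apply κ.Q.le_tau x (c := m₀)
    intro m
    have h1 := Ctx.count (c := c) (x := x) (y := g ^ m * x) (Finset.range (m - m₀))
      (fun i => g ^ i * v * (g ^ i)⁻¹) (by
        have key : ∀ i l : ℕ, g ^ i * v * (g ^ i)⁻¹ = g ^ (i + l) * v * (g ^ (i + l))⁻¹ → l = 0 := by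
          intro i l h
          have h2 : Commute (g ^ l) v := by
            rw [← conj_eq_iff]
            calc _ = (g ^ (i + l))⁻¹ * (g ^ i * v * (g ^ i)⁻¹) * g ^ (i + l) := by group
              _ = v := by rw [h]; group
          by_contra hl
          refine hg v hv (c.st.csaa (g ^ l) g v (fun h => hl ?_) ((Commute.refl g).pow_right l) h2.symm)
          have := c.X.zpow_eq_one_of_tau (g := g) (by linarith) (m := l) (by simpa using h)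
          omega
        intro i _ j _ hij
        rcases le_total i j with h | h
        · obtain ⟨l, rfl⟩ := Nat.exists_eq_add_of_le h
          rw [key i l hij]; rfl
        · obtain ⟨l, rfl⟩ := Nat.exists_eq_add_of_le h
          rw [key j l hij.symm]; rfl) (by
        intro i hi
        rw [Finset.mem_range] at hi
        obtain ⟨l, rfl⟩ : ∃ l, m = i + (m₀ + l) := ⟨m - i - m₀, by omega⟩
        refine ⟨hv.conj _, ?_⟩
        have e1 : c.D (g ^ i * v * (g ^ i)⁻¹) (g ^ i * x) (g ^ (i + m₀) * x) = c.D v x (g ^ m₀ * x) := by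
          rw [pow_add, mul_assoc (g ^ i) (g ^ m₀), Ctx.D_mul]; simp [mul_assoc]
        have := (hv.conj (g ^ i)).mono (a := x) (b := g ^ (i + (m₀ + l)) * x) (x := g ^ i * x)
          (y := g ^ (i + m₀) * x) (k := 2 * k) (by omega) (by
            rw [Nm.orbit_d, ← add_assoc, Nm.orbit_d, add_assoc i m₀ l]
            have := hx i (m₀ + l)
            have := hx m₀ l
            omega)
        omega)
    rw [Finset.card_range] at h1
    have h3 := iso m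
    have h4 : m ≤ κ.Q.d x ((g : G ⧸ κ.K) ^ m * x) + m₀ := by omega
    rw [one_mul]
    exact_mod_cast h4
  linarith

theorem coreA (κ : Kill c) {g : G} (hg : ¬ c.EllS g)
    (hs : ∀ z v, c.In v → (c.X.d z (g * z) : ℝ) ≤ c.X.τ g + 190 →
      (c.s v z (g * z)).natAbs + 5100000 * E ≤ κ.N v) : 1 ≤ 6000000 * κ.Q.τ (g : G ⧸ κ.K) := by
  have hc : ∀ v, c.In v → ¬ Commute g v := fun v hv h => hg (Or.inr ⟨v, hv, hv.cent h⟩)
  have hτ : 1 < c.X.τ g := by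
    rcases c.full g with h | ⟨u, hu, y, j, h⟩ | h
    · exact absurd (Or.inl h) hg
    · exact absurd (Or.inr ⟨y * u * y⁻¹, ⟨y, by simpa [Ctx.Y, mul_assoc] using hu⟩, j, h.symm⟩) hg
    · exact h
  obtain ⟨N, x, -, hd⟩ := c.fp.exists_deep (u := g) (by linarith)
  have up : ∀ i : ℕ, (c.X.d x (g ^ i * x) : ℝ) ≤ i * c.X.τ g + 16 := by
    intro i
    have := c.fp.deep_disp hd ((Commute.refl g).pow_pow i N)
    rw [c.X.tau_pow] at this
    simpa using this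
  have hx : ∀ i j : ℕ, c.X.d x (g ^ i * x) + c.X.d x (g ^ j * x) ≤ c.X.d x (g ^ (i + j) * x) + 32 := by
    intro i j
    have h1 := up i
    have h2 := up j
    have h3 := c.X.tau_le g x (i + j)
    have : (c.X.d x (g ^ i * x) : ℝ) + c.X.d x (g ^ j * x) ≤ c.X.d x (g ^ (i + j) * x) + 32 := by
      push_cast at h3; linarith
    exact_mod_cast this
  refine κ.coreB (k := 32) (by norm_num) hc hτ.le hx (fun m v hv => ?_)
  have hN := κ.hN v hv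
  by_cases hD : c.D v x (g ^ m * x) ≤ 86
  · have := hv.s_le hD; omega
  obtain ⟨b1, b2⟩ := hv.btw (not_le.1 hD)
  have pb := hv.Pb (not_le.1 hD)
  have e1 : c.X.d (g ^ m * x) (g * (g ^ m * x)) ≤ c.X.d x (g * x) := by
    rw [Nm.d_commute ((Commute.refl g).pow_right m)]
  have d1 := c.fp.disp b1 le_rfl e1
  have d2 := c.fp.disp b2 le_rfl e1
  have y1 := hv.π_Y x
  have y2 := hv.π_Y (g ^ m * x)
  have s1 := hs (c.π v x) v hv (by
    have := up 1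
    have h2 : (c.X.d (c.π v x) (g * c.π v x) : ℝ) ≤ c.X.d x (g * x) + 174 := by exact_mod_cast d1
    simp only [pow_one, Nat.cast_one, one_mul] at this
    linarith)
  have s2 := hv.s_le (hv.diam (Ctx.Y_conj.2 y1) (Ctx.Y_conj.2 y2)
    (fun h => hc v hv (mul_inv_eq_iff_eq_mul.1 h.symm)) (y := g * c.π v x) (y' := g * c.π v (g ^ m * x)))
  have s3 := hv.s_add (c.π v x) (g * c.π v x) (g * c.π v (g ^ m * x))
  have s4 := hv.cmp (x := x) (y := g ^ m * x) (x' := c.π v x) (y' := g * c.π v (g ^ m * x)) (k := 378) (by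
    have h1 := hx m 1
    have h2 := c.X.tri x (g * c.π v (g ^ m * x)) (g ^ (m + 1) * x)
    have h3 : c.X.d (g * c.π v (g ^ m * x)) (g ^ (m + 1) * x) = c.X.d (g ^ m * x) (c.π v (g ^ m * x)) := by
      rw [pow_succ', mul_assoc, Nm.d_mul, c.X.comm]
    have h4 := c.X.tri x (c.π v x) (g * c.π v (g ^ m * x))
    have h5 := y2.π_le (g * c.π v (g ^ m * x))
    have h6 := c.X.tri'' (c.π v x) (c.π v (g * c.π v (g ^ m * x))) (g * c.π v (g ^ m * x))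
    have h7 := c.X.comm (c.π v (g ^ m * x)) (g * c.π v (g ^ m * x))
    rw [pow_one] at h1
    unfold Ctx.D at *
    rw [y1.π_eq]
    omega)
  omega

theorem classify (κ : Kill c) (q : G ⧸ κ.K) :
    (∃ g : G, (g : G ⧸ κ.K) = q ∧ c.EllS g) ∨ 1 ≤ 6000000 * κ.Q.τ q := by
  obtain ⟨g₀, rfl⟩ := QuotientGroup.mk_surjective q
  let S : Set (G × G) := {t | (t.1 : G ⧸ κ.K) = g₀}
  have hS : S.Nonempty := ⟨(g₀, 1), rfl⟩
  obtain ⟨g, x, h1, h2⟩ : ∃ g x : G, (g : G ⧸ κ.K) = g₀ ∧ ∀ g' z : G, (g' : G ⧸ κ.K) = g₀ →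
      c.X.d x (g * x) ≤ c.X.d z (g' * z) :=
    ⟨_, (Function.argminOn (fun t : G × G => c.X.d t.2 (t.1 * t.2)) S hS).2,
      Function.argminOn_mem (fun t : G × G => c.X.d t.2 (t.1 * t.2)) S hS, fun g' z h =>
      Function.argminOn_le (fun t : G × G => c.X.d t.2 (t.1 * t.2)) S (a := (g', z)) h⟩
  by_cases hg : c.EllS g
  · exact Or.inl ⟨g, h1, hg⟩
  right
  rw [← h1]
  refine κ.coreA hg (fun z v hv hz => ?_)
  have := κ.hN v hv
  by_contra hc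
  obtain ⟨r, r1, -, r3⟩ := κ.short (x := z) (y := g * z) hv (k := 191) (by norm_num) (by omega)
  have h3 := h2 (r * g) z (by rw [κ.mk_K r1, h1])
  rw [mul_assoc] at h3
  have h4 := c.X.tau_le_one g x
  have : (c.X.d z (g * z) : ℝ) ≤ c.X.d x (g * x) + 190 := by linarith
  have : c.X.d z (g * z) ≤ c.X.d x (g * x) + 190 := by exact_mod_cast this
  omega

end Kill

end Pool.Agent.Burnside6
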