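import Pool.Agent.Burnside6.Proj

set_option autoImplicit false

namespace Pool.Agent.Burnside6

variable {G : Type} [Group G] {E n : ℕ} {A : Type} [Group A]

/-- rotation data in a group `A` mapping to `G` -/
structure Rot (c : Ctx G E n) (A : Type) [Group A] where
  φ : A →* G
  ρ : G → A
  N : G → ℕ
  hρ : ∀ v, c.In v → φ (ρ v) = v ^ N v
  hconj : ∀ v a, c.In v → ρ (φ a * v * (φ a)⁻¹) = a * ρ v * a⁻¹
  hN : ∀ v, c.In v → 80000 * E ≤ N v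

inductive Behind (ρ : G → A) (K : Subgroup A) (T : Set G) : A → G → Prop
  | base (t : G) (e : ℤ) (k : A) : t ∈ T → e ≠ 0 → k ∈ K → Behind ρ K T (ρ t ^ e * k) t
  | step (t : G) (e : ℤ) (k : A) (t' : G) : t ∈ T → e ≠ 0 → Behind ρ K T k t' → t' ≠ t →
      Behind ρ K T (ρ t ^ e * k) t

omit [Group G] in
theorem Behind.inv {ρ : G → A} {K : Subgroup A} {T : Set G} {k : A} {t : G} (h : Behind ρ K T k t) :
    t ∈ T ∧ ∃ (e : ℤ) (k₁ : A), k = ρ t ^ e * k₁ ∧ (k₁ ∈ K ∨ ∃ t', t' ≠ t ∧ Behind ρ K T k₁ t') := by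
  cases h with
  | base t e k h1 h2 h3 => exact ⟨h1, e, k, rfl, Or.inl h3⟩
  | step t e k t' h1 h2 h3 h4 => exact ⟨h1, e, k, rfl, Or.inr ⟨t', h4, h3⟩⟩

omit [Group G] in
theorem Behind.rot {ρ : G → A} {K : Subgroup A} {T : Set G} {k : A} {t : G} (ht : t ∈ T) {ε : ℤ}
    (hε : ε ≠ 0) (h : k ∈ K ∨ ∃ t', Behind ρ K T k t') :
    ρ t ^ ε * k ∈ K ∨ ∃ t', Behind ρ K T (ρ t ^ ε * k) t' := by
  rcases h with h | ⟨t', h⟩
  · exact Or.inr ⟨t, .base t ε k ht hε h⟩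
  by_cases htt : t' = t
  · subst htt
    obtain ⟨-, e, k₁, rfl, h1⟩ := h.inv
    rw [← mul_assoc, ← zpow_add]
    by_cases he : ε + e = 0
    · rw [he, zpow_zero, one_mul]
      exact h1.imp id (fun ⟨t, _, h⟩ => ⟨t, h⟩)
    · rcases h1 with h1 | ⟨t'', h1, h2⟩
      · exact Or.inr ⟨_, .base _ _ _ ht he h1⟩
      · exact Or.inr ⟨_, .step _ _ _ _ ht he h2 h1⟩
  · exact Or.inr ⟨t, .step t ε k t' ht hε h htt⟩

namespace Rot

variable {c : Ctx G E n} (R : Rot c A) (x : G)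

def K (S : Set G) : Subgroup A := Subgroup.closure (R.ρ '' S)

structure Inv (W S : Set G) : Prop where
  hS : ∀ v ∈ S, c.In v
  hx : x ∈ W
  hWK : ∀ k ∈ R.K S, ∀ w ∈ W, R.φ k * w ∈ W
  hSK : ∀ k ∈ R.K S, ∀ v ∈ S, R.φ k * v * (R.φ k)⁻¹ ∈ S
  I1 : ∀ v, c.In v → v ∉ S → ∀ y ∈ W, ∀ y' ∈ W, c.D v y y' ≤ 17230
  I2 : ∀ y ∈ W, ∀ y' ∈ W, ∀ m, c.X.d y m + c.X.d m y' = c.X.d y y' → ∃ w ∈ W, c.X.d m w ≤ 434
  green : ∀ k ∈ R.K S, k ≠ 1 → ∃ v, c.In v ∧ R.N v ≤ (c.s v x (R.φ k * x)).natAbs + 32000 * E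

def U (c : Ctx G E n) (W : Set G) : Set G := {y | ∃ w ∈ W, c.X.d y w ≤ 610}

def T (c : Ctx G E n) (W S : Set G) : Set G := {t | t ∉ S ∧ ∃ y ∈ U c W, c.Y t y}

def V (c : Ctx G E n) (W S : Set G) (t : G) : Set G :=
  {y | y ∈ U c W ∨ ∃ t' ∈ T c W S, t' ≠ t ∧ c.Y t' y}

def Z (c : Ctx G E n) (W S : Set G) : Set G := {y | y ∈ U c W ∨ ∃ t' ∈ T c W S, c.Y t' y}

variable {R x} {W S : Set G}

theorem T_in {t : G} (h : t ∈ T c W S) : c.In t := by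
  obtain ⟨-, y, -, hy⟩ := h
  exact hy.In

theorem mem_U {w : G} (h : w ∈ W) : w ∈ U c W := ⟨w, h, by simp⟩

theorem Inv.UK (h : R.Inv x W S) {k : A} (hk : k ∈ R.K S) {y : G} (hy : y ∈ U c W) :
    R.φ k * y ∈ U c W := by
  obtain ⟨w, hw, hd⟩ := hy
  exact ⟨_, h.hWK k hk w hw, by simpa using hd⟩

theorem Inv.TK (h : R.Inv x W S) {k : A} (hk : k ∈ R.K S) {t : G} (ht : t ∈ T c W S) :
    R.φ k * t * (R.φ k)⁻¹ ∈ T c W S := by
  obtain ⟨h1, y, hy, h2⟩ := ht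
  refine ⟨fun hc => h1 ?_, _, h.UK hk hy, Ctx.Y_conj.2 h2⟩
  have := h.hSK k⁻¹ (inv_mem hk) _ hc
  simpa [mul_assoc] using this

theorem Inv.ZK (h : R.Inv x W S) {k : A} (hk : k ∈ R.K S) {y : G} (hy : y ∈ Z c W S) :
    R.φ k * y ∈ Z c W S := by
  rcases hy with hy | ⟨t, ht, hy⟩
  · exact Or.inl (h.UK hk hy)
  · exact Or.inr ⟨_, h.TK hk ht, Ctx.Y_conj.2 hy⟩

theorem Inv.DV (h : R.Inv x W S) {t : G} (ht : t ∈ T c W S) {y y' : G} (hy : y ∈ V c W S t)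
    (hy' : y' ∈ V c W S t) : c.D t y y' ≤ 26794 := by
  have hi := T_in ht
  have key : ∀ y ∈ V c W S t, ∃ w ∈ W, c.D t y w ≤ 4782 := by
    rintro y (⟨w, hw, hd⟩ | ⟨t', ⟨-, z, ⟨w, hw, hd⟩, hz⟩, h1, h2⟩)
    · exact ⟨w, hw, by have := hi.lip y w; omega⟩
    · refine ⟨w, hw, ?_⟩
      have := hi.lip z w
      have := hi.diam h2 hz h1.symm
      have := Ctx.D_tri (c := c) t y z w
      omega
  obtain ⟨w, hw, h1⟩ := key y hy
  obtain ⟨w', hw', h2⟩ := key y' hy'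
  have := h.I1 t hi ht.1 w hw w' hw'
  have := Ctx.D_tri (c := c) t y w y'
  have := Ctx.D_tri (c := c) t w w' y'
  have := Ctx.D_comm (c := c) t w' y'
  omega

theorem Inv.DZ (h : R.Inv x W S) {v : G} (hi : c.In v) (hS : v ∉ S) (hT : v ∉ T c W S) {y y' : G}
    (hy : y ∈ Z c W S) (hy' : y' ∈ Z c W S) : c.D v y y' ≤ 8430 := by
  have far : ∀ z, c.Y v z → z ∉ U c W := fun z hz hU => hT ⟨hS, z, hU, hz⟩
  have k1 : ∀ y w, w ∈ W → c.X.d y w ≤ 610 → c.D v y w ≤ 172 := by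
    intro y w hw hd
    rw [Ctx.D_comm]
    apply hi.ball
    by_contra hc
    refine far _ (hi.π_Y w) ⟨w, hw, ?_⟩
    have := c.X.comm y w
    have := c.X.comm w (c.π v w)
    omega
  have key : ∀ y ∈ Z c W S, ∃ w ∈ W, c.D v y w ≤ 4172 := by
    rintro y (⟨w, hw, hd⟩ | ⟨t', ht', h2⟩)
    · exact ⟨w, hw, by have := k1 y w hw hd; omega⟩
    · have hne : v ≠ t' := by rintro rfl; exact hT ht'
      obtain ⟨-, z, ⟨w, hw, hd⟩, hz⟩ := ht'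
      refine ⟨w, hw, ?_⟩
      have := k1 z w hw hd
      have := hi.diam h2 hz hne
      have := Ctx.D_tri (c := c) v y z w
      omega
  obtain ⟨w, hw, h1⟩ := key y hy
  obtain ⟨w', hw', h2⟩ := key y' hy'
  have : c.D v w w' ≤ 86 := by
    by_contra hc
    obtain ⟨m, m1, m2⟩ := c.fp.near (hi.btw (not_le.1 hc)).1
    obtain ⟨z, z1, z2⟩ := h.I2 w hw w' hw' m m1
    refine far _ (hi.π_Y w) ⟨z, z1, ?_⟩
    have := c.X.tri (c.π v w) m z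
    omega
  have := Ctx.D_tri (c := c) v y w y'
  have := Ctx.D_tri (c := c) v w w' y'
  have := Ctx.D_comm (c := c) v w' y'
  omega

theorem Inv.qcU (h : R.Inv x W S) {y y' z : G} {k : ℕ} (hy : y ∈ U c W) (hy' : y' ∈ U c W)
    (hz : c.X.d y z + c.X.d z y' ≤ c.X.d y y' + k) : ∃ w ∈ U c W, c.X.d z w ≤ k + 6 := by
  obtain ⟨w, hw, hd⟩ := hy
  obtain ⟨w', hw', hd'⟩ := hy'
  rcases c.fp.L1 hz w with h1 | h1
  · obtain ⟨m, m1, m2⟩ := c.fp.near h1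
    exact ⟨m, ⟨w, hw, by omega⟩, by omega⟩
  rcases c.fp.L1 h1 w' with h2 | h2
  · obtain ⟨m, m1, m2⟩ := c.fp.near h2
    obtain ⟨w'', a, b⟩ := h.I2 w hw w' hw' m m1
    exact ⟨m, ⟨w'', a, by omega⟩, by omega⟩
  · obtain ⟨m, m1, m2⟩ := c.fp.near h2
    have := c.X.comm w' y'
    have := c.X.comm w' m
    exact ⟨m, ⟨w', hw', by omega⟩, by omega⟩

theorem Inv.qcZ (h : R.Inv x W S) {y y' z : G} {k : ℕ} (hy : y ∈ Z c W S) (hy' : y' ∈ Z c W S)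
    (hz : c.X.d y z + c.X.d z y' ≤ c.X.d y y' + k) : ∃ w ∈ Z c W S, c.X.d z w ≤ k + 90 := by
  have key : ∀ y ∈ Z c W S, ∃ y₁ ∈ U c W, ∀ j, c.X.d y z + c.X.d z y₁ ≤ c.X.d y y₁ + j →
      ∃ w ∈ Z c W S, c.X.d z w ≤ j + 86 := by
    rintro y (hy | ⟨t, ht, h2⟩)
    · refine ⟨y, hy, fun j hj => ⟨y, Or.inl hy, ?_⟩⟩
      rw [Nm.d_self] at hj; omega
    · obtain ⟨a, y₁, h3, h4⟩ := ht
      refine ⟨y₁, h3, fun j hj => ⟨c.π t z, Or.inr ⟨t, ⟨a, y₁, h3, h4⟩, h2.In.π_Y z⟩, ?_⟩⟩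
      have := h2.near h4 hj
      omega
  obtain ⟨y₁, a1, a2⟩ := key y hy
  obtain ⟨y₂, b1, b2⟩ := key y' hy'
  rcases c.fp.L1 hz y₁ with h1 | h1
  · obtain ⟨w, w1, w2⟩ := a2 _ h1
    exact ⟨w, w1, by omega⟩
  rcases c.fp.L1 h1 y₂ with h2 | h2
  · obtain ⟨w, w1, w2⟩ := h.qcU a1 b1 h2
    exact ⟨w, Or.inl w1, by omega⟩
  · obtain ⟨w, w1, w2⟩ := b2 (k + 4) (by
      have := c.X.comm y' z
      have := c.X.comm y₂ z
      have := c.X.comm y₂ y'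
      omega)
    exact ⟨w, w1, by omega⟩

theorem Inv.normal (h : R.Inv x W S) {k : A} (hk : k ∈ R.K (S ∪ T c W S)) :
    k ∈ R.K S ∨ ∃ t, Behind R.ρ (R.K S) (T c W S) k t := by
  have hK : ∀ g ∈ R.K S, ∀ k, (k ∈ R.K S ∨ ∃ t, Behind R.ρ (R.K S) (T c W S) k t) →
      (g * k ∈ R.K S ∨ ∃ t, Behind R.ρ (R.K S) (T c W S) (g * k) t) := by
    intro g hg k hk
    rcases hk with hk | ⟨t, hk⟩
    · exact Or.inl (mul_mem hg hk)
    refine Or.inr ⟨R.φ g * t * (R.φ g)⁻¹, ?_⟩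
    induction hk with
    | base t e k h1 h2 h3 =>
      have := Behind.base (ρ := R.ρ) _ e (g * k) (h.TK hg h1) h2 (mul_mem hg h3)
      rw [R.hconj _ _ (T_in h1), conj_zpow] at this
      simpa [mul_assoc] using this
    | step t e k t' h1 h2 h3 h4 ih =>
      have := Behind.step (ρ := R.ρ) _ e (g * k) _ (h.TK hg h1) h2 ih (by simpa using h4)
      rw [R.hconj _ _ (T_in h1), conj_zpow] at this
      simpa [mul_assoc] using this
  induction hk using Subgroup.closure_induction_left with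
  | one => exact Or.inl (one_mem _)
  | mul_left g hg k _ ih =>
    obtain ⟨v, hv | hv, rfl⟩ := hg
    · exact hK _ (Subgroup.subset_closure ⟨v, hv, rfl⟩) _ ih
    · simpa using Behind.rot hv (ε := 1) (by norm_num) ih
  | inv_mul_cancel g hg k _ ih =>
    obtain ⟨v, hv | hv, rfl⟩ := hg
    · exact hK _ (inv_mem (Subgroup.subset_closure ⟨v, hv, rfl⟩)) _ ih
    · simpa using Behind.rot hv (ε := -1) (by norm_num) ih

theorem natAbs_rot {N a : ℕ} {s e : ℤ} (he : e ≠ 0) (hs : s.natAbs ≤ a) :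
    N ≤ (s + N * e).natAbs + a := by
  have : N ≤ ((N : ℤ) * e).natAbs := by
    rw [Int.natAbs_mul, Int.natAbs_natCast]
    exact Nat.le_mul_of_pos_right _ (Int.natAbs_pos.2 he)
  omega

theorem Inv.big (h : R.Inv x W S) {k : A} {t : G} (hk : Behind R.ρ (R.K S) (T c W S) k t)
    {y'' : G} (hy'' : y'' ∈ Z c W S) : (c.Y t (R.φ k * y'') ∧ y'' ∉ U c W) ∨
      ∀ y ∈ V c W S t, R.N t ≤ (c.s t y (R.φ k * y'')).natAbs + 32000 * E := by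
  have rot : ∀ t ∈ T c W S, ∀ (e : ℤ) (k : A),
      R.φ (R.ρ t ^ e * k) * y'' = t ^ (R.N t * e) * (R.φ k * y'') := by
    intro t ht e k
    rw [map_mul, map_zpow, R.hρ _ (T_in ht), ← zpow_natCast, ← zpow_mul, mul_assoc]
  have fin : ∀ t ∈ T c W S, ∀ (e : ℤ) (k : A) (y : G), e ≠ 0 → c.D t y (R.φ k * y'') ≤ 32000 →
      R.N t ≤ (c.s t y (R.φ (R.ρ t ^ e * k) * y'')).natAbs + 32000 * E := by
    intro t ht e k y he hD
    rw [rot t ht, (T_in ht).s_zpow]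
    exact natAbs_rot he ((T_in ht).s_le hD)
  induction hk with
  | base t e k h1 h2 h3 =>
    by_cases hV : R.φ k * y'' ∈ V c W S t
    · exact Or.inr fun y hy => fin t h1 e k y h2 (by have := h.DV h1 hy hV; omega)
    · left
      rcases h.ZK h3 hy'' with h4 | ⟨t', h4, h5⟩
      · exact absurd (Or.inl h4) hV
      · have : t' = t := by
          by_contra hne
          exact hV (Or.inr ⟨t', h4, hne, h5⟩)
        subst this
        rw [rot _ h1]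
        exact ⟨h5.zpow _, fun hU => hV (Or.inl (h.UK h3 hU))⟩
  | step t e k t' h1 h2 h3 h4 ih =>
    have ht' := h3.inv.1
    refine Or.inr fun y hy => fin t h1 e k y h2 ?_
    rcases ih with ⟨h5, -⟩ | h5
    · have := h.DV h1 hy (Or.inr ⟨t', ht', h4, h5⟩); omega
    · obtain ⟨z, hz⟩ := T_in h1
      obtain ⟨z', hz'⟩ := T_in ht'
      have h6 := h5 z (Or.inr ⟨t, h1, h4.symm, hz⟩)
      have h7 := R.hN _ (T_in ht')
      have h8 := (T_in ht').lt_D (k := 4400) (x := z) (y := R.φ k * y'') (by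
        have := (T_in ht').lox
        have : E ≠ 0 := by rintro rfl; norm_num at this
        omega)
      rw [Ctx.D_comm] at h8
      have h9 := Ctx.In.behr hz hz' h4 h8
      have := h.DV h1 hy (Or.inr ⟨t', ht', h4, hz'⟩)
      have := Ctx.D_tri (c := c) t y z' (R.φ k * y'')
      have := Ctx.D_comm (c := c) t z' (R.φ k * y'')
      omega

theorem Inv.gate (h : R.Inv x W S) (m : G) : ∃ g ∈ R.K (S ∪ T c W S),
    ∀ k ∈ R.K (S ∪ T c W S), ∀ y ∈ Z c W S, R.φ k * y ∈ Z c W S ∨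
      ∃ t ∈ T c W S, 4400 < c.D t ((R.φ g)⁻¹ * m) (R.φ k * y) := by
  obtain ⟨g, hg, hmin⟩ : ∃ g ∈ R.K (S ∪ T c W S), ∀ g' ∈ R.K (S ∪ T c W S),
      c.X.d (R.φ g * x) m ≤ c.X.d (R.φ g' * x) m :=
    ⟨_, Function.argminOn_mem (fun g => c.X.d (R.φ g * x) m) (R.K (S ∪ T c W S) : Set A)
      ⟨1, one_mem _⟩, fun g' hg' => Function.argminOn_le (fun g => c.X.d (R.φ g * x) m) _ hg'⟩
  refine ⟨g, hg, fun k hk y hy => ?_⟩
  rcases h.normal hk with h1 | ⟨t, h1⟩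
  · exact Or.inl (h.ZK h1 hy)
  have ht := h1.inv.1
  have hi := T_in ht
  rcases h.big h1 hy with ⟨h2, -⟩ | h2
  · exact Or.inl (Or.inr ⟨t, ht, h2⟩)
  refine Or.inr ⟨t, ht, hi.lt_D ?_⟩
  have h3 := h2 x (Or.inl (mem_U h.hx))
  have h4 := R.hN t hi
  have h5 := hi.s_add x ((R.φ g)⁻¹ * m) (R.φ k * y)
  have hE : E ≠ 0 := by
    have := hi.lox
    rintro rfl; norm_num at this
  by_contra hc
  obtain ⟨ε, hε⟩ := hi.short (x := x) (y := (R.φ g)⁻¹ * m) (N := R.N t) (k := 1) (by omega) (by omega)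
  have hρ : R.ρ t ∈ R.K (S ∪ T c W S) := Subgroup.subset_closure ⟨t, Or.inr ht, rfl⟩
  have := hmin (g * (R.ρ t ^ ε)⁻¹) (mul_mem hg (inv_mem (zpow_mem hρ _)))
  rw [map_mul, map_inv, map_zpow, R.hρ _ hi, mul_assoc, ← c.X.d_inv_right, ← c.X.d_inv_right (R.φ g),
    c.X.d_inv_left] at this
  omega

theorem Inv.step (h : R.Inv x W S) : ∃ W' S', R.Inv x W' S' ∧ U c W ⊆ W' ∧
    S ∪ T c W S ⊆ S' := by
  have hin : ∀ v ∈ S ∪ T c W S, c.In v := by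
    rintro v (hv | hv)
    · exact h.hS v hv
    · exact T_in hv
  let S' : Set G := {w | ∃ k ∈ R.K (S ∪ T c W S), ∃ v ∈ S ∪ T c W S, w = R.φ k * v * (R.φ k)⁻¹}
  let W' : Set G := {w | ∃ k ∈ R.K (S ∪ T c W S), ∃ y ∈ Z c W S, w = R.φ k * y}
  have hsub : S ∪ T c W S ⊆ S' := fun v hv => ⟨1, one_mem _, v, hv, by simp⟩
  have hK : R.K S' = R.K (S ∪ T c W S) := by
    apply le_antisymm _ (Subgroup.closure_mono (Set.image_mono hsub))
    rw [Subgroup.closure_le]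
    rintro _ ⟨_, ⟨k, hk, v, hv, rfl⟩, rfl⟩
    rw [R.hconj _ _ (hin v hv)]
    exact mul_mem (mul_mem hk (Subgroup.subset_closure ⟨v, hv, rfl⟩)) (inv_mem hk)
  have hZ : ∀ y ∈ Z c W S, y ∈ W' := fun y hy => ⟨1, one_mem _, y, hy, by simp⟩
  refine ⟨W', S', ⟨?_, hZ x (Or.inl (mem_U h.hx)), ?_, ?_, ?_, ?_, ?_⟩,
    fun y hy => hZ y (Or.inl hy), hsub⟩
  · rintro _ ⟨k, -, v, hv, rfl⟩
    exact (hin v hv).conj _
  · rintro g hg _ ⟨k, hk, y, hy, rfl⟩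
    exact ⟨g * k, mul_mem (hK ▸ hg) hk, y, hy, by simp [mul_assoc]⟩
  · rintro g hg _ ⟨k, hk, y, hy, rfl⟩
    exact ⟨g * k, mul_mem (hK ▸ hg) hk, y, hy, by simp [mul_assoc]⟩
  · rintro v hv hvS _ ⟨k, hk, y, hy, rfl⟩ _ ⟨k', hk', y', hy', rfl⟩
    obtain ⟨m, hm⟩ := hv
    obtain ⟨g, hg, hgate⟩ := h.gate m
    have hm' : c.Y ((R.φ g)⁻¹ * v * R.φ g) ((R.φ g)⁻¹ * m) := by
      rw [← Ctx.Y_mul]; simpa using hm
    have hbad : (R.φ g)⁻¹ * v * R.φ g ∉ S ∪ T c W S := fun hc =>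
      hvS ⟨g, hg, _, hc, by simp [mul_assoc]⟩
    have key : ∀ k ∈ R.K (S ∪ T c W S), ∀ y ∈ Z c W S, ∃ q ∈ Z c W S,
        c.D ((R.φ g)⁻¹ * v * R.φ g) (R.φ k * y) q ≤ 4400 := by
      intro k hk y hy
      rcases hgate k hk y hy with h1 | ⟨t, ht, h1⟩
      · exact ⟨_, h1, by simp [Ctx.D]⟩
      · obtain ⟨z, hz⟩ := T_in ht
        rw [Ctx.D_comm] at h1
        exact ⟨z, Or.inr ⟨t, ht, hz⟩, Ctx.In.behr hm' hz (by rintro rfl; exact hbad (Or.inr ht)) h1⟩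
    obtain ⟨q, q1, q2⟩ := key _ (mul_mem (inv_mem hg) hk) y hy
    obtain ⟨q', q3, q4⟩ := key _ (mul_mem (inv_mem hg) hk') y' hy'
    have := h.DZ hm'.In (fun hc => hbad (Or.inl hc)) (fun hc => hbad (Or.inr hc)) q1 q3
    have e : c.D v (R.φ k * y) (R.φ k' * y') =
        c.D ((R.φ g)⁻¹ * v * R.φ g) (R.φ (g⁻¹ * k) * y) (R.φ (g⁻¹ * k') * y') := by
      rw [← Ctx.D_mul]; simp [mul_assoc]
    rw [e]
    generalize (R.φ g)⁻¹ * v * R.φ g = v' at *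
    have := Ctx.D_tri (c := c) v' (R.φ (g⁻¹ * k) * y) q (R.φ (g⁻¹ * k') * y')
    have := Ctx.D_tri (c := c) v' q q' (R.φ (g⁻¹ * k') * y')
    have := Ctx.D_comm (c := c) v' q' (R.φ (g⁻¹ * k') * y')
    omega
  · rintro _ ⟨k, hk, y, hy, rfl⟩ _ ⟨k', hk', y', hy', rfl⟩ m hm
    obtain ⟨g, hg, hgate⟩ := h.gate m
    have key : ∀ k ∈ R.K (S ∪ T c W S), ∀ y ∈ Z c W S, ∃ q ∈ Z c W S,
        c.X.d ((R.φ g)⁻¹ * m) q + c.X.d q (R.φ k * y) ≤ c.X.d ((R.φ g)⁻¹ * m) (R.φ k * y) + 172 := by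
      intro k hk y hy
      rcases hgate k hk y hy with h1 | ⟨t, ht, h1⟩
      · exact ⟨_, h1, by simp⟩
      · exact ⟨_, Or.inr ⟨t, ht, (T_in ht).π_Y _⟩, ((T_in ht).btw (by omega)).1⟩
    obtain ⟨q, q1, q2⟩ := key _ (mul_mem (inv_mem hg) hk) y hy
    obtain ⟨q', q3, q4⟩ := key _ (mul_mem (inv_mem hg) hk') y' hy'
    have hm' : c.X.d (R.φ (g⁻¹ * k) * y) ((R.φ g)⁻¹ * m) + c.X.d ((R.φ g)⁻¹ * m) (R.φ (g⁻¹ * k') * y')
        = c.X.d (R.φ (g⁻¹ * k) * y) (R.φ (g⁻¹ * k') * y') := by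
      simpa only [map_mul, map_inv, mul_assoc, Nm.d_mul] using hm
    obtain ⟨w, w1, w2⟩ := h.qcZ (z := (R.φ g)⁻¹ * m) (k := 344) q1 q3 (by
      generalize (R.φ g)⁻¹ * m = m' at *
      generalize R.φ (g⁻¹ * k) * y = a at *
      generalize R.φ (g⁻¹ * k') * y' = b at *
      have := c.X.tri' a q b
      have := c.X.tri q q' b
      have := c.X.comm a m'
      have := c.X.comm q m'
      omega)
    exact ⟨R.φ g * w, ⟨g, hg, w, w1, rfl⟩, by rwa [c.X.d_inv_left] at w2⟩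
  · intro k hk hk1
    rw [hK] at hk
    rcases h.normal hk with h1 | ⟨t, h1⟩
    · exact h.green k h1 hk1
    · rcases h.big h1 (y'' := x) (Or.inl (mem_U h.hx)) with ⟨-, h2⟩ | h2
      · exact absurd (mem_U h.hx) h2
      · exact ⟨t, T_in h1.inv.1, h2 x (Or.inl (mem_U h.hx))⟩

theorem exists_inv (R : Rot c A) (x : G) (i : ℕ) : ∃ W S, R.Inv x W S ∧
    (∀ y, c.X.d x y ≤ i → y ∈ W) ∧ ∀ v y, c.Y v y → c.X.d x y < i → v ∈ S := by
  induction i with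
  | zero =>
    have hK : ∀ k ∈ R.K ∅, k = 1 := by
      intro k hk; simpa [K] using hk
    refine ⟨{x}, ∅, ⟨by simp, rfl, ?_, by simp, ?_, ?_, ?_⟩, ?_, by simp⟩
    · intro k hk w hw; simpa [hK k hk] using hw
    · rintro v - - _ rfl _ rfl; simp [Ctx.D]
    · rintro _ rfl _ rfl m hm
      rw [Nm.d_self] at hm
      exact ⟨_, rfl, by omega⟩
    · intro k hk h1; exact absurd (hK k hk) h1
    · intro y hy; exact (c.X.eq_of_d (Nat.le_zero.1 hy)).symm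
  | succ i ih =>
    obtain ⟨W, S, h, h1, h2⟩ := ih
    obtain ⟨W', S', h', h3, h4⟩ := h.step
    refine ⟨W', S', h', fun y hy => h3 ?_, fun v y hy hd => h4 ?_⟩
    · obtain ⟨w, w1, w2⟩ := c.X.split_d x y i 1 hy
      exact ⟨w, h1 w w1, by rw [c.X.comm]; omega⟩
    · by_cases hv : v ∈ S
      · exact Or.inl hv
      · exact Or.inr ⟨hv, y, mem_U (h1 y (by omega)), hy⟩

/-- Greendlinger type lemma -/
theorem green (R : Rot c A) (x : G) {k : A} (hk : k ∈ R.K {v | c.In v}) (hk1 : k ≠ 1) :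
    ∃ v, c.In v ∧ R.N v ≤ (c.s v x (R.φ k * x)).natAbs + 32000 * E := by
  have mono : ∀ i j : ℕ, i ≤ j → R.K {v | ∃ y, c.Y v y ∧ c.X.d x y < i} ≤
      R.K {v | ∃ y, c.Y v y ∧ c.X.d x y < j} := by
    intro i j hij
    apply Subgroup.closure_mono (Set.image_mono _)
    rintro v ⟨y, h1, h2⟩
    exact ⟨y, h1, by omega⟩
  obtain ⟨i, hi⟩ : ∃ i : ℕ, k ∈ R.K {v | ∃ y, c.Y v y ∧ c.X.d x y < i} := by
    clear hk1
    induction hk using Subgroup.closure_induction with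
    | mem _ hg =>
      obtain ⟨v, ⟨y, hy⟩, rfl⟩ := hg
      exact ⟨_, Subgroup.subset_closure ⟨v, ⟨y, hy, Nat.lt_succ_self _⟩, rfl⟩⟩
    | one => exact ⟨0, one_mem _⟩
    | mul a b _ _ iha ihb =>
      obtain ⟨i, hi⟩ := iha
      obtain ⟨j, hj⟩ := ihb
      exact ⟨max i j, mul_mem (mono _ _ (le_max_left _ _) hi) (mono _ _ (le_max_right _ _) hj)⟩
    | inv a _ iha =>
      obtain ⟨i, hi⟩ := iha
      exact ⟨i, inv_mem hi⟩
  obtain ⟨W, S, h, -, h2⟩ := R.exists_inv x i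
  refine h.green k (Subgroup.closure_mono (Set.image_mono ?_) hi) hk1
  rintro v ⟨y, h3, h4⟩
  exact h2 v y h3 h4

end Rot

end Pool.Agent.Burnside6
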