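import Pool.Agent.Burnside6.Ell
import Pool.Agent.Burnside6.Green

set_option autoImplicit false

namespace Pool.Agent.Burnside6

variable {G : Type} [Group G] {E n : ℕ}

namespace Kill

variable {c : Ctx G E n} (κ : Kill c)

theorem mk_ell {g : G} (h : c.EllS g) : (g : G ⧸ κ.K) ^ n = 1 := by
  rcases h with h | ⟨w, hw, j, rfl⟩
  · rw [← QuotientGroup.mk_pow, h]; rfl
  · obtain ⟨k, hk⟩ := κ.hNn w hw
    rw [← QuotientGroup.mk_pow, QuotientGroup.eq_one_iff, ← zpow_natCast, ← zpow_mul, mul_comm,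
      zpow_mul, zpow_natCast]
    apply zpow_mem
    conv => enter [2, 2]; rw [hk]
    rw [pow_mul]
    exact pow_mem (κ.hK w hw) _

theorem lift_ell {q : G ⧸ κ.K} (h : q ^ n = 1) : ∃ g : G, (g : G ⧸ κ.K) = q ∧ c.EllS g := by
  rcases κ.classify q with h1 | h1
  · exact h1
  · rw [κ.Q.tau_eq_zero c.st.odd.pos h] at h1; norm_num at h1

omit κ in
theorem root_ell {e : G} (h : c.EllS e) (h1 : e ≠ 1) : ∃ w : G, (∀ i : ℤ, c.EllS (w ^ i)) ∧
    ∀ g, Commute g e → g ∈ Subgroup.zpowers w := by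
  rcases h with h | ⟨w, hw, j, rfl⟩
  · obtain ⟨w, h2, h3⟩ := c.st.ell e h1 h
    refine ⟨w, fun i => Or.inl ?_, h3⟩
    rw [← zpow_natCast, ← zpow_mul, mul_comm, zpow_mul, zpow_natCast, h2, one_zpow]
  · refine ⟨w, fun i => Or.inr ⟨w, hw, i, rfl⟩, fun g hg => ?_⟩
    obtain ⟨i, hi⟩ := hw.cent (c.st.csaa _ g w h1 hg ((Commute.refl w).zpow_right j))
    exact ⟨i, hi.symm⟩

theorem cent_lift {e : G} (h : c.EllS e) (h1 : (e : G ⧸ κ.K) ≠ 1) {q : G ⧸ κ.K}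
    (hq : Commute q e) : ∃ g : G, (g : G ⧸ κ.K) = q ∧ Commute g e := by
  obtain ⟨g, rfl⟩ := QuotientGroup.mk_surjective q
  obtain ⟨k, hk, h2⟩ := κ.el0 h (h.conj g) (by
    rw [QuotientGroup.mk_mul, QuotientGroup.mk_mul, hq.eq]; simp) h1
  refine ⟨k * g, κ.mk_K hk g, c.st.csab _ _ ?_⟩
  simpa [mul_assoc] using h2

theorem Q_ell (e : G ⧸ κ.K) (h1 : e ≠ 1) (h : e ^ n = 1) :
    ∃ w : G ⧸ κ.K, w ^ n = 1 ∧ ∀ g, Commute g e → g ∈ Subgroup.zpowers w := by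
  obtain ⟨e, rfl, he⟩ := κ.lift_ell h
  obtain ⟨w, h2, h3⟩ := root_ell he (by rintro rfl; exact h1 rfl)
  refine ⟨w, κ.mk_ell (by simpa using h2 1), fun g hg => ?_⟩
  obtain ⟨g, rfl, h4⟩ := κ.cent_lift he h1 hg
  obtain ⟨i, rfl⟩ := h3 g h4
  exact ⟨i, rfl⟩

theorem Q_h2 (q : G ⧸ κ.K) : q ^ n = 1 ∨ 1 ≤ 6000000 * κ.Q.τ q := by
  rcases κ.classify q with ⟨g, rfl, h⟩ | h
  · exact Or.inl (κ.mk_ell h)
  · exact Or.inr h

theorem Q_h2' (q : G ⧸ κ.K) : q ^ n = 1 ∨ 0 < κ.Q.τ q :=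
  (κ.Q_h2 q).imp id (fun h => by linarith)

theorem Q_he (e g : G ⧸ κ.K) (h1 : e ≠ 1) (h2 : e ^ n = 1) (h3 : Commute e g) : g ^ n = 1 := by
  obtain ⟨w, hw, hw'⟩ := κ.Q_ell e h1 h2
  obtain ⟨j, rfl⟩ := hw' g h3.symm
  simp only
  rw [← zpow_natCast, ← zpow_mul, mul_comm, zpow_mul, zpow_natCast, hw, one_zpow]

theorem Q_csaa : CSAa (G ⧸ κ.K) := by
  intro g a b h1 ha hb
  rcases κ.Q_h2' g with h | h
  · obtain ⟨w, -, hw⟩ := κ.Q_ell g h1 h
    obtain ⟨i, rfl⟩ := hw a ha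
    obtain ⟨j, rfl⟩ := hw b hb
    exact (Commute.refl w).zpow_zpow i j
  · exact κ.Q_fp.csa_lox_a c.st.odd κ.Q_h2' κ.Q_he κ.Q_h4 (by norm_num) h ha hb

theorem Q_csab : CSAb (G ⧸ κ.K) := by
  intro g x hx
  by_cases h1 : g = 1
  · simp [h1]
  rcases κ.Q_h2' g with h | h
  · obtain ⟨e, rfl, he⟩ := κ.lift_ell h
    obtain ⟨x, rfl⟩ := QuotientGroup.mk_surjective x
    have e1 : e ≠ 1 := by rintro rfl; exact h1 rfl
    obtain ⟨w, h2, h3⟩ := root_ell he e1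
    obtain ⟨e₂, h4, h5⟩ := κ.cent_lift he h1 hx
    obtain ⟨i, hi⟩ := h3 e₂ h5
    simp only at hi
    have h6 : (e₂ : G ⧸ κ.K) ≠ 1 := by rw [h4]; simpa using h1
    obtain ⟨k, hk, h7⟩ := κ.el0 (hi ▸ h2 i) (he.conj x) h4.symm h6
    have h8 := c.st.csaa e₂ _ e (by rintro rfl; exact h6 rfl) h7 h5.symm
    have h9 : Commute (k * x) e := c.st.csab _ _ (by simpa [mul_assoc] using h8)
    have := h9.map (QuotientGroup.mk' κ.K)
    rwa [QuotientGroup.mk'_apply, κ.mk_K hk] at this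
  · exact κ.Q_fp.csa_lox_b c.st.odd κ.Q_h2' κ.Q_he h h (Commute.refl g) hx hx

theorem Q_h4p (L : ℕ) : κ.Q.H4 L (1430000 + 10 * L) :=
  (κ.Q_fp.h4plus κ.Q_h4 (by norm_num) κ.Q_csaa κ.Q_csab L).mono le_rfl (by omega)

theorem stage {R E' : ℕ} (hR0 : 0 < R) (hR : 1000000 ≤ R) (hE : 6000000 * R ≤ E') :
    Stage (κ.Q.scale R hR0) E' n := by
  refine ⟨κ.Q_fp.scale hR0 (by omega), c.st.odd, fun g => (κ.Q_h2 g).imp id fun h => ?_,
    κ.Q_ell, κ.Q_csaa, κ.Q_csab, ?_⟩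
  · rw [← κ.Q.tau_scale R hR0] at h
    have h1 : (6000000 * R : ℝ) ≤ E' := by exact_mod_cast hE
    have := (κ.Q.scale R hR0).tau_nonneg g
    nlinarith
  · intro u₁ u₂ p q h1 h2 h3 h4 h5
    rw [Nm.scale_d_le] at h1 h2 h3 h4
    refine κ.Q_h4p _ u₁ u₂ p q h1 h2 h3 h4 ?_
    have := (κ.Q.scale_d_le R hR0 p q 309).not.1 (by omega)
    omega

theorem mk_short {g : G} (h : c.X.ν g ≤ 1) : (g : G ⧸ κ.K) ^ n = 1 := by
  apply κ.mk_ell
  rcases c.full g with h1 | ⟨u, hu, y, j, h1⟩ | h1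
  · exact Or.inl h1
  · exact Or.inr ⟨y * u * y⁻¹, ⟨y, by simpa [Ctx.Y, mul_assoc] using hu⟩, j, h1.symm⟩
  · have := c.X.tau_le_nu g 1
    have h2 : (c.X.ν g : ℝ) ≤ 1 := by exact_mod_cast h
    simp at this; linarith

theorem Q_le_X (x y : G) : κ.Q.d (x : G ⧸ κ.K) y ≤ c.X.d x y := (κ.Q_le x y).trans (c.H_le x y)

end Kill

section lifts

variable {A : Type} [Group A] (c : Ctx G E n) (φ : A →* G) (hφ : Function.Surjective φ)

/-- equivariant lift -/
noncomputable def eqLift (v : G) : A :=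
  Function.surjInv hφ (Classical.epsilon (c.Y v)) *
    Function.surjInv hφ ((Classical.epsilon (c.Y v))⁻¹ * v * Classical.epsilon (c.Y v)) *
    (Function.surjInv hφ (Classical.epsilon (c.Y v)))⁻¹

theorem eqLift_map (v : G) : φ (eqLift c φ hφ v) = v := by
  simp [eqLift, Function.surjInv_eq hφ, mul_assoc]

theorem eqLift_eq (hc : ∀ a b : A, φ a = 1 → Commute a b) {v : G} {a : A} (h : c.Y v (φ a)) :
    eqLift c φ hφ v = a * Function.surjInv hφ ((φ a)⁻¹ * v * φ a) * a⁻¹ := by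
  have h1 : c.Y v (Classical.epsilon (c.Y v)) := Classical.epsilon_spec ⟨_, h⟩
  obtain ⟨j, hj⟩ := h.ex h1
  unfold eqLift
  have e1 : (Classical.epsilon (c.Y v))⁻¹ * v * Classical.epsilon (c.Y v) = (φ a)⁻¹ * v * φ a := by
    rw [hj]; group
  rw [e1]
  have e2 := Function.surjInv_eq hφ ((φ a)⁻¹ * v * φ a)
  have e3 := Function.surjInv_eq hφ (Classical.epsilon (c.Y v))
  generalize Function.surjInv hφ ((φ a)⁻¹ * v * φ a) = u at *
  generalize Function.surjInv hφ (Classical.epsilon (c.Y v)) = b at *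
  have e4 := hc ((u ^ j)⁻¹ * a⁻¹ * b) u (by
    simp only [map_mul, map_inv, map_zpow, e2, e3, hj, conj_zpow']; group)
  calc b * u * b⁻¹ = a * u ^ j * ((u ^ j)⁻¹ * a⁻¹ * b * u) * b⁻¹ := by group
    _ = _ := by rw [e4.eq]; group

theorem eqLift_conj (hc : ∀ a b : A, φ a = 1 → Commute a b) {v : G} (hv : c.In v) (a : A) :
    eqLift c φ hφ (φ a * v * (φ a)⁻¹) = a * eqLift c φ hφ v * a⁻¹ := by
  obtain ⟨y, hy⟩ := hv
  obtain ⟨b, rfl⟩ := hφ y
  rw [eqLift_eq c φ hφ hc hy, eqLift_eq c φ hφ hc (a := a * b) (by rw [map_mul]; exact Ctx.Y_conj.2 hy)]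
  simp [mul_assoc]

end lifts

/-- global parameters of the construction -/
structure Par (C B : Type) [CommGroup C] [CommGroup B] where
  E : ℕ
  n : ℕ
  R : ℕ
  Nf : ℝ → ℕ
  z₀ : C
  α : FreeGroup ℕ →* B
  odd : Odd n
  hR : 1000000 ≤ R
  hE : 6000000 * R ≤ E
  hN : ∀ t, 100000000000000 * E ≤ Nf t
  hNn : ∀ t, Nf t ∣ n
  hC : ∀ t (j : ℤ) (z : C), z₀ ^ j * z ^ Nf t = 1 → (Nf t : ℤ) ∣ j
  tf : ∀ (z : C) (m : ℕ), m ≠ 0 → z ^ m = 1 → z = 1
  hB : ∀ t (b : B), b ^ Nf t = 1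

variable {C B : Type} [CommGroup C] [CommGroup B]

/-- one stage of the tower -/
structure St (p : Par C B) where
  A : Type
  G : Type
  [gA : Group A]
  [gG : Group G]
  X : Nm G
  st : Stage X p.E p.n
  ψ : FreeGroup ℕ × C →* A
  φ : A →* G
  β : G →* B
  sψ : Function.Surjective ψ
  sφ : Function.Surjective φ
  ker : ∀ a, φ a = 1 ↔ ∃ z, a = ψ (1, z)
  inj : ∀ z, ψ (1, z) = 1 → z = 1
  tf : ∀ (a : A) (m : ℕ), m ≠ 0 → a ^ m = 1 → a = 1
  ab : ∀ γ, β (φ (ψ γ)) = p.α γ.1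

attribute [instance] St.gA St.gG

namespace St

variable {p : Par C B} (s : St p)

theorem central (a b : s.A) (h : s.φ a = 1) : Commute a b := by
  obtain ⟨z, rfl⟩ := (s.ker a).1 h
  obtain ⟨γ, rfl⟩ := s.sψ b
  apply Commute.map
  exact Prod.ext (by simp) (mul_comm _ _)

noncomputable def ctx : Ctx s.G p.E p.n := { s.st.exists_ctx.choose with
  X := s.X
  st := s.st
  pos := by have := s.st.exists_ctx.choose.pos; rwa [s.st.exists_ctx.choose_spec] at this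
  le := by have := s.st.exists_ctx.choose.le; rwa [s.st.exists_ctx.choose_spec] at this
  good := by have := s.st.exists_ctx.choose.good; rwa [s.st.exists_ctx.choose_spec] at this
  full := by have := s.st.exists_ctx.choose.full; rwa [s.st.exists_ctx.choose_spec] at this }

noncomputable def rot : Rot s.ctx s.A where
  φ := s.φ
  ρ v := eqLift s.ctx s.φ s.sφ v ^ p.Nf (s.X.τ v) * (s.ψ (1, p.z₀))⁻¹
  N v := p.Nf (s.X.τ v)
  hρ v _ := by
    rw [map_mul, map_pow, eqLift_map, map_inv, (s.ker _).2 ⟨_, rfl⟩]; simp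
  hconj v a hv := by
    rw [eqLift_conj _ _ _ s.central hv, s.X.tau_conj, conj_pow]
    have := (s.central _ a⁻¹ ((s.ker _).2 ⟨p.z₀, rfl⟩)).inv_left.eq
    simp only [mul_assoc]
    rw [this]
  hN v _ := by have := p.hN (s.X.τ v); omega

noncomputable def KA : Subgroup s.A := s.rot.K {v | s.ctx.In v}

instance : s.KA.Normal := by
  constructor
  intro k hk a
  induction hk using Subgroup.closure_induction with
  | mem _ h =>
    obtain ⟨v, hv, rfl⟩ := h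
    exact Subgroup.subset_closure ⟨_, Ctx.In.conj hv (s.φ a), s.rot.hconj v a hv⟩
  | one => simp
  | mul x y _ _ h1 h2 => simpa [mul_assoc] using mul_mem h1 h2
  | inv x _ h1 => simpa [mul_assoc] using inv_mem h1

noncomputable def kill : Kill s.ctx where
  N v := p.Nf (s.X.τ v)
  K := s.KA.map s.φ
  normal := Subgroup.Normal.map inferInstance _ s.sφ
  hK v hv := ⟨_, Subgroup.subset_closure ⟨v, hv, rfl⟩, s.rot.hρ v hv⟩
  green := by
    rintro _ ⟨k, hk, rfl⟩ h1 x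
    exact s.rot.green x hk (by rintro rfl; exact h1 (map_one _))
  hN v _ := p.hN _
  hNc v g _ := by rw [s.X.tau_conj']
  hNn v _ := p.hNn _

theorem KA_ker {k : s.A} (hk : k ∈ s.KA) (h : s.φ k = 1) : k = 1 := by
  by_contra h1
  obtain ⟨v, hv, h2⟩ := s.rot.green 1 hk h1
  have h3 : s.rot.φ k = 1 := h
  rw [h3, mul_one, hv.s_self] at h2
  have := s.rot.hN v hv
  have := Kill.E_pos hv
  omega

theorem R_pos (p : Par C B) : 0 < p.R := by have := p.hR; omega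

noncomputable def next : St p where
  A := s.A ⧸ s.KA
  G := s.G ⧸ s.kill.K
  X := s.kill.Q.scale p.R (R_pos p)
  st := s.kill.stage _ p.hR p.hE
  ψ := (QuotientGroup.mk' _).comp s.ψ
  φ := QuotientGroup.map _ _ s.φ (fun k hk => ⟨k, hk, rfl⟩)
  β := QuotientGroup.lift _ s.β (by
    rintro _ ⟨k, hk, rfl⟩
    induction hk using Subgroup.closure_induction with
    | mem _ h =>
      obtain ⟨v, hv, rfl⟩ := h
      have := s.rot.hρ v hv
      change s.φ _ = _ at this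
      rw [MonoidHom.mem_ker, this, map_pow]
      exact p.hB _ _
    | one => simp
    | mul x y _ _ h1 h2 => simpa using mul_mem h1 h2
    | inv x _ h1 => simpa using inv_mem h1)
  sψ := (QuotientGroup.mk'_surjective _).comp s.sψ
  sφ := by
    intro q
    obtain ⟨g, rfl⟩ := QuotientGroup.mk_surjective q
    obtain ⟨a, rfl⟩ := s.sφ g
    exact ⟨a, rfl⟩
  ker := by
    intro a
    obtain ⟨a, rfl⟩ := QuotientGroup.mk_surjective a
    change ((s.φ a : s.G) : s.G ⧸ s.kill.K) = 1 ↔ _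
    rw [QuotientGroup.eq_one_iff]
    constructor
    · rintro ⟨k, hk, h⟩
      obtain ⟨z, hz⟩ := (s.ker (k⁻¹ * a)).1 (by simp [h])
      refine ⟨z, ?_⟩
      change _ = ((s.ψ (1, z) : s.A) : s.A ⧸ s.KA)
      rw [← hz, QuotientGroup.mk_mul, (QuotientGroup.eq_one_iff _).2 (inv_mem hk), one_mul]
    · rintro ⟨z, hz⟩
      change _ = ((s.ψ (1, z) : s.A) : s.A ⧸ s.KA) at hz
      refine ⟨_, QuotientGroup.eq.1 hz.symm, ?_⟩
      rw [map_mul, map_inv, (s.ker _).2 ⟨z, rfl⟩]; simp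
  inj z hz := s.inj z (s.KA_ker ((QuotientGroup.eq_one_iff _).1 hz) ((s.ker _).2 ⟨z, rfl⟩))
  tf := by
    intro a m hm ha
    obtain ⟨a, rfl⟩ := QuotientGroup.mk_surjective a
    have h1 : ((s.φ a : s.G) : s.G ⧸ s.kill.K) ^ m = 1 := by
      rw [← QuotientGroup.mk_pow, ← map_pow, QuotientGroup.eq_one_iff]
      exact ⟨_, (QuotientGroup.eq_one_iff _).1 ha, rfl⟩
    have h2 : ((s.φ a : s.G) : s.G ⧸ s.kill.K) ^ p.n = 1 := by
      rcases s.kill.Q_h2' (s.φ a) with h | h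
      · exact h
      · rw [s.kill.Q.tau_eq_zero (Nat.pos_of_ne_zero hm) h1] at h; exact absurd h (lt_irrefl _)
    obtain ⟨g, h3, h4⟩ := s.kill.lift_ell h2
    obtain ⟨k, hk, h5⟩ := s.kill.mem_of_eq h3
    have h6 : s.φ (k * a) = g := by rw [map_mul, h5]; simp
    have h7 : ((k * a : s.A) : s.A ⧸ s.KA) = a := by
      rw [QuotientGroup.mk_mul, (QuotientGroup.eq_one_iff _).2 hk, one_mul]
    rw [← h7] at ha ⊢
    generalize k * a = b at *
    have hb : b ^ m ∈ s.KA := (QuotientGroup.eq_one_iff _).1 ha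
    rw [QuotientGroup.eq_one_iff]
    rcases h4 with h4 | ⟨w, hw, j, h4⟩
    · have := s.KA_ker (pow_mem hb p.n) (by
        rw [← pow_mul, mul_comm, pow_mul, map_pow, map_pow, h6, h4, one_pow])
      rw [← pow_mul] at this
      rw [s.tf b _ (mul_ne_zero hm p.odd.pos.ne') this]
      exact one_mem _
    · have hρ : s.rot.ρ w ∈ s.KA := Subgroup.subset_closure ⟨w, hw, rfl⟩
      change eqLift s.ctx s.φ s.sφ w ^ p.Nf (s.X.τ w) * (s.ψ (1, p.z₀))⁻¹ ∈ _ at hρ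
      have hL := eqLift_map s.ctx s.φ s.sφ w
      generalize eqLift s.ctx s.φ s.sφ w = L at *
      have hC := p.hC (s.X.τ w)
      generalize p.Nf (s.X.τ w) = N at *
      obtain ⟨z, hz⟩ := (s.ker ((L ^ j)⁻¹ * b)).1 (by simp [h6, h4, hL])
      let ι : C →* s.A := s.ψ.comp (MonoidHom.inr _ _)
      have hι : ∀ z a, Commute (ι z) a := fun z a => s.central _ _ ((s.ker _).2 ⟨z, rfl⟩)
      change _ = ι z at hz
      change L ^ N * (ι p.z₀)⁻¹ ∈ _ at hρ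
      have e1 : b = L ^ j * ι z := by rw [← hz]; simp
      have e2 : b ^ N = (L ^ N * (ι p.z₀)⁻¹) ^ j * ι (p.z₀ ^ j * z ^ N) := by
        rw [e1, (hι z _).symm.mul_pow, (hι p.z₀ _).symm.inv_right.mul_zpow, map_mul, map_zpow, map_pow,
          ← zpow_natCast (L ^ j), ← zpow_natCast L, ← zpow_mul, ← zpow_mul, mul_comm j]
        group
      have e3 : ι ((p.z₀ ^ j * z ^ N) ^ m) ∈ s.KA := by
        have h8 := pow_mem hb N
        rw [← pow_mul, mul_comm, pow_mul, e2, (hι _ _).symm.mul_pow, ← map_pow] at h8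
        simpa using mul_mem (inv_mem (pow_mem (zpow_mem hρ j) m)) h8
      have e4 := p.tf _ m hm (s.inj _ (s.KA_ker e3 ((s.ker _).2 ⟨_, rfl⟩)))
      obtain ⟨j', rfl⟩ := hC j z e4
      have hN0 : N ≠ 0 := by
        rintro rfl
        have := hC 1 1
        have h9 := s.KA_ker hρ (by simp [ι, (s.ker _).2 ⟨p.z₀, rfl⟩])
        simp only [pow_zero, one_mul, inv_eq_one] at h9
        have := this (by simpa using s.inj _ h9)
        simp at this
      have e5 : p.z₀ ^ j' * z = 1 := p.tf _ N hN0 (by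
        rw [mul_pow, ← e4, ← zpow_natCast, ← zpow_mul, mul_comm j'])
      have e6 : b = (L ^ N * (ι p.z₀)⁻¹) ^ j' := by
        rw [e1, (hι p.z₀ _).symm.inv_right.mul_zpow, eq_inv_of_mul_eq_one_right e5, zpow_mul]
        simp
      rw [e6]
      exact zpow_mem hρ _
  ab γ := s.ab γ

end St

end Pool.Agent.Burnside6
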