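import Pool.Agent.Burnside6.Pump
import Pool.Agent.Burnside6.Step

set_option autoImplicit false

namespace Pool.Agent.Burnside6

variable {G : Type} [Group G] {E n : ℕ}

namespace Kill

variable {c : Ctx G E n} {κ : Kill c}

theorem Ctr.inv' {e : G} {Φ : Set G} (h : κ.Ctr e Φ) : κ.Ctr e⁻¹ Φ := by
  have hi : ∀ z, e⁻¹ * z ∈ Φ ↔ z ∈ Φ := fun z => by rw [← h.inv]; simp
  refine ⟨h.ne, hi, fun v hv => ?_⟩
  rcases h.alt v hv with ⟨h1, j, h2, h3⟩ | ⟨h1, h2⟩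
  · exact Or.inl ⟨h1, -j, by simp [h2], by simpa using h3⟩
  · refine Or.inr ⟨by simpa using h1, fun z hz => ?_⟩
    have := h2 _ ((hi z).2 hz)
    rw [Ctx.D_comm]; simpa using this

theorem ctr_ell' (κ : Kill c) {e : G} (h1 : e ≠ 1) (h2 : e ^ n = 1) :
    κ.Ctr e {z | c.X.d z (e * z) ≤ 11} := by
  obtain ⟨z, hz⟩ := c.fp.ell_fix (c.X.tau_eq_zero c.st.odd.pos h2)
  refine ⟨⟨z, hz.trans (by norm_num)⟩, fun z => ?_, fun v hv => Or.inr ⟨?_, ?_⟩⟩
  · simp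
  · intro hc
    have := c.X.tau_eq_zero c.st.odd.pos (c.st.he e v h1 h2 hc)
    linarith [hv.pos]
  · intro z hz
    have := hv.lip z (e * z)
    rw [Set.mem_ofPred_eq] at hz
    omega

theorem near_D {w x y : G} (hy : c.Y w y) (hm : ∀ z, c.Y w z → c.X.d x y ≤ c.X.d x z) :
    c.D w y x ≤ 85 := by
  have := hy.Pa x
  have := hm _ (hy.In.π_Y x)
  have := c.X.comm y (c.π w x)
  unfold Ctx.D; rw [hy.π_eq]; omega

theorem Ctr.step_bound {e : G} {Φ : Set G} (h : κ.Ctr e Φ) {x y : G} (hy : y ∈ Φ)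
    (hm : ∀ z ∈ Φ, c.X.d x y ≤ c.X.d x z)
    (hs : ∀ w, c.In w → 2 * (c.s w y x).natAbs < κ.N w + 1200 * E) {w : G} (hw : c.In w) :
    2 * (c.s w y (e * x)).natAbs ≤ κ.N w + 9200 * E := by
  rcases h.alt w hw with ⟨h1, j, rfl, h3⟩ | ⟨-, h2⟩
  · have := hw.s_le (near_D ((h1 y).1 hy) (fun z hz => hm z ((h1 z).2 hz)))
    rw [hw.s_zpow]; omega
  · have := hw.s_le (h2 y hy)
    have := hw.s_add y (e * y) (e * x)
    have := hw.s_mul e y x
    have := hs _ (hw.conj' e)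
    have := κ.hNc w e hw
    omega

theorem no_two {e f : G} {Φ Ψ : Set G} (he : κ.Ctr e Φ) (hf : κ.Ctr f Ψ) {y x : G} (hy : y ∈ Φ)
    (hx : x ∈ Ψ) (hm : ∀ z ∈ Φ, ∀ z' ∈ Ψ, c.X.d y x ≤ c.X.d z z') (hc : ¬ Commute e f) {w : G}
    (hw : c.In w) (h1 : 21344 < c.D w (f * x) y) (h2 : 21344 < c.D w y (e * x)) : False := by
  have hm1 : ∀ z ∈ Φ, c.X.d x y ≤ c.X.d x z := fun z hz => by
    rw [c.X.comm x y, c.X.comm x z]; exact hm z hz x hx
  have t1 := Ctx.D_tri (c := c) w (f * x) x y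
  have t2 := Ctx.D_tri (c := c) w y (e * y) (e * x)
  have := Ctx.D_comm (c := c) w (f * x) x
  have := Ctx.D_comm (c := c) w y x
  have := Ctx.D_mul (c := c) w e y x
  have := Ctx.D_comm (c := c) (e⁻¹ * w * e) y x
  rcases he.alt w hw with ⟨a1, j, a2, -⟩ | ⟨a1, a2⟩
  · rcases hf.alt w hw with ⟨-, j', b2, -⟩ | ⟨-, b2⟩
    · exact hc (by rw [a2, b2]; exact (Commute.refl w).zpow_zpow _ _)
    · have := near_D ((a1 y).1 hy) (fun z hz => hm1 z ((a1 z).2 hz))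
      have := b2 x hx
      omega
  · have := a2 y hy
    rcases hf.alt w hw with ⟨b1, -⟩ | ⟨-, b2⟩
    · have := (hw.conj' e).Pb (x := y) (y := x) (by omega)
      have := hm _ ((he.inv y).2 hy) _ ((b1 _).2 (hw.π_Y (e * y)))
      rw [Ctx.dπ_mul] at this
      omega
    · have := b2 x hx
      exact he.twin hy hm1 hw a1 (by omega) (by omega)

theorem chain_s (κ : Kill c) {q : ℕ → G}
    (hb : ∀ i, c.X.d (q i) (q (i + 1)) + c.X.d (q (i + 1)) (q (i + 2)) ≤ c.X.d (q i) (q (i + 2)) + 8400)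
    (hs : ∀ i, 39000 ≤ c.X.d (q i) (q (i + 1))) {w : G} (hw : c.In w)
    (hS : ∀ i, 2 * (c.s w (q i) (q (i + 1))).natAbs ≤ κ.N w + 9200 * E)
    (hT : ∀ i, 21344 < c.D w (q i) (q (i + 1)) → 21344 < c.D w (q (i + 1)) (q (i + 2)) → False)
    (b : ℕ) : (c.s w (q 0) (q b)).natAbs + 5032001 * E ≤ κ.N w := by
  classical
  have hs' : ∀ i, 8400 + 2 * 2 < c.X.d (q i) (q (i + 1)) := fun i => by have := hs i; omega
  have btw := fun a i b => c.fp.chain_btw (a := a) (i := i) (b := b) hb hs'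
  have loc : ∀ i, i + 1 ≤ b → c.D w (q i) (q (i + 1)) ≤ 21344 → 86 < c.D w (q 0) (q i) →
      c.D w (q (i + 1)) (q b) ≤ 86 := by
    intro i hi h1 h2
    by_contra h3
    have := (hw.btw h2).2
    have := (hw.btw (not_le.1 h3)).1
    have := btw 0 i b (Nat.zero_le _) (by omega)
    have := btw i (i + 1) b (by omega) hi
    have := hs i
    have := c.X.tri (q 0) (c.π w (q i)) (q b)
    have := c.X.tri (c.π w (q i)) (c.π w (q (i + 1))) (q b)
    unfold Ctx.D at *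
    omega
  have hN := κ.hN w hw
  by_cases h0 : ∃ i, i + 1 ≤ b ∧ 86 < c.D w (q 0) (q (i + 1))
  swap
  · have : c.D w (q 0) (q b) ≤ 86 := by
      rcases b with _ | b
      · simp [Ctx.D]
      · by_contra hc; exact h0 ⟨b, le_rfl, by omega⟩
    have := hw.s_le this
    omega
  have h1 := Nat.find_spec h0
  have h2 : c.D w (q 0) (q (Nat.find h0)) ≤ 86 := by
    rcases hh : Nat.find h0 with _ | j
    · simp [Ctx.D]
    · have := Nat.find_min h0 (show j < Nat.find h0 by omega)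
      by_contra hc
      exact this ⟨by omega, by omega⟩
  generalize Nat.find h0 = i at *
  obtain ⟨h1, h3⟩ := h1
  have s0 := hw.s_le h2
  have s1 := hw.s_add (q 0) (q i) (q b)
  have s2 := hw.s_add (q i) (q (i + 1)) (q b)
  have s3 := hw.s_add (q (i + 1)) (q (i + 2)) (q b)
  have s4 := hw.s_add (q (i + 2)) (q (i + 3)) (q b)
  have S0 := hS i
  have S1 : 2 * (c.s w (q (i + 1)) (q (i + 2))).natAbs ≤ _ := hS (i + 1)
  rcases Nat.eq_or_lt_of_le h1 with rfl | h4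
  · have := hw.s_self (q (i + 1)); omega
  by_cases h5 : c.D w (q (i + 1)) (q (i + 2)) ≤ 21344
  · have := hw.s_le h5
    have : (c.s w (q (i + 2)) (q b)).natAbs ≤ _ := hw.s_le (loc (i + 1) h4 h5 h3)
    omega
  have h6 : c.D w (q i) (q (i + 1)) ≤ 21344 := by
    by_contra hc; exact hT i (by omega) (by omega)
  have := hw.s_le h6
  rcases Nat.eq_or_lt_of_le (show i + 2 ≤ b from h4) with rfl | h7
  · have := hw.s_self (q (i + 2)); omega
  have h8 : c.D w (q (i + 2)) (q (i + 3)) ≤ 21344 := by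
    by_contra hc; exact hT (i + 1) (not_le.1 h5) (not_le.1 hc)
  have := hw.s_le h8
  have h9 := hw.mono (a := q 0) (b := q (i + 2)) (x := q (i + 1)) (y := q (i + 2)) (k := 8404)
    (by omega) (by simpa using btw 0 (i + 1) (i + 2) (by omega) (by omega))
  have : (c.s w (q (i + 3)) (q b)).natAbs ≤ _ := hw.s_le (loc (i + 2) h7 h8 (by omega))
  omega

theorem far_chain {a b : G} {Φ Ψ : Set G} (ha : κ.Ctr a Φ) (hb : κ.Ctr b Ψ) {x y : G} (hx : x ∈ Φ)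
    (hy : y ∈ Ψ) (hm : ∀ z ∈ Φ, ∀ z' ∈ Ψ, ∀ k ∈ κ.K, c.X.d x y ≤ c.X.d z (k * z'))
    (hc : ¬ Commute a b)
    (b1 : c.X.d (b⁻¹ * y) x + c.X.d x (a⁻¹ * y) ≤ c.X.d (b⁻¹ * y) (a⁻¹ * y) + 8400)
    (b2 : c.X.d (a * x) y + c.X.d y (b * x) ≤ c.X.d (a * x) (b * x) + 8400)
    (l1 : 39000 ≤ c.X.d y (b * x)) (l2 : 39000 ≤ c.X.d x (a⁻¹ * y)) :
    1 ≤ 6000000 * κ.Q.τ ((b * a⁻¹ : G) : G ⧸ κ.K) := by
  obtain ⟨g, hg⟩ : ∃ g, g = b * a⁻¹ := ⟨_, rfl⟩
  rw [← hg]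
  let q : ℕ → G := fun i => g ^ (i / 2) * (if i % 2 = 0 then y else b * x)
  have q0 : ∀ k, q (2 * k) = g ^ k * y := fun k => by simp [q]
  have q1 : ∀ k, q (2 * k + 1) = g ^ k * b * x := fun k => by
    have : (2 * k + 1) / 2 = k := by omega
    simp [q, this, mul_assoc]
  have cs : ∀ i, (∃ u, q i = u * (b⁻¹ * y) ∧ q (i + 1) = u * x ∧ q (i + 2) = u * (a⁻¹ * y)) ∨
      (∃ u, q i = u * (a * x) ∧ q (i + 1) = u * y ∧ q (i + 2) = u * (b * x)) := by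
    intro i
    obtain ⟨k, rfl | rfl⟩ := Nat.even_or_odd' i
    · refine Or.inl ⟨g ^ k * b, by rw [q0]; group, q1 k, ?_⟩
      rw [show 2 * k + 2 = 2 * (k + 1) by ring, q0, pow_succ, hg]; group
    · refine Or.inr ⟨g ^ (k + 1), by rw [q1, pow_succ, hg]; group, ?_, ?_⟩
      · rw [show 2 * k + 1 + 1 = 2 * (k + 1) by ring, q0]
      · rw [show 2 * k + 1 + 2 = 2 * (k + 1) + 1 by ring, q1, mul_assoc]
  have hm0 : ∀ z ∈ Φ, ∀ z' ∈ Ψ, c.X.d x y ≤ c.X.d z z' := fun z hz z' hz' => by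
    simpa using hm z hz z' hz' 1 (one_mem _)
  have hm1 : ∀ z' ∈ Ψ, ∀ z ∈ Φ, c.X.d y x ≤ c.X.d z' z := fun z' hz' z hz => by
    rw [c.X.comm y, c.X.comm z']; exact hm0 z hz z' hz'
  have sm : ∀ w, c.In w → 2 * (c.s w x y).natAbs < κ.N w + 1200 * E := fun w hw =>
    κ.small (hm x hx y hy) hw
  have sm' : ∀ w, c.In w → 2 * (c.s w y x).natAbs < κ.N w + 1200 * E := fun w hw => by
    rw [hw.s_neg, Int.natAbs_neg]; exact sm w hw
  have Hb : ∀ i, c.X.d (q i) (q (i + 1)) + c.X.d (q (i + 1)) (q (i + 2)) ≤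
      c.X.d (q i) (q (i + 2)) + 8400 := by
    intro i
    rcases cs i with ⟨u, h1, h2, h3⟩ | ⟨u, h1, h2, h3⟩ <;> rw [h1, h2, h3] <;>
      simp only [Nm.d_mul] <;> assumption
  have Hs : ∀ i, 39000 ≤ c.X.d (q i) (q (i + 1)) := by
    intro i
    rcases cs i with ⟨u, h1, h2, -⟩ | ⟨u, h1, h2, -⟩ <;> rw [h1, h2, Nm.d_mul]
    · rwa [Nm.d_inv_left]
    · rwa [← Nm.d_inv_right]
  have bound : ∀ (m : ℕ) w, c.In w → (c.s w y (g ^ m * y)).natAbs + 5032001 * E ≤ κ.N w := by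
    intro m w hw
    have := κ.chain_s Hb Hs hw (fun i => by
      rcases cs i with ⟨u, h1, h2, -⟩ | ⟨u, h1, h2, -⟩
      · rw [h1, h2, ← mul_assoc, show u * x = u * b⁻¹ * (b * x) by group, hw.s_mul,
          ← κ.hNc w (u * b⁻¹) hw]
        exact hb.step_bound hy (fun z hz => hm0 x hx z hz) sm' (hw.conj' _)
      · rw [h1, h2, ← mul_assoc, show u * y = u * a * (a⁻¹ * y) by group, hw.s_mul,
          ← κ.hNc w (u * a) hw]
        exact ha.inv'.step_bound hx (fun z hz => hm1 y hy z hz) sm (hw.conj' _)) (fun i => by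
      rcases cs i with ⟨u, h1, h2, h3⟩ | ⟨u, h1, h2, h3⟩ <;> rw [h1, h2, h3, Ctx.D_mul, Ctx.D_mul]
      · exact no_two ha.inv' hb.inv' hx hy hm0 (by simpa using hc) (hw.conj' u)
      · exact no_two hb ha hy hx hm1 (fun h => hc h.symm) (hw.conj' u)) (2 * m)
    rwa [q0, show q 0 = y by simp [q]] at this
  have hτ : 1 ≤ c.X.τ g := by
    apply c.X.le_tau y (c := 0)
    intro k
    have := c.fp.chain_len (l := 1) Hb (fun i => by have := Hs i; omega) one_pos 0 (2 * k)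
    rw [zero_add, q0, show q 0 = y by simp [q]] at this
    have : k ≤ c.X.d y (g ^ k * y) := by omega
    simpa using this
  refine κ.coreB (x := y) (k := 8404) (by norm_num) (fun v hv h => ?_) hτ (fun i j => ?_) bound
  · obtain ⟨j, hj⟩ := hv.cent h
    have j0 : j ≠ 0 := by
      rintro rfl
      rw [hj, zpow_zero, c.X.tau_one] at hτ; norm_num at hτ
    have := bound (κ.N v) v hv
    rw [hj, ← zpow_natCast, ← zpow_mul, hv.s_zpow, hv.s_self, zero_add, Int.natAbs_mul,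
      Int.natAbs_natCast] at this
    have := Nat.le_mul_of_pos_left (κ.N v) (Int.natAbs_pos.2 j0)
    have := E_pos hv
    omega
  · have := c.fp.chain_btw Hb (fun i => by have := Hs i; omega) (Nat.zero_le (2 * i))
      (show 2 * i ≤ 2 * (i + j) by omega)
    rwa [q0, q0, show q 0 = y by simp [q], Nm.orbit_d] at this

theorem far_setup (κ : Kill c) {a : G} {Φ : Set G} (ha : κ.Ctr a Φ) (ξ : G)
    (hc : ¬ Commute (ξ : G ⧸ κ.K) a) : ∃ k ∈ κ.K, ∃ x ∈ Φ, ∃ y, (k * ξ)⁻¹ * y ∈ Φ ∧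
      (∀ z ∈ Φ, ∀ z', (k * ξ)⁻¹ * z' ∈ Φ → ∀ k' ∈ κ.K, c.X.d x y ≤ c.X.d z (k' * z')) ∧
      ¬ Commute a (k * ξ * a * (k * ξ)⁻¹) ∧
      ((k * ξ * a * (k * ξ)⁻¹ * a⁻¹ : G) : G ⧸ κ.K) = (ξ * a * ξ⁻¹ * a⁻¹ : G) := by
  obtain ⟨x, h1, y, h2, k, h3, h4⟩ := κ.exists_min3 ha.ne (ha.conj ξ).ne
  refine ⟨k, h3, x, h1, k * y, by simpa [mul_assoc] using h2, fun z hz z' hz' k' hk' => ?_,
    fun h => hc ?_, ?_⟩
  · simpa [mul_assoc] using h4 z hz (k⁻¹ * z') (by simpa [mul_assoc] using hz') (k' * k) (mul_mem hk' h3)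
  · have := (c.st.csab _ _ h.symm).map (QuotientGroup.mk' κ.K)
    rwa [QuotientGroup.mk'_apply, κ.mk_K h3] at this
  · simp only [QuotientGroup.mk_mul, QuotientGroup.mk_inv, (QuotientGroup.eq_one_iff k).2 h3, one_mul]

theorem far_ell (κ : Kill c) {a ξ : G} (ha : a ^ n = 1) (hc : ¬ Commute (ξ : G ⧸ κ.K) a)
    (hfar : ∀ k ∈ κ.K, ∀ z, c.X.d z (a * z) ≤ 80000 →
      80000 < c.X.d z (k * ξ * a * (k * ξ)⁻¹ * z)) :
    1 ≤ 6000000 * κ.Q.τ ((ξ * a * ξ⁻¹ * a⁻¹ : G) : G ⧸ κ.K) := by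
  have a1 : a ≠ 1 := by rintro rfl; exact hc (Commute.one_right _)
  obtain ⟨k, h1, x, h2, y, h3, h4, h5, h6⟩ := κ.far_setup (κ.ctr_ell' a1 ha) ξ hc
  rw [← h6]
  have hb : (k * ξ * a * (k * ξ)⁻¹) ^ n = 1 := by rw [conj_pow, ha]; simp
  have eb : ∀ z, (k * ξ)⁻¹ * z ∈ {z | c.X.d z (a * z) ≤ 11} ↔
      c.X.d z (k * ξ * a * (k * ξ)⁻¹ * z) ≤ 11 := fun z => by rw [Nm.d_conj]; rfl
  have hf := hfar k h1 x (le_trans h2 (by norm_num))
  have cb := (κ.ctr_ell' a1 ha).conj (k * ξ)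
  generalize k * ξ * a * (k * ξ)⁻¹ = b at *
  have hx : c.X.d x (a * x) ≤ 11 := h2
  have hy : c.X.d y (b * y) ≤ 11 := (eb y).1 h3
  obtain ⟨z₀, hz₀⟩ := c.fp.ell_fix (c.X.tau_eq_zero c.st.odd.pos ha)
  obtain ⟨z₁, hz₁⟩ := c.fp.ell_fix (c.X.tau_eq_zero c.st.odd.pos hb)
  obtain ⟨m₀, a2, a3⟩ := c.fp.escape hz₀ y
  obtain ⟨m₁, b2, b3⟩ := c.fp.escape hz₁ x
  have := h4 m₀ a2 y h3 1 (one_mem _)
  have := h4 x h2 m₁ ((eb _).2 b2) 1 (one_mem _)
  simp only [one_mul] at *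
  have := c.X.comm m₀ y
  have := c.X.comm x y
  have := c.X.tri x y (b * x)
  have := c.X.tri y (b * y) (b * x)
  have := c.X.d_mul b y x
  have := c.X.d_mul a x y
  have := c.X.d_inv_left b y x
  have := c.X.d_inv_right a x y
  have := c.X.tri' (a * x) x y
  have := c.X.tri y (a * x) (a * y)
  have := c.X.comm y (a * x)
  refine far_chain (κ.ctr_ell' a1 ha) cb h2 h3 h4 h5 ?_ ?_ (by omega) (by omega)
  · have := c.X.tri y (b⁻¹ * y) (a⁻¹ * y)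
    have := c.X.d_inv_self a y
    have := c.X.d_inv_self b y
    omega
  · have := c.X.tri x (a * x) (b * x)
    omega

omit κ in
theorem corner_pow {v e x y f : G} (hx : c.Y v x) (hD : c.D v x y ≤ 85) (hf : c.D v y (f * y) ≤ 4000)
    (he : Commute e v) (hl : 40000 ≤ c.X.d x (e * x)) :
    c.X.d (f * y) x + c.X.d x (e * y) ≤ c.X.d (f * y) (e * y) + 8400 ∧ 39000 ≤ c.X.d x (e * y) := by
  have hv := hx.In
  have e1 : c.D v x (e * x) = c.X.d x (e * x) := by unfold Ctx.D; rw [hx.π_eq, (hx.comm he).π_eq]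
  have e2 : c.D v (e * x) (e * y) = c.D v x y := by rw [Ctx.D_mul, conj_eq_iff.2 he]
  have := Ctx.D_tri (c := c) v x (e * y) (e * x)
  have := Ctx.D_comm (c := c) v (e * y) (e * x)
  have := Ctx.D_tri (c := c) v x (f * y) (e * y)
  have := Ctx.D_tri (c := c) v x y (f * y)
  have := (hv.btw (x := f * y) (y := e * y) (by omega)).1
  have := hv.lip x (e * y)
  have e3 : c.D v x (f * y) = c.X.d x (c.π v (f * y)) := by unfold Ctx.D; rw [hx.π_eq]
  have := c.X.tri'' (f * y) (c.π v (f * y)) x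
  have := c.X.tri x (c.π v (f * y)) (e * y)
  omega

theorem far_pow (κ : Kill c) {w ξ : G} (hw : c.In w) {j : ℤ} (h1 : 40000 * E < j.natAbs)
    (h2 : 2 * j.natAbs ≤ κ.N w) (hc : ¬ Commute (ξ : G ⧸ κ.K) (w ^ j : G)) :
    1 ≤ 6000000 * κ.Q.τ ((ξ * w ^ j * ξ⁻¹ * (w ^ j)⁻¹ : G) : G ⧸ κ.K) := by
  have ca := κ.ctr_pow hw (j := j) (by rintro rfl; simp at h1) h2
  obtain ⟨k, -, x, hx, y, hy, h4, h5, h6⟩ := κ.far_setup ca ξ hc
  rw [← h6]
  have cb := ca.conj (k * ξ)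
  have long : ∀ z, c.Y w z → 40000 ≤ c.X.d z (w ^ j * z) := by
    intro z hz
    have := hw.lt_D (k := 40000) (x := z) (y := w ^ j * z) (by rwa [hw.s_zpow, hw.s_self, zero_add])
    unfold Ctx.D at this
    rw [hz.π_eq, (hz.zpow j).π_eq] at this
    exact this.le
  have eb : ∀ z, (k * ξ)⁻¹ * z ∈ {z | c.Y w z} ↔ c.Y (k * ξ * w * (k * ξ)⁻¹) z := fun z => by
    rw [← Ctx.Y_conj (g := (k * ξ)⁻¹) (y := z)]; simp [mul_assoc]
  have hbw : Commute (k * ξ * w ^ j * (k * ξ)⁻¹) (k * ξ * w * (k * ξ)⁻¹) := by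
    rw [← conj_zpow]; exact (Commute.refl _).zpow_left j
  have lb : 40000 ≤ c.X.d y (k * ξ * w ^ j * (k * ξ)⁻¹ * y) := by
    rw [Nm.d_conj]; exact long _ hy
  have hw' := hw.conj (k * ξ)
  generalize k * ξ * w ^ j * (k * ξ)⁻¹ = b at *
  generalize k * ξ * w * (k * ξ)⁻¹ = w' at *
  have haw : Commute (w ^ j) w := (Commute.refl _).zpow_left j
  have la := long x hx
  have d1 : c.D w x y ≤ 85 := near_D hx (fun z hz => by
    simpa [c.X.comm y] using h4 z hz y hy 1 (one_mem _))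
  have d2 : c.D w' y x ≤ 85 := near_D ((eb y).1 hy) (fun z hz => by
    simpa using h4 x hx z ((eb z).2 hz) 1 (one_mem _))
  have d3 : c.D w y (b⁻¹ * y) ≤ 4000 := by
    rcases cb.inv'.alt w hw with ⟨-, i, h, -⟩ | ⟨-, h⟩
    · exact absurd (by rw [← Commute.inv_right_iff, h]; exact (Commute.refl w).zpow_zpow _ _) h5
    · exact h y hy
  have d4 : c.D w' x (w ^ j * x) ≤ 4000 := by
    rcases ca.alt w' hw' with ⟨-, i, h, -⟩ | ⟨-, h⟩
    · exact absurd (by rw [h]; exact hbw.symm.zpow_left i) h5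
    · exact h x hx
  obtain ⟨p1, p2⟩ := corner_pow hx d1 d3 haw.inv_left (by rwa [Nm.d_inv_self])
  obtain ⟨p3, p4⟩ := corner_pow ((eb y).1 hy) d2 d4 hbw lb
  exact far_chain ca cb hx hy h4 h5 p1 p3 p4 p2

theorem gen (κ : Kill c) {g z : G} (hg : ∀ u, u ≠ 1 → Commute u g → 1 < c.X.τ u) (h1 : g ≠ 1)
    (hz : c.X.d z (g * z) ≤ 100000000) : 1 ≤ 6000000 * κ.Q.τ (g : G ⧸ κ.K) := by
  refine κ.coreA ?_ (fun y v hv hy => ?_)
  · rintro (h | ⟨w, hw, j, rfl⟩)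
    · linarith [hg g h1 (Commute.refl g), c.X.tau_eq_zero c.st.odd.pos h]
    · linarith [hg w hw.ne_one ((Commute.refl w).zpow_right j), hw.le]
  · have h2 := c.X.tau_le_one g z
    have h3 : (c.X.d z (g * z) : ℝ) ≤ 100000000 := by exact_mod_cast hz
    have h4 : (c.X.d y (g * y) : ℝ) ≤ 100000190 := by linarith
    have h5 : c.X.d y (g * y) ≤ 100000190 := by exact_mod_cast h4
    have := hv.s_le (k := 100000400) ((hv.lip y (g * y)).trans (by omega))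
    have := κ.hN v hv
    omega

end Kill

end Pool.Agent.Burnside6
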