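import Pool.Agent.Burnside6.Step

set_option autoImplicit false

namespace Pool.Agent.Burnside6

section free

open FreeGroup

def freeNm : Nm (FreeGroup ℕ) where
  ν := FreeGroup.norm
  one := norm_one
  eq_one _ h := norm_eq_zero.1 h
  inv _ := norm_inv_eq
  mul := norm_mul_le
  split g s t h := by
    refine ⟨mk (g.toWord.take s), mk (g.toWord.drop s), by simp [mk_toWord], ?_, ?_⟩
    · exact norm_mk_le.trans (by simp)
    · refine norm_mk_le.trans ?_
      unfold FreeGroup.norm at h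
      simp; omega

def cp : List (ℕ × Bool) → List (ℕ × Bool) → ℕ
  | a :: l, b :: m => if a = b then cp l m + 1 else 0
  | _, _ => 0

theorem cp_ultra : ∀ x y z : List (ℕ × Bool), min (cp x z) (cp y z) ≤ cp x y
  | [], _, _ => by simp [cp]
  | _ :: _, [], _ => by simp [cp]
  | _ :: _, _ :: _, [] => by simp [cp]
  | a :: x, b :: y, c :: z => by
    have := cp_ultra x y z
    simp only [cp]
    by_cases h1 : a = c
    · by_cases h2 : b = c
      · simp only [h1, h2, if_true]; omega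
      · simp [h2]
    · simp [h1]

theorem reduced_invRev {L : List (ℕ × Bool)} (h : IsReduced L) : IsReduced (invRev L) := by
  rw [isReduced_iff_reduce_eq] at *
  rw [reduce_invRev, h]

theorem norm_mk_red {L : List (ℕ × Bool)} (h : IsReduced L) : FreeGroup.norm (mk L) = L.length := by
  unfold FreeGroup.norm
  rw [toWord_mk, h.reduce_eq]

theorem norm_cp : ∀ x y : List (ℕ × Bool), IsReduced x → IsReduced y →
    FreeGroup.norm ((mk x)⁻¹ * mk y) + 2 * cp x y = x.length + y.length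
  | [], y, _, hy => by simp [cp, invRev, norm_mk_red hy, inv_mk]
  | a :: x, [], hx, _ => by
    have : (mk [] : FreeGroup ℕ) = 1 := rfl
    rw [this, mul_one, norm_inv_eq, norm_mk_red hx]; simp [cp]
  | a :: x, b :: y, hx, hy => by
    by_cases h : a = b
    · subst h
      have := norm_cp x y (List.IsChain.tail hx) (List.IsChain.tail hy)
      have e : (mk (a :: x))⁻¹ * mk (a :: y) = (mk x)⁻¹ * mk y := by
        have e1 : mk (a :: x) = mk [a] * mk x := rfl
        have e2 : mk (a :: y) = mk [a] * mk y := rfl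
        rw [e1, e2]; group
      rw [e]
      simp only [cp, if_true, List.length_cons]; omega
    · have h1 := reduced_invRev hx
      have : IsReduced (invRev (a :: x) ++ b :: y) := by
        rw [invRev_cons] at h1 ⊢
        have e : invRev [a] = [(a.1, !a.2)] := rfl
        rw [e] at h1 ⊢
        rw [List.append_assoc, List.singleton_append]
        refine List.isChain_append_cons_cons.2 ⟨h1, fun h2 => ?_, hy⟩
        by_contra h3
        apply h
        ext
        · exact h2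
        · simp only at h3
          revert h3
          cases a.2 <;> cases b.2 <;> simp
      rw [inv_mk, mul_mk, norm_mk_red this]
      simp [cp, h]

theorem freeNm_fp : freeNm.FP 0 := by
  have key : ∀ x y : FreeGroup ℕ, freeNm.d x y + 2 * cp x.toWord y.toWord =
      freeNm.d x 1 + freeNm.d y 1 := by
    intro x y
    have := norm_cp _ _ (isReduced_toWord (x := x)) (isReduced_toWord (x := y))
    rw [mk_toWord, mk_toWord] at this
    rw [freeNm.comm x 1, freeNm.comm y 1, Nm.d_one, Nm.d_one]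
    exact this
  intro x y z w
  rw [← freeNm.d_mul w⁻¹ x y, ← freeNm.d_mul w⁻¹ z w, ← freeNm.d_mul w⁻¹ x z,
    ← freeNm.d_mul w⁻¹ y w, ← freeNm.d_mul w⁻¹ x w, ← freeNm.d_mul w⁻¹ y z, inv_mul_cancel]
  have := key (w⁻¹ * x) (w⁻¹ * y)
  have := key (w⁻¹ * x) (w⁻¹ * z)
  have := key (w⁻¹ * y) (w⁻¹ * z)
  have := cp_ultra (w⁻¹ * x).toWord (w⁻¹ * y).toWord (w⁻¹ * z).toWord
  omega

theorem freeNm_tau {g : FreeGroup ℕ} (hg : g ≠ 1) : 1 ≤ freeNm.τ g := by
  obtain ⟨x, hx⟩ := freeNm.exists_min g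
  by_cases h : 1 < freeNm.d x (g * x)
  · simpa using freeNm_fp.orbit_tau (l := 1) (freeNm_fp.min_disp hx h) (by omega)
  have h1 : freeNm.d x (g * x) ≠ 0 := fun h0 => hg (by simpa using (freeNm.eq_of_d h0).symm)
  have h2 : (x⁻¹ * g * x).toWord.length = 1 := by
    have : freeNm.d x (g * x) = 1 := by omega
    rwa [Nm.d, ← mul_assoc] at this
  obtain ⟨⟨a, b⟩, h3⟩ := List.length_eq_one_iff.1 h2
  have h4 : 1 ≤ freeNm.τ (of a) := freeNm.le_tau_nu (c := 0) (fun k => by simp [freeNm])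
  rw [← freeNm.tau_conj' x g, ← mk_toWord (x := x⁻¹ * g * x), h3]
  cases b
  · rw [← freeNm.tau_inv]; exact h4
  · exact h4

theorem freeNm_stage {E n : ℕ} (hE : 0 < E) (hn : Odd n) : Stage freeNm E n := by
  have h2 : ∀ g : FreeGroup ℕ, g ^ n = 1 ∨ 0 < freeNm.τ g := fun g => by
    by_cases h : g = 1
    · simp [h]
    · right; linarith [freeNm_tau h]
  have he : ∀ e : FreeGroup ℕ, e ≠ 1 → e ^ n ≠ 1 := fun e h1 h => by
    linarith [freeNm_tau h1, freeNm.tau_eq_zero hn.pos h]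
  refine ⟨freeNm_fp.mono (by norm_num), hn, fun g => ?_, fun e h1 h => absurd h (he e h1), ?_, ?_,
    (freeNm_fp.h4_zero 30).mono le_rfl (by norm_num)⟩
  · by_cases h : g = 1
    · simp [h]
    · right
      have : (1 : ℝ) ≤ E := by exact_mod_cast hE
      nlinarith [freeNm_tau h]
  · intro g a b h1 ha hb
    exact freeNm_fp.csa_lox_a hn h2 (fun e _ h1 h => absurd h (he e h1)) (freeNm_fp.h4_zero 0) le_rfl
      (by linarith [freeNm_tau h1]) ha hb
  · intro g x hx
    by_cases h1 : g = 1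
    · simp [h1]
    have : 0 < freeNm.τ g := by linarith [freeNm_tau h1]
    exact freeNm_fp.csa_lox_b hn h2 (fun e _ h1 h => absurd h (he e h1)) this this (Commute.refl g) hx hx

end free

variable {C B : Type} [CommGroup C] [CommGroup B]

def St.base (p : Par C B) : St p where
  A := FreeGroup ℕ × C
  G := FreeGroup ℕ
  X := freeNm
  st := freeNm_stage (by have := p.hR; have := p.hE; omega) p.odd
  ψ := MonoidHom.id _
  φ := MonoidHom.fst _ _
  β := p.α
  sψ := Function.surjective_id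
  sφ := fun g => ⟨(g, 1), rfl⟩
  ker a := ⟨fun h => ⟨a.2, Prod.ext h rfl⟩, by rintro ⟨z, rfl⟩; rfl⟩
  inj z h := congrArg Prod.snd h
  tf a m hm h := Prod.ext ((pow_eq_one_iff_left hm).1 (congrArg Prod.fst h))
    (p.tf _ m hm (congrArg Prod.snd h))
  ab _ := rfl

noncomputable def tower (p : Par C B) : ℕ → St p
  | 0 => St.base p
  | i + 1 => (tower p i).next

namespace Par

variable (p : Par C B)

/-- the map to the group of stage `i` -/
noncomputable def π (i : ℕ) : FreeGroup ℕ × C →* (tower p i).G := (tower p i).φ.comp (tower p i).ψ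

theorem π_succ (i : ℕ) (γ : FreeGroup ℕ × C) :
    p.π (i + 1) γ = ((p.π i γ : (tower p i).G) : (tower p i).G ⧸ (tower p i).kill.K) := rfl

theorem ψ_succ (i : ℕ) (γ : FreeGroup ℕ × C) :
    (tower p (i + 1)).ψ γ = (((tower p i).ψ γ : (tower p i).A) : (tower p i).A ⧸ (tower p i).KA) := rfl

theorem π_surj (i : ℕ) : Function.Surjective (p.π i) := (tower p i).sφ.comp (tower p i).sψ

theorem π_mono {i j : ℕ} (h : i ≤ j) {γ : FreeGroup ℕ × C} (h1 : p.π i γ = 1) : p.π j γ = 1 := by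
  induction j, h using Nat.le_induction with
  | base => exact h1
  | succ j _ ih => rw [π_succ, ih]; rfl

theorem ψ_mono {i j : ℕ} (h : i ≤ j) {γ : FreeGroup ℕ × C} (h1 : (tower p i).ψ γ = 1) :
    (tower p j).ψ γ = 1 := by
  induction j, h using Nat.le_induction with
  | base => exact h1
  | succ j _ ih => rw [ψ_succ, ih]; rfl

theorem ν_succ (i : ℕ) (γ : FreeGroup ℕ × C) (s : ℕ) (h : (tower p i).X.ν (p.π i γ) ≤ s * p.R) :
    (tower p (i + 1)).X.ν (p.π (i + 1) γ) ≤ s := by
  apply (Nm.scale_le _ _ (St.R_pos p) _ s).2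
  have := (tower p i).kill.Q_le_X 1 (p.π i γ)
  rw [Nm.d_one, QuotientGroup.mk_one, Nm.d_one] at this
  exact this.trans h

theorem ν_le (γ : FreeGroup ℕ × C) (i : ℕ) : ∃ j, i ≤ j ∧ ∀ k, j ≤ k → (tower p k).X.ν (p.π k γ) ≤ 1 := by
  have hR := p.hR
  have key : ∀ s i, (tower p i).X.ν (p.π i γ) ≤ s + 1 → (tower p (i + s)).X.ν (p.π (i + s) γ) ≤ 1 := by
    intro s
    induction s with
    | zero => exact fun i h => h
    | succ s ih =>
      intro i h
      have := ih (i + 1) (p.ν_succ i γ _ (h.trans (by nlinarith)))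
      rwa [show i + 1 + s = i + (s + 1) by omega] at this
  refine ⟨i + (tower p i).X.ν (p.π i γ), Nat.le_add_right _ _, fun k hk => ?_⟩
  induction k, hk using Nat.le_induction with
  | base => exact key _ i (Nat.le_succ _)
  | succ k _ ih => exact p.ν_succ k γ 1 (by omega)

theorem eventually_ell (γ : FreeGroup ℕ × C) : ∃ i, p.π i (γ ^ p.n) = 1 := by
  obtain ⟨j, -, hj⟩ := p.ν_le γ 0
  refine ⟨j + 1, ?_⟩
  rw [map_pow, π_succ]
  exact (tower p j).kill.mk_short (hj j le_rfl)

/-- relations of the limit group -/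
def M : Subgroup (FreeGroup ℕ × C) where
  carrier := {γ | ∃ i, p.π i γ = 1}
  one_mem' := ⟨0, map_one _⟩
  mul_mem' := by
    rintro a b ⟨i, hi⟩ ⟨j, hj⟩
    exact ⟨max i j, by rw [map_mul, p.π_mono (le_max_left _ _) hi, p.π_mono (le_max_right _ _) hj, one_mul]⟩
  inv_mem' := by
    rintro a ⟨i, hi⟩
    exact ⟨i, by rw [map_inv, hi, inv_one]⟩

instance : p.M.Normal := ⟨by
  rintro a ⟨i, hi⟩ g
  exact ⟨i, by simp [hi]⟩⟩

/-- relations of the central extension -/
def L : Subgroup (FreeGroup ℕ × C) where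
  carrier := {γ | ∃ i, (tower p i).ψ γ = 1}
  one_mem' := ⟨0, map_one _⟩
  mul_mem' := by
    rintro a b ⟨i, hi⟩ ⟨j, hj⟩
    exact ⟨max i j, by rw [map_mul, p.ψ_mono (le_max_left _ _) hi, p.ψ_mono (le_max_right _ _) hj, one_mul]⟩
  inv_mem' := by
    rintro a ⟨i, hi⟩
    exact ⟨i, by rw [map_inv, hi, inv_one]⟩

instance : p.L.Normal := ⟨by
  rintro a ⟨i, hi⟩ g
  exact ⟨i, by simp [hi]⟩⟩

theorem M_iff (γ : FreeGroup ℕ × C) : γ ∈ p.M ↔ ∃ z, γ * (1, z) ∈ p.L := by
  constructor
  · rintro ⟨i, hi⟩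
    obtain ⟨z, hz⟩ := ((tower p i).ker _).1 hi
    refine ⟨z⁻¹, i, ?_⟩
    rw [map_mul, hz, ← map_mul, Prod.mk_mul_mk, mul_one, mul_inv_cancel]; exact map_one _
  · rintro ⟨z, i, hi⟩
    refine ⟨i, ((tower p i).ker _).2 ⟨z⁻¹, ?_⟩⟩
    rw [map_mul, mul_eq_one_iff_eq_inv, ← map_inv] at hi
    simpa using hi

theorem L_inj {z : C} (h : (1, z) ∈ p.L) : z = 1 := by
  obtain ⟨i, hi⟩ := h
  exact (tower p i).inj z hi

theorem L_tf {γ : FreeGroup ℕ × C} {m : ℕ} (hm : m ≠ 0) (h : γ ^ m ∈ p.L) : γ ∈ p.L := by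
  obtain ⟨i, hi⟩ := h
  exact ⟨i, (tower p i).tf _ m hm (by rw [← map_pow, hi])⟩

theorem M_ab {γ : FreeGroup ℕ × C} (h : γ ∈ p.M) : p.α γ.1 = 1 := by
  obtain ⟨i, hi⟩ := h
  rw [← (tower p i).ab γ]
  exact (congrArg (tower p i).β hi).trans (map_one _)

theorem M_pow (γ : FreeGroup ℕ × C) : γ ^ p.n ∈ p.M := p.eventually_ell γ

end Par

end Pool.Agent.Burnside6
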