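import Pool.Agent.Burnside6.Elec

set_option autoImplicit false

namespace Pool.Agent.Burnside6

variable {G : Type} [Group G] {E n : ℕ}

/-- the normal subgroup generated by the chosen powers -/
structure Kill (c : Ctx G E n) where
  N : G → ℕ
  K : Subgroup G
  normal : K.Normal
  hK : ∀ v, c.In v → v ^ N v ∈ K
  green : ∀ k ∈ K, k ≠ 1 → ∀ x, ∃ v, c.In v ∧ N v ≤ (c.s v x (k * x)).natAbs + 32000 * E
  hN : ∀ v, c.In v → 100000000000000 * E ≤ N v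
  hNc : ∀ v g, c.In v → N (g⁻¹ * v * g) = N v
  hNn : ∀ v, c.In v → N v ∣ n

namespace Kill

variable {c : Ctx G E n} (κ : Kill c)

instance : κ.K.Normal := κ.normal

/-- quotient norm -/
noncomputable def Q : Nm (G ⧸ κ.K) := c.H.quot κ.K

theorem mk_K {r : G} (hr : r ∈ κ.K) (y : G) : ((r * y : G) : G ⧸ κ.K) = y := by
  rw [QuotientGroup.mk_mul, (QuotientGroup.eq_one_iff r).2 hr, one_mul]

theorem mem_of_eq {y y' : G} (h : (y' : G ⧸ κ.K) = y) : y' * y⁻¹ ∈ κ.K := by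
  rw [← QuotientGroup.eq_one_iff, QuotientGroup.mk_mul, h]; simp

theorem Q_le (x y : G) : κ.Q.d (x : G ⧸ κ.K) y ≤ c.H.d x y := c.H.quot_d_le κ.K x y

theorem Q_lift (x : G) (q : G ⧸ κ.K) : ∃ y : G, (y : G ⧸ κ.K) = q ∧ c.H.d x y = κ.Q.d x q :=
  c.H.quot_lift κ.K x q

theorem E_pos {v : G} (hv : c.In v) : 0 < E := by
  have := hv.lox
  rcases Nat.eq_zero_or_pos E with rfl | h
  · norm_num at this
  · exact h

theorem short {v x y : G} (hv : c.In v) {k : ℕ} (hk : k ≤ 1000)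
    (hs : κ.N v + 1200 * E ≤ 2 * (c.s v x y).natAbs) :
    ∃ r ∈ κ.K, Commute r v ∧ c.X.d x (r * y) + k ≤ c.X.d x y := by
  have := κ.hN v hv
  have h1 : (k + 188) * E ≤ 1200 * E := Nat.mul_le_mul_right E (by omega)
  obtain ⟨ε, h⟩ := hv.short (x := x) (y := y) (N := κ.N v) (k := k) (by omega) (by omega)
  exact ⟨_, zpow_mem (κ.hK v hv) ε, ((Commute.refl v).pow_left _).zpow_left _, h⟩

theorem descent (P : G → Prop) {y y₀ : G} (h0 : P y₀) (hm : (y₀ : G ⧸ κ.K) = y)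
    (step : ∀ y' v r, P y' → c.In v → r ∈ κ.K → Commute r v →
      κ.N v ≤ (c.s v y y').natAbs + 32000 * E → P (r * y')) : P y := by
  induction' hd : c.X.d y y₀ using Nat.strong_induction_on with l ih generalizing y₀
  by_cases h1 : y₀ * y⁻¹ = 1
  · rwa [mul_inv_eq_one.1 h1] at h0
  obtain ⟨v, hv, h2⟩ := κ.green _ (κ.mem_of_eq hm) h1 y
  rw [inv_mul_cancel_right] at h2
  have := κ.hN v hv
  obtain ⟨r, r1, r2, r3⟩ := κ.short (x := y) (y := y₀) hv (k := 1) (by norm_num) (by omega)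
  exact ih _ (by omega) (step _ v r h0 hv r1 r2 h2) (by rw [κ.mk_K r1, hm]) rfl

theorem bend {v x y r : G} (hv : c.In v) (hs : 5000000 * E < (c.s v x y).natAbs) (hr : Commute r v) :
    c.H.d x (r * y) ≤ c.H.d x y := hv.bend (hv.lt_D hs) hr

theorem Q_fp : κ.Q.FP 2915 := by
  apply Nm.FP_of_hyp (κ := 1457)
  intro x y z m hm
  obtain ⟨x, rfl⟩ := QuotientGroup.mk_surjective x
  obtain ⟨m₀, rfl, a1⟩ := κ.Q_lift x m
  obtain ⟨y₀, rfl, a2⟩ := κ.Q_lift m₀ y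
  obtain ⟨z₀, rfl, a3⟩ := κ.Q_lift y₀ z
  obtain ⟨x₀, a4, a5⟩ := κ.Q_lift z₀ x
  obtain ⟨m, y, z, e1, e2, e3, b1, b2, b3, b4⟩ := κ.descent (fun x' => ∃ m y z : G,
      (m : G ⧸ κ.K) = m₀ ∧ (y : G ⧸ κ.K) = y₀ ∧ (z : G ⧸ κ.K) = z₀ ∧ c.H.d x m ≤ κ.Q.d x m₀ ∧
      c.H.d m y ≤ κ.Q.d m₀ y₀ ∧ c.H.d y z ≤ κ.Q.d y₀ z₀ ∧ c.H.d z x' ≤ κ.Q.d z₀ x)
    ⟨m₀, y₀, z₀, rfl, rfl, rfl, a1.le, a2.le, a3.le, a5.le⟩ a4 (by
      rintro x' v r ⟨m, y, z, e1, e2, e3, b1, b2, b3, b4⟩ hv hr hc hs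
      have s1 := hv.s_add x m x'
      have s2 := hv.s_add m y x'
      have s3 := hv.s_add y z x'
      have := κ.hN v hv
      have := E_pos hv
      by_cases h1 : 5000000 * E < (c.s v x m).natAbs
      · exact ⟨r * m, r * y, r * z, by rwa [κ.mk_K hr], by rwa [κ.mk_K hr], by rwa [κ.mk_K hr],
          (bend hv h1 hc).trans b1, by rwa [Nm.d_mul], by rwa [Nm.d_mul], by rwa [Nm.d_mul]⟩
      by_cases h2 : 5000000 * E < (c.s v m y).natAbs
      · exact ⟨m, r * y, r * z, e1, by rwa [κ.mk_K hr], by rwa [κ.mk_K hr],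
          b1, (bend hv h2 hc).trans b2, by rwa [Nm.d_mul], by rwa [Nm.d_mul]⟩
      by_cases h3 : 5000000 * E < (c.s v y z).natAbs
      · exact ⟨m, y, r * z, e1, e2, by rwa [κ.mk_K hr],
          b1, b2, (bend hv h3 hc).trans b3, by rwa [Nm.d_mul]⟩
      exact ⟨m, y, z, e1, e2, e3, b1, b2, b3, (bend hv (by omega) hc).trans b4⟩)
  have q1 := κ.Q_le x y
  have q2 := κ.Q_le x m
  have q3 := κ.Q_le m y
  have q4 := κ.Q_le m z
  have q5 := κ.Q_le z m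
  rw [e1] at q2 q3 q4 q5
  rw [e2] at q1 q3
  rw [e3] at q4 q5
  have := c.H_fp.L1 (x := x) (m := m) (y := y) (c := 0) (by omega) z
  have := c.H.comm x z
  have := c.H.comm y z
  have := κ.Q.comm x z₀
  have := κ.Q.comm y₀ z₀
  omega

theorem iso {x y : G} (h : ∀ v, c.In v → (c.s v x y).natAbs + 5032001 * E ≤ κ.N v) :
    c.H.d x y ≤ κ.Q.d x y := by
  obtain ⟨y₀, a1, a2⟩ := κ.Q_lift x y
  refine κ.descent (fun y' => c.H.d x y' ≤ κ.Q.d x y) a2.le a1 ?_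
  intro y' v r h1 hv _ hc hs
  have := hv.s_add x y y'
  have := h v hv
  have := E_pos hv
  exact (bend hv (by omega) hc).trans h1

def GoodPath (b g : ℕ) (γ : ℕ → G) : Prop :=
  (∀ i, c.H.d (γ i) (γ (i + 1)) ≤ 1) ∧ ∀ i v, c.In v → c.D v (γ i) (γ (i + 1)) ≤ 4000 ∨
    ((b : ℤ) + g ≤ c.s v (γ i) (γ (i + 1)) + κ.N v ∧ c.s v (γ i) (γ (i + 1)) ≤ b)

theorem win_path (g : ℕ) (l : ℕ) : ∀ p q : G, c.H.d p q ≤ l → ∃ F : Finset ℕ,
    F.card ≤ l ∧ ∀ j, j ∉ F → j * g + g ≤ 100000000000000 * E →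
      ∃ γ : ℕ → G, γ 0 = p ∧ (γ l : G ⧸ κ.K) = q ∧ κ.GoodPath (j * g) g γ := by
  induction l with
  | zero =>
    intro p q h
    refine ⟨∅, le_rfl, fun j _ _ => ⟨fun _ => p, rfl, by rw [c.H.eq_of_d (Nat.le_zero.1 h)],
      by simp, fun i v _ => Or.inl (by simp [Ctx.D])⟩⟩
  | succ l ih =>
    intro p q h
    obtain ⟨m, h1, h2⟩ := c.H.split_d p q 1 l (by omega)
    obtain ⟨F, F1, F2⟩ := ih m q h2
    have first : ∃ j₀, ∀ j, j ≠ j₀ → j * g + g ≤ 100000000000000 * E → ∃ r ∈ κ.K,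
        c.H.d p (r * m) ≤ 1 ∧ ∀ v, c.In v → c.D v p (r * m) ≤ 4000 ∨
        (((j * g : ℕ) : ℤ) + g ≤ c.s v p (r * m) + κ.N v ∧ c.s v p (r * m) ≤ (j * g : ℕ)) := by
      rcases Ctx.H_le_one.1 h1 with h3 | ⟨w, h3, h4⟩
      · exact ⟨0, fun j _ _ => ⟨1, one_mem _, by simpa using h1, fun v hv => Or.inl (by
          have := hv.lip p m; rw [one_mul]; omega)⟩⟩
      obtain ⟨e, rfl⟩ := h3.ex h4
      have hw := h3.In
      have hN := κ.hN w hw
      have hE := E_pos hw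
      have hN0 : (0 : ℤ) < κ.N w := by omega
      obtain ⟨ρ, hρ⟩ := Int.eq_ofNat_of_zero_le (Int.emod_nonneg e hN0.ne')
      have hρ2 := Int.emod_lt_of_pos e hN0
      have he := Int.emod_add_mul_ediv e (κ.N w)
      refine ⟨ρ / g, fun j hj hjg => ?_⟩
      obtain ⟨t, t1, t2⟩ : ∃ t : ℤ, ((j * g : ℕ) : ℤ) + g ≤ κ.N w * t + e + κ.N w ∧
          κ.N w * t + e ≤ (j * g : ℕ) := by
        by_cases h5 : ρ < j * g
        · exact ⟨-(e / κ.N w), by rw [mul_neg]; omega, by rw [mul_neg]; omega⟩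
        · have : j * g + g ≤ ρ := by
            by_contra h6
            exact hj (Nat.div_eq_of_lt_le (by omega) (by rw [Nat.succ_mul]; omega)).symm
          refine ⟨-(e / κ.N w) - 1, ?_, ?_⟩ <;> rw [mul_sub, mul_neg] <;> omega
      have e1 : (w ^ κ.N w) ^ t * (w ^ e * p) = w ^ (κ.N w * t + e) * p := by
        rw [← zpow_natCast, ← zpow_mul, zpow_add, mul_assoc]
      refine ⟨(w ^ κ.N w) ^ t, zpow_mem (κ.hK w hw) _, ?_, fun v hv => ?_⟩
      · rw [e1]; exact h3.H_le (h3.zpow _)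
      · rw [e1]
        by_cases hvw : v = w
        · subst hvw
          right
          rw [hv.s_zpow, hv.s_self, zero_add]
          exact ⟨t1, t2⟩
        · exact Or.inl (hv.diam h3 (h3.zpow _) hvw)
    obtain ⟨j₀, hj₀⟩ := first
    refine ⟨insert j₀ F, (Finset.card_insert_le _ _).trans (by omega), fun j hj hjg => ?_⟩
    rw [Finset.mem_insert, not_or] at hj
    obtain ⟨r, r1, r2, r3⟩ := hj₀ j hj.1 hjg
    obtain ⟨γ, g0, gl, g1, g2⟩ := F2 j hj.2 hjg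
    refine ⟨fun i => Nat.casesOn i p (fun i => r * γ i), rfl, by
      simp only; rwa [κ.mk_K r1], ?_, ?_⟩
    · intro i
      cases i with
      | zero => simpa [g0] using r2
      | succ i => simpa using g1 i
    · intro i v hv
      cases i with
      | zero => rw [← g0] at r3; exact r3 v hv
      | succ i =>
        have := g2 i _ (hv.conj' r)
        simp only
        rwa [Ctx.D_mul, hv.s_mul, ← κ.hNc v r hv]

def Win (p q : G) : Prop := ∀ v g, c.In v →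
  (c.s (g⁻¹ * v * g) p q - c.s v p q).natAbs + 10032001 * E ≤ κ.N v

theorem win (p : G) (q : G ⧸ κ.K) (hq : κ.Q.d p q ≤ 1400000) :
    ∃ q' : G, (q' : G ⧸ κ.K) = q ∧ κ.Win p q' := by
  obtain ⟨q, rfl, h1⟩ := κ.Q_lift p q
  rcases Nat.eq_zero_or_pos E with hE | hE
  · exact ⟨q, rfl, fun v g hv => absurd (E_pos hv) (by omega)⟩
  obtain ⟨F, F1, F2⟩ := κ.win_path (31000000 * E) _ p q le_rfl
  obtain ⟨j, j1, j2⟩ := Finset.exists_mem_notMem_of_card_lt_card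
    (show F.card < (Finset.range (c.H.d p q + 1)).card by simp; omega)
  rw [Finset.mem_range] at j1
  have j3 := Nat.mul_le_mul_right (31000000 * E) (show j ≤ 1400000 by omega)
  obtain ⟨γ, g0, gl, g1, g2⟩ := F2 j j2 (by omega)
  generalize j * (31000000 * E) = b at *
  have hl : c.H.d (γ 0) (γ (c.H.d p q)) = c.H.d p q := by
    have := c.H.path_d' g1 (Nat.zero_le (c.H.d p q))
    have h2 := κ.Q_le (γ 0) (γ (c.H.d p q))
    rw [gl, g0] at h2
    rw [g0] at this ⊢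
    omega
  generalize c.H.d p q = l at *
  subst g0
  have key : ∀ v, c.In v → (b : ℤ) + 21000000 * E ≤ c.s v (γ 0) (γ l) + κ.N v ∧
      c.s v (γ 0) (γ l) ≤ b + 10000000 * E := by
    intro v hv
    have := κ.hN v hv
    by_cases hD : c.D v (γ 0) (γ l) ≤ 5000000
    · have := hv.s_le hD; omega
    obtain ⟨i, i1, i2⟩ := hv.exists_edge g1 hl (not_le.1 hD)
    obtain ⟨y1, y2⟩ := hv.edge (g1 i) i2
    have left := hv.bgi g1 hl (Nat.zero_le i) i1.le (fun t _ t2 => by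
      by_contra hc
      have := (hv.edge (g1 t) (not_le.1 hc)).1.H_le y2
      have := c.H.geo_d g1 hl (show t ≤ i + 1 by omega) i1
      omega)
    have right := hv.bgi g1 hl (p := i + 1) i1 le_rfl (fun t t1 t2 => by
      by_contra hc
      have := y1.H_le (hv.edge (g1 t) (not_le.1 hc)).2
      have := c.H.geo_d g1 hl (show i ≤ t + 1 by omega) t2
      omega)
    have := hv.s_le left
    have := hv.s_le right
    have := hv.s_add (γ 0) (γ i) (γ l)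
    have := hv.s_add (γ i) (γ (i + 1)) (γ l)
    rcases g2 i v hv with h | h
    · omega
    · omega
  refine ⟨γ l, gl, fun v g hv => ?_⟩
  have h2 := key v hv
  have h3 := key _ (hv.conj' g)
  rw [κ.hNc v g hv] at h3
  omega

theorem lift_two {p q : G} (hw : κ.Win p q) (u : G ⧸ κ.K) {C : ℕ} (hp : κ.Q.d p (u * p) ≤ C)
    (hq : κ.Q.d q (u * q) ≤ C) :
    ∃ u' : G, (u' : G ⧸ κ.K) = u ∧ c.H.d p (u' * p) ≤ C ∧ c.H.d q (u' * q) ≤ C := by
  obtain ⟨p', a1, a2⟩ := κ.Q_lift p (u * p)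
  have a3 : ((p' * p⁻¹ : G) : G ⧸ κ.K) = u := by rw [QuotientGroup.mk_mul, a1]; simp
  obtain ⟨q', a4, a5⟩ := κ.Q_lift (p' * p⁻¹ * q) q
  rw [QuotientGroup.mk_mul, a3, κ.Q.comm] at a5
  obtain ⟨u', h1, h2, h3⟩ := κ.descent (fun q' => ∃ u' : G, (u' : G ⧸ κ.K) = u ∧
      c.H.d p (u' * p) ≤ C ∧ c.H.d (u' * q) q' ≤ C)
    ⟨p' * p⁻¹, a3, by simpa using a2.le.trans hp, a5.le.trans hq⟩ a4 (by
      rintro q' v r ⟨u', h1, h2, h3⟩ hv hr hc hs
      have s1 := hv.s_add q p q'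
      have s2 := hv.s_add p (u' * p) q'
      have s3 := hv.s_add (u' * p) (u' * q) q'
      have s4 := hv.s_neg p q
      have s5 := hv.s_mul u' p q
      have := hw v u' hv
      have := E_pos hv
      by_cases h4 : 5000000 * E < (c.s v p (u' * p)).natAbs
      · exact ⟨r * u', by rwa [κ.mk_K hr], by rw [mul_assoc]; exact (bend hv h4 hc).trans h2,
          by rwa [mul_assoc, Nm.d_mul]⟩
      · exact ⟨u', h1, h2, (bend hv (by omega) hc).trans h3⟩)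
  exact ⟨u', h1, h2, by rwa [c.H.comm]⟩

end Kill

namespace Ctx

variable {c : Ctx G E n}

theorem deep_move {p q u w : G} (hp : c.H.d p (u * p) ≤ 53000) (hq : c.H.d q (u * q) ≤ 53000)
    (hw : c.X.d p w + c.X.d w q = c.X.d p q) (h1 : 53253 ≤ c.H.d p w) (h2 : 53253 ≤ c.H.d w q) :
    c.X.d p (u * w) + c.X.d (u * w) q ≤ c.X.d p q + 4 ∧
    c.X.d p w + c.X.d p (u * q) ≤ c.X.d p (u * w) + c.X.d p q ∧
    c.X.d p (u * w) + c.X.d p q ≤ c.X.d p w + c.X.d p (u * q) + 2 := by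
  have b : c.X.d (u * p) (u * w) + c.X.d (u * w) (u * q) ≤ c.X.d (u * p) (u * q) + 0 := by
    simp only [Nm.d_mul]; omega
  have := c.H.comm p (u * p)
  rcases c.fp.L1 b p with h3 | h3
  · have := KR h3
    rw [Nm.d_mul] at this; omega
  rcases c.fp.L1 h3 q with h4 | h4
  · have := c.X.tri p (u * w) (u * q)
    simp only [Nm.d_mul] at *
    omega
  · have := KR h4
    rw [Nm.d_mul] at this; omega

theorem h4hat {p q u₁ u₂ : G} (hp : c.H.d p (u₁ * p) ≤ 53000) (hq : c.H.d q (u₁ * q) ≤ 53000)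
    (hp' : c.H.d p (u₂ * p) ≤ 53000) (hq' : c.H.d q (u₂ * q) ≤ 53000)
    (hpq : 1400000 ≤ c.H.d p q) : Commute u₁ u₂ := by
  wlog ht : ((c.X.d p (u₂ * q) : ℤ) - c.X.d p q).natAbs ≤ ((c.X.d p (u₁ * q) : ℤ) - c.X.d p q).natAbs
    generalizing u₁ u₂
  · exact (this hp' hq' hp hq (by omega)).symm
  obtain ⟨t, ht'⟩ : ∃ t : ℤ, t = (c.X.d p (u₁ * q) : ℤ) - c.X.d p q := ⟨_, rfl⟩
  rw [← ht'] at ht
  have disp : ∀ w, c.X.d p w + c.X.d w q = c.X.d p q → 53253 ≤ c.H.d p w → 53253 ≤ c.H.d w q →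
      c.X.d w (u₁ * w) ≤ t.natAbs + 8 ∧ c.X.d w (u₂ * w) ≤ t.natAbs + 8 := by
    intro w hw h1 h2
    obtain ⟨a1, a2, a3⟩ := deep_move hp hq hw h1 h2
    obtain ⟨b1, b2, b3⟩ := deep_move hp' hq' hw h1 h2
    have := c.fp.L2 (c := 0) hw.le a1
    have := c.fp.L2 (c := 0) hw.le b1
    omega
  have pt : ∀ M, M ≤ 700000 → ∃ w, c.X.d p w + c.X.d w q = c.X.d p q ∧ c.H.d p w = M ∧
      700000 ≤ c.H.d w q := by
    intro M hM
    obtain ⟨w, w1, w2, w3⟩ := c.exit p q M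
    have := c.H.tri p w q
    rcases w3 with rfl | w3
    · omega
    · exact ⟨w, w1, w3, by omega⟩
  obtain ⟨w₀, a1, a2, a3⟩ := pt 660000 (by norm_num)
  obtain ⟨w₁, b1, b2, b3, b4⟩ : ∃ w, c.X.d p w + c.X.d w q = c.X.d p q ∧ 53253 ≤ c.H.d p w ∧
      53253 ≤ c.H.d w q ∧ 332 + 10 * (t.natAbs + 8) ≤ c.X.d w₀ w := by
    by_cases hs : t.natAbs < 500
    · obtain ⟨w, w1, w2, w3⟩ := pt 666000 (by norm_num)
      have := c.H_le w₀ w
      have := c.H.tri p w₀ w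
      exact ⟨w, w1, by omega, by omega, by omega⟩
    have it : ∀ i : ℕ, i ≤ 11 → ∃ w, c.X.d p w + c.X.d w q = c.X.d p q ∧ c.H.d w₀ w ≤ 55000 * i ∧
        ((c.X.d p w : ℤ) - c.X.d p w₀ - i * t).natAbs ≤ 8 * i := by
      intro i
      induction i with
      | zero => exact fun _ => ⟨w₀, a1, by simp, by simp⟩
      | succ i ih =>
        intro hi
        obtain ⟨w, w1, w2, w3⟩ := ih (by omega)
        have := c.H.tri'' p w w₀
        have := c.H.tri w₀ w q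
        obtain ⟨d1, d2, d3⟩ := deep_move hp hq w1 (by omega) (by omega)
        obtain ⟨w', e1, e2⟩ := c.fp.near d1
        have := c.H_fp.disp (KR (k := 0) w1.le) hp hq
        have := c.H_le (u₁ * w) w'
        have := c.H.tri w₀ w w'
        have := c.H.tri w (u₁ * w) w'
        have := c.X.tri p (u₁ * w) w'
        have := c.X.tri'' p w' (u₁ * w)
        refine ⟨w', e1, by omega, ?_⟩
        rw [Nat.cast_succ, add_mul]
        omega
    obtain ⟨w, w1, w2, w3⟩ := it 11 le_rfl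
    have := c.H.tri'' p w w₀
    have := c.H.tri w₀ w q
    have := c.X.tri p w₀ w
    have := c.X.tri'' p w w₀
    exact ⟨w, w1, by omega, by omega, by omega⟩
  obtain ⟨d1, d2⟩ := disp w₀ a1 (by omega) (by omega)
  obtain ⟨d3, d4⟩ := disp w₁ b1 b2 b3
  exact c.st.h4p _ u₁ u₂ w₀ w₁ d1 d3 d2 d4 b4

end Ctx

theorem Kill.Q_h4 {c : Ctx G E n} (κ : Kill c) : κ.Q.H4 50000 1400000 := by
  intro u₁ u₂ p q h1 h2 h3 h4 h5
  obtain ⟨p, rfl⟩ := QuotientGroup.mk_surjective p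
  obtain ⟨m, m1, m2⟩ := κ.Q.exists_between p q _ h5
  have d1 := κ.Q_fp.disp (c := 0) m2.le h1 h2
  have d2 := κ.Q_fp.disp (c := 0) m2.le h3 h4
  obtain ⟨m, rfl, hw⟩ := κ.win p m m1.le
  obtain ⟨u₁, rfl, a1, a2⟩ := κ.lift_two hw u₁ (C := 53000) (by omega) (by omega)
  obtain ⟨u₂, rfl, b1, b2⟩ := κ.lift_two hw u₂ (C := 53000) (by omega) (by omega)
  exact (Ctx.h4hat a1 a2 b1 b2 (m1 ▸ κ.Q_le p m)).map (QuotientGroup.mk' κ.K)

end Pool.Agent.Burnside6
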