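import Pool.Agent.Burnside6.Comm

set_option autoImplicit false

namespace Pool.Agent.Burnside6

variable {G : Type} [Group G]

/-- the inductive hypothesis -/
structure Stage (X : Nm G) (E n : ℕ) : Prop where
  fp : X.FP 2
  odd : Odd n
  h2 : ∀ g : G, g ^ n = 1 ∨ 1 ≤ E * X.τ g
  ell : ∀ e : G, e ≠ 1 → e ^ n = 1 → ∃ w : G, w ^ n = 1 ∧ ∀ g, Commute g e → g ∈ Subgroup.zpowers w
  csaa : CSAa G
  csab : CSAb G
  h4 : X.H4 30 310

theorem Stage.he {X : Nm G} {E n : ℕ} (h : Stage X E n) (e g : G) (h1 : e ≠ 1) (h2 : e ^ n = 1)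
    (h3 : Commute e g) : g ^ n = 1 := by
  obtain ⟨w, hw, hw'⟩ := h.ell e h1 h2
  obtain ⟨j, rfl⟩ := hw' g h3.symm
  simp only
  rw [← zpow_natCast, ← zpow_mul, mul_comm, zpow_mul, zpow_natCast, hw, one_zpow]

theorem Stage.pos {X : Nm G} {E : ℕ} {g : G} (h : 1 ≤ E * X.τ g) : 0 < X.τ g := by
  rcases (X.tau_nonneg g).eq_or_lt with h1 | h1
  · rw [← h1] at h; norm_num at h
  · exact h1

theorem Stage.h2' {X : Nm G} {E n : ℕ} (h : Stage X E n) (g : G) : g ^ n = 1 ∨ 0 < X.τ g :=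
  (h.h2 g).imp id Stage.pos

theorem Stage.lox {X : Nm G} {E n : ℕ} (h : Stage X E n) {g : G} (hg : 0 < X.τ g) :
    1 ≤ E * X.τ g := by
  rcases h.h2 g with h1 | h1
  · have := X.tau_eq_zero h.odd.pos h1; linarith
  · exact h1

theorem Stage.h4p {X : Nm G} {E n : ℕ} (h : Stage X E n) (L : ℕ) : X.H4 L (332 + 10 * L) :=
  (h.fp.h4plus h.h4 (by norm_num) h.csaa h.csab L).mono le_rfl (by omega)

/-- a stage together with representatives of the short primitive elements -/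
structure Ctx (G : Type) [Group G] (E n : ℕ) where
  X : Nm G
  st : Stage X E n
  P : Set G
  pos : ∀ u ∈ P, 0 < X.τ u
  le : ∀ u ∈ P, X.τ u ≤ 1
  good : ∀ u ∈ P, ∀ j : ℤ, (X.ν (u ^ j) : ℝ) ≤ X.τ (u ^ j) + 16
  cent : ∀ u ∈ P, ∀ a, Commute a u → a ∈ Subgroup.zpowers u
  uniq : ∀ u ∈ P, ∀ u' ∈ P, ∀ g, Commute (g * u * g⁻¹) u' → u = u'
  full : ∀ g, g ^ n = 1 ∨ (∃ u ∈ P, ∃ y, g ∈ Subgroup.zpowers (y * u * y⁻¹)) ∨ 1 < X.τ g

theorem conj_zpow' (a b : G) (j : ℤ) : (a⁻¹ * b * a) ^ j = a⁻¹ * b ^ j * a := by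
  simpa using conj_zpow (a := a⁻¹) (b := b) (i := j)

theorem cent_conj {u : G} (h : ∀ a, Commute a u → a ∈ Subgroup.zpowers u) (g a : G)
    (ha : Commute a (g * u * g⁻¹)) : a ∈ Subgroup.zpowers (g * u * g⁻¹) := by
  have : Commute (g⁻¹ * a * g) u := by
    have h1 := ha.eq
    change g⁻¹ * a * g * u = u * (g⁻¹ * a * g)
    calc g⁻¹ * a * g * u = g⁻¹ * (a * (g * u * g⁻¹)) * g := by group
      _ = _ := by rw [h1]; group
  obtain ⟨j, hj⟩ := h _ this
  refine ⟨j, ?_⟩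
  simp only at hj ⊢
  rw [conj_zpow, hj]; group

theorem Stage.exists_ctx {X : Nm G} {E n : ℕ} (h : Stage X E n) : ∃ c : Ctx G E n, c.X = X := by
  classical
  let Prim : G → Prop := fun u =>
    0 < X.τ u ∧ X.τ u ≤ 1 ∧ ∀ a, Commute a u → a ∈ Subgroup.zpowers u
  let r : G → G → Prop := fun u w => ∃ g, w = g * u * g⁻¹ ∨ w = g * u⁻¹ * g⁻¹
  let Gd : G → Prop := fun w => ∀ v, Commute v w → (X.ν v : ℝ) ≤ X.τ v + 16
  let rep : G → G := fun u => Classical.epsilon (fun w => r u w ∧ Gd w)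
  have rsymm : ∀ u w, r u w → r w u := by
    rintro u w ⟨g, rfl | rfl⟩
    · exact ⟨g⁻¹, Or.inl (by group)⟩
    · exact ⟨g⁻¹, Or.inr (by group)⟩
  have rtrans : ∀ u w z, r u w → r w z → r u z := by
    rintro u w z ⟨g, rfl | rfl⟩ ⟨g', rfl | rfl⟩
    · exact ⟨g' * g, Or.inl (by group)⟩
    · exact ⟨g' * g, Or.inr (by group)⟩
    · exact ⟨g' * g, Or.inr (by group)⟩
    · exact ⟨g' * g, Or.inl (by group)⟩
  have rprim : ∀ u w, r u w → Prim u → Prim w := by
    rintro u w ⟨g, rfl | rfl⟩ ⟨h1, h2, h3⟩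
    · exact ⟨by rwa [X.tau_conj], by rwa [X.tau_conj], cent_conj h3 g⟩
    · refine ⟨by rwa [X.tau_conj, X.tau_inv], by rwa [X.tau_conj, X.tau_inv], cent_conj ?_ g⟩
      intro a ha
      rw [Subgroup.zpowers_inv]
      exact h3 a (by simpa using ha)
  have spec : ∀ u, Prim u → r u (rep u) ∧ Gd (rep u) := by
    intro u hu
    apply Classical.epsilon_spec (p := fun w => r u w ∧ Gd w)
    obtain ⟨N, x, -, hd⟩ := h.fp.exists_deep hu.1
    refine ⟨x⁻¹ * u * x⁻¹⁻¹, ⟨x⁻¹, Or.inl rfl⟩, ?_⟩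
    intro v hv
    have hc : Commute (x * v * x⁻¹) u := by
      have h1 := hv.eq
      change x * v * x⁻¹ * u = u * (x * v * x⁻¹)
      calc x * v * x⁻¹ * u = x * (v * (x⁻¹ * u * x⁻¹⁻¹)) * x⁻¹ := by group
        _ = _ := by rw [h1]; group
    have := h.fp.deep_disp hd (hc.pow_right N)
    rw [X.tau_conj] at this
    simpa [Nm.d, mul_assoc] using this
  have repeq : ∀ u w, r u w → rep u = rep w := by
    intro u w huw
    have : (fun z => r u z ∧ Gd z) = (fun z => r w z ∧ Gd z) := by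
      funext z
      exact propext ⟨fun ⟨a, b⟩ => ⟨rtrans _ _ _ (rsymm _ _ huw) a, b⟩,
        fun ⟨a, b⟩ => ⟨rtrans _ _ _ huw a, b⟩⟩
    simp only [rep, this]
  refine ⟨⟨X, h, {w | ∃ u, Prim u ∧ w = rep u}, ?_, ?_, ?_, ?_, ?_, ?_⟩, rfl⟩
  · rintro _ ⟨u, hu, rfl⟩; exact (rprim _ _ (spec u hu).1 hu).1
  · rintro _ ⟨u, hu, rfl⟩; exact (rprim _ _ (spec u hu).1 hu).2.1
  · rintro _ ⟨u, hu, rfl⟩ j; exact (spec u hu).2 _ ((Commute.refl _).zpow_left j)
  · rintro _ ⟨u, hu, rfl⟩; exact (rprim _ _ (spec u hu).1 hu).2.2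
  · rintro _ ⟨u, hu, rfl⟩ _ ⟨u', hu', rfl⟩ g hg
    have p1 := rprim _ _ (spec u hu).1 hu
    have p2 := rprim _ _ (spec u' hu').1 hu'
    obtain ⟨i, hi⟩ := p2.2.2 _ hg
    obtain ⟨j, hj⟩ := cent_conj p1.2.2 g _ hg.symm
    simp only at hi hj
    have e : (rep u') ^ (i * j - 1) = 1 := by
      rw [zpow_sub, zpow_mul, hi, hj]; simp
    have e2 := X.zpow_eq_one_of_tau p2.1 e
    have hr : r (rep u) (rep u') := by
      rcases Int.eq_one_or_neg_one_of_mul_eq_one' (show i * j = 1 by omega) with ⟨-, rfl⟩ | ⟨-, rfl⟩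
      · exact ⟨g, Or.inl (by rw [← hj]; simp)⟩
      · exact ⟨g, Or.inr (by rw [← hj]; group)⟩
    exact repeq _ _ (rtrans _ _ _ (rtrans _ _ _ (spec u hu).1 hr) (rsymm _ _ (spec u' hu').1))
  · intro g
    rcases h.h2' g with h1 | h1
    · exact Or.inl h1
    by_cases h2 : 1 < X.τ g
    · exact Or.inr (Or.inr h2)
    right; left
    obtain ⟨u, hu, hu'⟩ := h.fp.root h.odd.pos h.h2 h.he h.csaa h1
    obtain ⟨j, hj⟩ := hu' g (Commute.refl g)
    simp only at hj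
    have e := X.tau_zpow u j
    rw [hj] at e
    have hj0 : j ≠ 0 := by rintro rfl; simp at e; linarith
    have hj1 : (1 : ℝ) ≤ |(j : ℝ)| := by
      rw [← Int.cast_abs]; exact_mod_cast Int.one_le_abs hj0
    have u0 := X.tau_nonneg u
    have hp : Prim u := by
      refine ⟨?_, by nlinarith, fun a ha => hu' a (hj ▸ ha.zpow_right j)⟩
      rcases u0.eq_or_lt with h3 | h3
      · rw [← h3] at e; simp at e; linarith
      · exact h3
    obtain ⟨y, hy | hy⟩ := rsymm _ _ (spec u hp).1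
    · exact ⟨rep u, ⟨u, hp, rfl⟩, y, j, by simp only; rw [← hy, hj]⟩
    · refine ⟨rep u, ⟨u, hp, rfl⟩, y, -j, ?_⟩
      simp only
      rw [← hj]
      conv_rhs => rw [hy]
      rw [conj_zpow, conj_zpow]; simp

namespace Ctx

variable {E n : ℕ} (c : Ctx G E n)

def Y (v y : G) : Prop := y⁻¹ * v * y ∈ c.P

def In (v : G) : Prop := ∃ y, c.Y v y

open Classical in
noncomputable def π (v x : G) : G :=
  x * (if h : c.In (x⁻¹ * v * x) then Function.argminOn c.X.ν {y | c.Y (x⁻¹ * v * x) y} h else 1)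

noncomputable def s (v x y : G) : ℤ := Classical.epsilon (fun j : ℤ => c.π v y = v ^ j * c.π v x)

noncomputable def D (v x y : G) : ℕ := c.X.d (c.π v x) (c.π v y)

variable {c}

theorem fp (c : Ctx G E n) : c.X.FP 2 := c.st.fp

theorem Y_mul {v g y : G} : c.Y v (g * y) ↔ c.Y (g⁻¹ * v * g) y := by
  unfold Y; simp [mul_assoc]

theorem Y_conj {v g y : G} : c.Y (g * v * g⁻¹) (g * y) ↔ c.Y v y := by
  unfold Y; simp [mul_assoc]

theorem In.conj {v : G} (h : c.In v) (g : G) : c.In (g * v * g⁻¹) := by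
  obtain ⟨y, hy⟩ := h
  exact ⟨g * y, Y_conj.2 hy⟩

theorem In.conj' {v : G} (h : c.In v) (g : G) : c.In (g⁻¹ * v * g) := by
  simpa using h.conj g⁻¹

theorem Y.In {v y : G} (h : c.Y v y) : c.In v := ⟨y, h⟩

theorem Y.comm {v y g : G} (h : c.Y v y) (hg : Commute g v) : c.Y v (g * y) := by
  rw [Y_mul, mul_assoc, ← hg.eq]; simpa using h

theorem Y.zpow {v y : G} (h : c.Y v y) (j : ℤ) : c.Y v (v ^ j * y) :=
  h.comm ((Commute.refl v).zpow_left j)

theorem In.pos {v : G} (h : c.In v) : 0 < c.X.τ v := by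
  obtain ⟨y, hy⟩ := h
  have := c.pos _ hy
  rwa [c.X.tau_conj'] at this

theorem In.le {v : G} (h : c.In v) : c.X.τ v ≤ 1 := by
  obtain ⟨y, hy⟩ := h
  have := c.le _ hy
  rwa [c.X.tau_conj'] at this

theorem In.lox {v : G} (h : c.In v) : 1 ≤ E * c.X.τ v := c.st.lox h.pos

theorem In.ne_one {v : G} (h : c.In v) : v ≠ 1 := c.X.ne_one_of_tau h.pos

theorem In.cent {v a : G} (h : c.In v) (ha : Commute a v) : ∃ j : ℤ, a = v ^ j := by
  obtain ⟨y, hy⟩ := h
  have := cent_conj (c.cent _ hy) y a (by simpa [mul_assoc] using ha)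
  obtain ⟨j, hj⟩ := this
  exact ⟨j, by simpa [mul_assoc] using hj.symm⟩

theorem In.eq {v w : G} (h : c.In v) (h' : c.In w) (hc : Commute v w) : v = w := by
  obtain ⟨y, hy⟩ := h
  obtain ⟨z, hz⟩ := h'
  have e : (z⁻¹ * y) * (y⁻¹ * v * y) * (z⁻¹ * y)⁻¹ = z⁻¹ * v * z := by group
  have hc' : Commute ((z⁻¹ * y) * (y⁻¹ * v * y) * (z⁻¹ * y)⁻¹) (z⁻¹ * w * z) := by
    rw [e]
    change z⁻¹ * v * z * (z⁻¹ * w * z) = z⁻¹ * w * z * (z⁻¹ * v * z)
    calc _ = z⁻¹ * (v * w) * z := by group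
      _ = _ := by rw [hc.eq]; group
  have h1 := c.uniq _ hy _ hz _ hc'
  rw [← h1] at hc'
  have h2 := (c.st.csab _ _ hc').eq
  rw [h2, mul_inv_cancel_right, h1] at e
  simpa using e.symm

theorem Y.ex {v y y' : G} (h : c.Y v y) (h' : c.Y v y') : ∃ j : ℤ, y' = v ^ j * y := by
  have e : (y'⁻¹ * y) * (y⁻¹ * v * y) * (y'⁻¹ * y)⁻¹ = y'⁻¹ * v * y' := by group
  have h1 := c.uniq _ h _ h' (y'⁻¹ * y) (by rw [e])
  have : Commute (y' * y⁻¹) v := by
    change y' * y⁻¹ * v = v * (y' * y⁻¹)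
    calc _ = y' * (y⁻¹ * v * y) * y⁻¹ := by group
      _ = _ := by rw [h1]; group
  obtain ⟨j, hj⟩ := h.In.cent this
  exact ⟨j, by rw [← hj]; group⟩

theorem Y.bounds {v y : G} (h : c.Y v y) (j : ℤ) :
    |(j : ℝ)| * c.X.τ v ≤ c.X.d y (v ^ j * y) ∧
      (c.X.d y (v ^ j * y) : ℝ) ≤ |(j : ℝ)| * c.X.τ v + 16 := by
  refine ⟨by rw [← c.X.tau_zpow]; exact c.X.tau_le_one _ _, ?_⟩
  have := c.good _ h j
  rw [c.X.tau_zpow, c.X.tau_conj'] at this
  have e : (y⁻¹ * v * y) ^ j = y⁻¹ * (v ^ j * y) := by rw [conj_zpow', mul_assoc]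
  rwa [e] at this

theorem Y.step {v y : G} (h : c.Y v y) : c.X.d y (v * y) ≤ 17 := by
  have := (h.bounds 1).2
  have := h.In.le
  simp only [zpow_one, Int.cast_one, abs_one, one_mul] at *
  have : (c.X.d y (v * y) : ℝ) ≤ 17 := by linarith
  exact_mod_cast this

theorem In.π_Y {v : G} (h : c.In v) (x : G) : c.Y v (c.π v x) := by
  unfold π
  rw [dif_pos (h.conj' x), Y_mul]
  exact Function.argminOn_mem c.X.ν {y | c.Y (x⁻¹ * v * x) y} _

theorem Y.π_le {v y : G} (h : c.Y v y) (x : G) : c.X.d x (c.π v x) ≤ c.X.d x y := by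
  unfold π
  rw [dif_pos (h.In.conj' x)]
  simp only [Nm.d, inv_mul_cancel_left]
  apply Function.argminOn_le c.X.ν {y | c.Y (x⁻¹ * v * x) y}
  change c.Y _ _
  rw [← Y_mul]; simpa using h

theorem Y.π_eq {v y : G} (h : c.Y v y) : c.π v y = y := by
  have := h.π_le y
  rw [Nm.d_self] at this
  exact (c.X.eq_of_d (Nat.le_zero.1 this)).symm

theorem π_mul (v g x : G) : c.π v (g * x) = g * c.π (g⁻¹ * v * g) x := by
  unfold π
  rw [show (g * x)⁻¹ * v * (g * x) = x⁻¹ * (g⁻¹ * v * g) * x by group, mul_assoc]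

theorem π_comm {v g : G} (h : Commute g v) (x : G) : c.π v (g * x) = g * c.π v x := by
  rw [π_mul, mul_assoc, ← h.eq]; simp

theorem In.s_spec {v : G} (h : c.In v) (x y : G) : c.π v y = v ^ (c.s v x y) * c.π v x :=
  Classical.epsilon_spec (p := fun j : ℤ => c.π v y = v ^ j * c.π v x) ((h.π_Y x).ex (h.π_Y y))

theorem In.s_eq {v : G} (h : c.In v) {x y : G} {j : ℤ} (hj : c.π v y = v ^ j * c.π v x) :
    c.s v x y = j := by
  have h1 := h.s_spec x y
  rw [hj, mul_left_inj] at h1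
  have : v ^ (j - c.s v x y) = 1 := by rw [zpow_sub, h1]; simp
  have := c.X.zpow_eq_one_of_tau h.pos this
  omega

theorem In.s_add {v : G} (h : c.In v) (x y z : G) : c.s v x z = c.s v x y + c.s v y z := by
  apply h.s_eq
  rw [h.s_spec y z, h.s_spec x y]; group

theorem In.s_self {v : G} (h : c.In v) (x : G) : c.s v x x = 0 := h.s_eq (by simp)

theorem In.s_neg {v : G} (h : c.In v) (x y : G) : c.s v y x = - c.s v x y := by
  have := h.s_add x y x
  rw [h.s_self] at this; omega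

theorem In.s_mul {v : G} (h : c.In v) (g x y : G) :
    c.s v (g * x) (g * y) = c.s (g⁻¹ * v * g) x y := by
  apply h.s_eq
  rw [π_mul, π_mul, (h.conj' g).s_spec x y]
  generalize c.s (g⁻¹ * v * g) x y = j
  generalize c.π (g⁻¹ * v * g) x = z
  rw [conj_zpow']; group

theorem In.s_zpow {v : G} (h : c.In v) (x y : G) (j : ℤ) :
    c.s v x (v ^ j * y) = c.s v x y + j := by
  apply h.s_eq
  rw [π_comm ((Commute.refl v).zpow_left j), h.s_spec x y]; group

theorem D_mul (v g x y : G) : c.D v (g * x) (g * y) = c.D (g⁻¹ * v * g) x y := by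
  unfold D; rw [π_mul, π_mul, Nm.d_mul]

theorem D_comm (v x y : G) : c.D v x y = c.D v y x := c.X.comm _ _

theorem D_tri (v x y z : G) : c.D v x z ≤ c.D v x y + c.D v y z := c.X.tri _ _ _

theorem dπ_mul (v g x : G) : c.X.d (g * x) (c.π v (g * x)) = c.X.d x (c.π (g⁻¹ * v * g) x) := by
  rw [π_mul, Nm.d_mul]

theorem In.D_bounds {v : G} (h : c.In v) (x y : G) :
    ((c.s v x y).natAbs : ℝ) * c.X.τ v ≤ c.D v x y ∧
      (c.D v x y : ℝ) ≤ (c.s v x y).natAbs * c.X.τ v + 16 := by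
  have := (h.π_Y x).bounds (c.s v x y)
  rw [← h.s_spec x y] at this
  rw [Nat.cast_natAbs, Int.cast_abs]
  exact this

theorem In.cmp {v : G} (h : c.In v) {x y x' y' : G} {k : ℕ} (hk : c.D v x y ≤ c.D v x' y' + k) :
    (c.s v x y).natAbs ≤ (c.s v x' y').natAbs + (k + 16) * E := by
  have h1 := (h.D_bounds x y).1
  have h2 := (h.D_bounds x' y').2
  have h3 := h.lox
  have h4 : (c.D v x y : ℝ) ≤ c.D v x' y' + k := by exact_mod_cast hk
  by_contra hc
  have h5 : ((c.s v x' y').natAbs : ℝ) + (k + 16) * E < (c.s v x y).natAbs := by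
    exact_mod_cast not_le.1 hc
  have := h.pos
  have hk0 : (0 : ℝ) ≤ k + 16 := by positivity
  nlinarith

theorem In.s_le {v : G} (h : c.In v) {x y : G} {k : ℕ} (hk : c.D v x y ≤ k) :
    (c.s v x y).natAbs ≤ k * E := by
  have h1 := (h.D_bounds x y).1
  have h3 := h.lox
  have h4 : (c.D v x y : ℝ) ≤ k := by exact_mod_cast hk
  by_contra hc
  have h5 : (k : ℝ) * E < (c.s v x y).natAbs := by exact_mod_cast not_le.1 hc
  have := h.pos
  have hk0 : (0 : ℝ) ≤ k := by positivity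
  nlinarith

theorem In.lt_D {v : G} (h : c.In v) {x y : G} {k : ℕ} (hk : k * E < (c.s v x y).natAbs) :
    k < c.D v x y := by
  by_contra hc
  have := h.s_le (not_lt.1 hc)
  omega

theorem Y.Pa {v y : G} (h : c.Y v y) (x : G) :
    c.X.d x (c.π v x) + c.X.d (c.π v x) y ≤ c.X.d x y + 85 := by
  have hp := h.In.π_Y x
  have hmin := fun z (hz : c.Y v z) => hz.π_le x
  generalize c.π v x = p at *
  obtain ⟨j, rfl⟩ := hp.ex h
  obtain ⟨ε, m, hε, rfl⟩ : ∃ (ε : ℤ) (m : ℕ), (ε = 1 ∨ ε = -1) ∧ j = ε * m := by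
    obtain ⟨m, rfl | rfl⟩ := Int.eq_nat_or_neg j
    · exact ⟨1, m, Or.inl rfl, by simp⟩
    · exact ⟨-1, m, Or.inr rfl, by simp⟩
  have habs : ∀ i : ℕ, |((ε * i : ℤ) : ℝ)| = i := by
    intro i; rcases hε with rfl | rfl <;> simp
  by_cases hb : c.X.d p (v ^ (ε * m) * p) ≤ 34
  · have := hmin _ h; omega
  obtain ⟨i, hi, h1, h2⟩ := Nm.ivt (f := fun i : ℕ => c.X.d p (v ^ (ε * i) * p)) (L := 17) (t := 35)
    (j := m) (fun i => by
      have t := c.X.tri p (v ^ (ε * i) * p) (v ^ (ε * (i + 1 : ℕ)) * p)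
      have e : v ^ (ε * (i + 1 : ℕ)) * p = v ^ ε * (v ^ (ε * i) * p) := by push_cast; group
      have s := (hp.zpow (ε * i)).step
      have : c.X.d (v ^ (ε * i) * p) (v ^ ε * (v ^ (ε * i) * p)) ≤ 17 := by
        rcases hε with rfl | rfl
        · simpa using s
        · rw [zpow_neg_one, Nm.d_inv_self]; exact s
      rw [e] at t ⊢
      omega) (by simp) (by omega)
  obtain ⟨l, rfl⟩ := Nat.exists_eq_add_of_le hi
  have b1 := (hp.bounds (ε * i)).2
  have b2 := ((hp.zpow (ε * i)).bounds (ε * l)).2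
  have b3 := (hp.bounds (ε * (i + l : ℕ))).1
  have e : v ^ (ε * l) * (v ^ (ε * i) * p) = v ^ (ε * (i + l : ℕ)) * p := by push_cast; group
  rw [habs] at b1 b2 b3
  rw [e] at b2
  have b : c.X.d p (v ^ (ε * i) * p) + c.X.d (v ^ (ε * i) * p) (v ^ (ε * (i + l : ℕ)) * p) ≤
      c.X.d p (v ^ (ε * (i + l : ℕ)) * p) + 32 := by
    have : (c.X.d p (v ^ (ε * i) * p) : ℝ) + c.X.d (v ^ (ε * i) * p) (v ^ (ε * (i + l : ℕ)) * p) ≤
      c.X.d p (v ^ (ε * (i + l : ℕ)) * p) + 32 := by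
      rw [Nat.cast_add i l] at b3; linarith
    exact_mod_cast this
  have l1 := c.fp.L1 b x
  have := hmin _ (hp.zpow (ε * i))
  have := c.X.tri p (v ^ (ε * i) * p) (v ^ (ε * (i + l : ℕ)) * p)
  have := c.X.comm p x
  have := c.X.comm (v ^ (ε * i) * p) x
  omega

theorem In.Pb {v : G} (h : c.In v) {x y : G} (hD : 86 < c.D v x y) :
    c.X.d x (c.π v x) + c.D v x y + c.X.d y (c.π v y) ≤ c.X.d x y + 172 := by
  have h1 := (h.π_Y y).Pa x
  have h2 := (h.π_Y x).Pa y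
  have h3 := c.fp.L1 h1 y
  have := c.X.comm (c.π v x) y
  have := c.X.comm (c.π v y) (c.π v x)
  unfold D at *
  omega

theorem In.lip {v : G} (h : c.In v) (x y : G) : c.D v x y ≤ c.X.d x y + 172 := by
  by_cases hD : 86 < c.D v x y
  · have := h.Pb hD; omega
  · omega

theorem In.ball {v : G} (h : c.In v) {x y : G} (hxy : c.X.d x y ≤ c.X.d x (c.π v x)) :
    c.D v x y ≤ 172 := by
  by_cases hD : 86 < c.D v x y
  · have := h.Pb hD; omega
  · omega

theorem Y.near {v y y' z : G} {k : ℕ} (h : c.Y v y) (h' : c.Y v y')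
    (hz : c.X.d y z + c.X.d z y' ≤ c.X.d y y' + k) : 2 * c.X.d z (c.π v z) ≤ k + 170 := by
  have h1 := h.Pa z
  have h2 := h'.Pa z
  have := c.X.tri' y (c.π v z) y'
  have := c.X.comm z y
  omega

/-- projections are nearly between -/
theorem In.btw {v : G} (h : c.In v) {x y : G} (hD : 86 < c.D v x y) :
    c.X.d x (c.π v x) + c.X.d (c.π v x) y ≤ c.X.d x y + 172 ∧
    c.X.d x (c.π v y) + c.X.d (c.π v y) y ≤ c.X.d x y + 172 := by
  have := h.Pb hD
  have := c.X.tri'' (c.π v x) (c.π v y) y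
  have := c.X.tri x (c.π v x) (c.π v y)
  have := c.X.comm (c.π v y) y
  unfold D at *
  omega

theorem In.diam {v w y y' : G} (h : c.In v) (hy : c.Y w y) (hy' : c.Y w y') (hne : v ≠ w) :
    c.D v y y' ≤ 4000 := by
  by_contra hc
  obtain ⟨b1, b2⟩ := h.btw (x := y) (y := y') (by omega)
  have key : ∀ z, c.X.d y z + c.X.d z y' ≤ c.X.d y y' + 172 → c.X.d z (w * z) ≤ 359 := by
    intro z hz
    have h1 := hy.near hy' hz
    have h2 := (hy.In.π_Y z).step
    have := c.X.tri z (c.π w z) (w * z)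
    have := c.X.tri (c.π w z) (w * c.π w z) (w * z)
    have := c.X.comm (c.π w z) z
    simp only [Nm.d_mul] at *
    omega
  have s1 := (h.π_Y y).step
  have s2 := (h.π_Y y').step
  exact hne (h.eq hy.In (c.st.h4p 359 v w _ _ (by omega) (by omega) (key _ b1) (key _ b2)
    (by unfold D at hc; omega)))

theorem In.fix {v e z z' : G} {L : ℕ} (h : c.In v) (he : ¬ Commute e v)
    (hz : c.X.d z (e * z) ≤ L) (hz' : c.X.d z' (e * z') ≤ L) : c.D v z z' ≤ 2100 + 10 * L := by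
  by_contra hc
  obtain ⟨b1, b2⟩ := h.btw (x := z) (y := z') (by omega)
  have s1 := (h.π_Y z).step
  have s2 := (h.π_Y z').step
  have d1 := c.fp.disp b1 hz hz'
  have d2 := c.fp.disp b2 hz hz'
  exact he (c.st.h4p (L + 174) e v _ _ d1 d2 (by omega) (by omega) (by unfold D at hc; omega))

theorem In.behr {v w x y z : G} (hy : c.Y w y) (hz : c.Y v z) (hne : v ≠ w)
    (hD : 4400 < c.D v x y) : c.D w x z ≤ 4400 := by
  have hv := hz.In
  have hw := hy.In
  have d1 := hv.diam (hw.π_Y x) hy hne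
  have d2 := hw.diam (hv.π_Y x) hz hne.symm
  have t1 := D_tri (c := c) v x (c.π w x) y
  have t2 := D_tri (c := c) w x (c.π v x) z
  have p1 := hv.Pb (x := x) (y := c.π w x) (by omega)
  by_contra hc
  have p2 := hw.Pb (x := x) (y := c.π v x) (by omega)
  omega

theorem In.short {v : G} (h : c.In v) {x y : G} {N k : ℕ} (hN : (k + 188) * E ≤ N)
    (hs : N + (k + 188) * E ≤ 2 * (c.s v x y).natAbs) :
    ∃ ε : ℤ, c.X.d x ((v ^ N) ^ ε * y) + k ≤ c.X.d x y := by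
  obtain ⟨ε, hε⟩ : ∃ ε : ℤ, (c.s v x y + N * ε).natAbs + (k + 188) * E ≤ (c.s v x y).natAbs := by
    by_cases h0 : 0 ≤ c.s v x y
    · exact ⟨-1, by omega⟩
    · exact ⟨1, by omega⟩
  refine ⟨ε, ?_⟩
  rw [← zpow_natCast, ← zpow_mul]
  rw [← h.s_zpow] at hε
  have b1 := (h.D_bounds x y).1
  have b2 := (h.D_bounds x (v ^ (N * ε) * y)).2
  have h3 := h.lox
  have h4 := h.pos
  have hε' : ((c.s v x (v ^ (N * ε) * y)).natAbs : ℝ) + (k + 188) * E ≤ (c.s v x y).natAbs := by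
    exact_mod_cast hε
  have hk0 : (0 : ℝ) ≤ k + 188 := by positivity
  have b3 : (c.D v x (v ^ (N * ε) * y) : ℝ) + (k + 172) ≤ c.D v x y := by nlinarith
  have b4 : c.D v x (v ^ (N * ε) * y) + (k + 172) ≤ c.D v x y := by exact_mod_cast b3
  have p := h.Pb (x := x) (y := y) (by omega)
  have t1 := c.X.tri x (c.π v x) (v ^ (N * ε) * y)
  have t2 := c.X.tri'' (c.π v x) (c.π v (v ^ (N * ε) * y)) (v ^ (N * ε) * y)
  have e : c.X.d (v ^ (N * ε) * y) (c.π v (v ^ (N * ε) * y)) = c.X.d y (c.π v y) := by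
    rw [π_comm ((Commute.refl v).zpow_left _), Nm.d_mul]
  unfold D at *
  omega

theorem In.sep {v w x y : G} {k : ℕ} (hv : c.In v) (hw : c.In w) (hne : v ≠ w)
    (h1 : 9000 + 2 * k ≤ c.D v x y) (h2 : 9000 + 2 * k ≤ c.D w x y) :
    c.X.d y (c.π v y) + k < c.X.d y (c.π w y) ∨ c.X.d y (c.π w y) + k < c.X.d y (c.π v y) := by
  have t1 := D_tri (c := c) v x (c.π w y) y
  have t2 := D_tri (c := c) w x (c.π v y) y
  have := D_comm (c := c) v y (c.π w y)
  have := D_comm (c := c) w y (c.π v y)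
  by_cases h : 4500 + k ≤ c.D v y (c.π w y)
  · have := hv.Pb (x := y) (y := c.π w y) (by omega)
    omega
  · have := In.behr (x := x) (hw.π_Y y) (hv.π_Y y) hne (by omega)
    have := hw.Pb (x := y) (y := c.π v y) (by omega)
    omega

theorem In.mono {v a b x y : G} {k : ℕ} (hv : c.In v) (hD : 86 < c.D v x y)
    (h : c.X.d a x + c.X.d x y + c.X.d y b ≤ c.X.d a b + k) :
    c.D v x y ≤ c.D v a b + 172 + k := by
  have p := hv.Pb hD
  have h1 := (hv.π_Y x).π_le a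
  have h2 := (hv.π_Y y).π_le b
  have := c.X.tri a x (c.π v x)
  have := c.X.tri' b y (c.π v y)
  have := c.X.tri a (c.π v a) b
  have := c.X.tri'' (c.π v a) (c.π v b) b
  unfold D at *
  omega

end Ctx

end Pool.Agent.Burnside6
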