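import Pool.Agent.Burnside6.Ell

set_option autoImplicit false

namespace Pool.Agent.Burnside6

variable {G : Type} [Group G]

namespace Nm

variable {X : Nm G}

theorem FP.deep_mid {D c : ℕ} (h : X.FP D) {g z m : G}
    (hb : 2 * X.d z (g * z) ≤ X.d z (g ^ 2 * z) + c) (hs : c + D < X.d z (g * z))
    (hm : X.d z m + X.d m (g * z) = X.d z (g * z)) (h1 : c + 2 * D < 2 * X.d z m)
    (h2 : c + 3 * D < 2 * X.d m (g * z)) : X.Deep g (4 * D) m := by
  have hb' : ∀ i, X.d (g ^ i * z) (g ^ (i + 1) * z) + X.d (g ^ (i + 1) * z) (g ^ (i + 2) * z) ≤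
      X.d (g ^ i * z) (g ^ (i + 2) * z) + c := fun i => by
    rw [orbit_step, orbit_step, orbit_d]; omega
  have hs' : ∀ i, c + D < X.d (g ^ i * z) (g ^ (i + 1) * z) := fun i => by rwa [orbit_step]
  intro Q
  obtain ⟨k, hk⟩ : ∃ k, k = Q + 3 * X.d z m + 2 * D + 1 := ⟨_, rfl⟩
  have len := h.chain_len (p := fun i => g ^ i * z) (l := 1) hb' hs' one_pos 0 (k + 1)
  have f := h.chain_fwd (p := fun i => g ^ i * z) hb' hs' 0 (k + 1)
  have b := h.chain_bwd (p := fun i => g ^ i * z) hb' hs' k (k + 1)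
  simp only [pow_zero, one_mul, zero_add] at len f b
  rw [show k + 1 + 1 + k = 2 * (k + 1) by ring] at b
  have e0 : g ^ (k + 1 + 1) * z = g ^ (k + 1) * (g * z) := by rw [pow_succ g (k + 1), mul_assoc]
  have e1 : g ^ (2 * (k + 1)) = g ^ (k + 1) * g ^ (k + 1) := by rw [two_mul, pow_add]
  refine ⟨k + 1, ?_⟩
  rw [e0] at f b
  rw [e1] at b ⊢
  generalize g ^ (k + 1) = H at *
  have m1 : X.d (H * z) (H * m) + X.d (H * m) (H * (g * z)) ≤ X.d (H * z) (H * (g * z)) + 0 := by
    simp only [d_mul]; omega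
  have t1 := X.tri z (H * m) (H * (g * z))
  have t2 := X.tri (H * z) (H * m) (H * H * z)
  have t3 := X.tri'' z (H * z) (H * m)
  have t4 := X.tri' z m (H * m)
  have t5 := X.tri'' z (H * m) (H * z)
  have := X.comm (H * z) z
  have := X.comm (H * m) z
  have := X.comm z m
  have := X.comm (H * H * z) (H * m)
  have := X.comm (H * H * z) (H * (g * z))
  have e2 : X.d (H * m) (H * H * z) = X.d m (H * z) := by rw [mul_assoc, d_mul]
  have e3 : X.d (H * m) (H * H * m) = X.d m (H * m) := by rw [mul_assoc, d_mul]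
  have t6 := X.tri z m (H * z)
  rcases h.L1 m1 z with h3 | h3
  · simp only [d_mul] at *; omega
  rcases h.L1 h3 (H * H * z) with h4 | h4
  · have h5 := h.moveL (p' := m) h4 (by simp only [d_mul] at *; omega)
    have h6 := h.moveR (q' := H * H * m) h5 (by simp only [d_mul] at *; omega)
    simp only [d_mul] at *
    omega
  · simp only [d_mul] at *; omega

theorem FP.pump {D A E K T : ℕ} (h : X.FP D) (h4 : ∀ L, X.H4 L (A + 10 * L)) (ha : CSAa G)
    (hb : CSAb G) {a c z : G} (hc : 1 ≤ E * X.τ c) (hac : ¬ Commute a c) (h1 : X.d z (a * z) ≤ K)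
    (h2 : X.d z (c * z) ≤ K) : ∃ N, N ≤ E * (3 * A + 91 * K + 126 * D + 10 * T + 2) ∧
      X.d z (c ^ N * a * z) ≤ 3 * A + 93 * K + 126 * D + 10 * T + 2 ∧ c ^ N * a ≠ 1 ∧
      ∀ u, u ≠ 1 → Commute u (c ^ N * a) → T < X.τ u := by
  obtain ⟨N, n1, n2, n3⟩ := ivt (f := fun i => X.d z (c ^ i * z)) (L := K)
    (t := 3 * A + 91 * K + 126 * D + 10 * T + 2) (j := E * (3 * A + 91 * K + 126 * D + 10 * T + 2))
    (fun i => by
      have := X.tri z (c ^ i * z) (c ^ (i + 1) * z)
      have := X.orbit_step c z i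
      omega) (by simp) (by
      generalize 3 * A + 91 * K + 126 * D + 10 * T + 2 = t
      have := X.tau_le c z (E * t)
      have h3 : (t : ℝ) ≤ X.d z (c ^ (E * t) * z) := by
        push_cast at this
        have : (0 : ℝ) ≤ t := by positivity
        nlinarith
      exact_mod_cast h3)
  have hcg : ¬ Commute c (c ^ N * a) := fun hh => hac (by
    have := ((Commute.refl c).pow_right N).inv_right.mul_right hh
    simpa using this.symm)
  have e1 : X.d (c ^ N * z) (c ^ N * a * z) ≤ K := by rwa [mul_assoc, d_mul]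
  have t1 := X.tri z (c ^ N * z) (c ^ N * a * z)
  have t2 := X.tri'' z (c ^ N * a * z) (c ^ N * z)
  have e2 : X.d (a * z) (c * (a * z)) ≤ 3 * K := by
    have := X.tri' (a * z) z (c * (a * z))
    have := X.tri z (c * z) (c * (a * z))
    simp only [d_mul] at *; omega
  have e3 : X.d (c ^ N * a * z) (c * (c ^ N * a * z)) ≤ 3 * K := by
    rwa [mul_assoc, d_commute ((Commute.refl c).pow_right N)]
  have e4 : X.d z (a⁻¹ * c * a * z) ≤ 3 * K := by
    rw [mul_assoc, mul_assoc, d_inv_right]; exact e2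
  have e5 : X.d ((c ^ N * a)⁻¹ * z) (a⁻¹ * c * a * ((c ^ N * a)⁻¹ * z)) ≤ 3 * K := by
    have : a⁻¹ * c * a * ((c ^ N * a)⁻¹ * z) = (c ^ N * a)⁻¹ * (c * z) := by group
    rw [this, d_mul]; omega
  refine ⟨N, n1, by omega, fun h0 => hcg (by simp [h0]), ?_⟩
  generalize c ^ N * a = g at *
  have cz : ∀ m, X.d z m + X.d m (g * z) = X.d z (g * z) → X.d m (c * m) ≤ 3 * K + D := by
    intro m hm
    simpa using h.disp (c := 0) (C := 3 * K) hm.le (by omega) e3
  have ov : 2 * X.d z (g * z) ≤ X.d z (g ^ 2 * z) + 2 * (A + 30 * K + 21 * D) := by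
    by_contra hcon
    obtain ⟨m, m1, m2⟩ := X.exists_between z (g * z) (A + 30 * K + 20 * D) (by omega)
    have e6 : X.d (g⁻¹ * z) (g * z) = X.d z (g ^ 2 * z) := by
      rw [d_inv_left, pow_two, mul_assoc]
    have e7 := X.d_inv_self g z
    have := X.tri'' z (g⁻¹ * z) m
    have := X.comm z m
    have := X.tri z m (g⁻¹ * z)
    have := X.comm m (g⁻¹ * z)
    rcases h.L1 (c := 0) m2.le (g⁻¹ * z) with h3 | h3
    · have d1 := h.disp h3 e4 e5
      have d2 := cz m m2
      have := h4 (3 * K + 2 * D) (a⁻¹ * c * a) c z m (by omega) (by omega) (by omega) (by omega)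
        (by omega)
      exact hac (by simpa using hb c a⁻¹ (by simpa using this))
    · omega
  intro u u1 hu
  by_contra hT
  have key : ∀ m, X.d z m + X.d m (g * z) = X.d z (g * z) → A + 30 * K + 23 * D < X.d z m →
      A + 30 * K + 23 * D < X.d m (g * z) → X.d m (u * m) ≤ T + 8 * D := by
    intro m hm a1 a2
    have := h.deep_disp (h.deep_mid ov (by omega) hm (by omega) (by omega)) hu
    have h3 : (X.d m (u * m) : ℝ) ≤ (T + 8 * D : ℕ) := by push_cast at this ⊢; linarith
    exact_mod_cast h3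
  obtain ⟨m, m1, m2⟩ := X.exists_between z (g * z) (A + 30 * K + 23 * D + 1) (by omega)
  obtain ⟨m', m3, m4⟩ := X.exists_between z (g * z) (X.d z (g * z) - (A + 30 * K + 23 * D + 1))
    (by omega)
  have k1 := key m m2 (by omega) (by omega)
  have k2 := key m' m4 (by omega) (by omega)
  have k3 := cz m m2
  have k4 := cz m' m4
  have := X.tri z m m'
  have := h4 (T + 8 * D + 3 * K) u c m m' (by omega) (by omega) (by omega) (by omega) (by omega)
  exact hcg (ha u c g u1 this.symm hu.symm)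

theorem FP.escape (h : X.FP 2) {a z₀ : G} (hz : X.d z₀ (a * z₀) ≤ 7) (y : G) :
    ∃ m, X.d m (a * m) ≤ 11 ∧ 2 * X.d y m ≤ X.d y (a * y) + 6 := by
  by_cases h1 : X.d y z₀ ≤ X.d y (a * y) / 2 + 3
  · exact ⟨z₀, by omega, by omega⟩
  obtain ⟨m, m1, m2⟩ := X.exists_between y z₀ (X.d y (a * y) / 2 + 3) (by omega)
  refine ⟨m, ?_, by omega⟩
  have m3 : X.d (a * y) (a * m) + X.d (a * m) (a * z₀) ≤ X.d (a * y) (a * z₀) + 0 := by
    simp only [d_mul]; omega
  have a1 := h.L1 (c := 0) m2.le (a * m)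
  have a2 := h.L1 m3 y
  have := X.tri'' (a * m) (a * z₀) z₀
  have := X.tri y z₀ (a * z₀)
  have := X.comm m (a * m)
  have := X.comm y (a * m)
  have := X.comm y (a * y)
  simp only [d_mul] at *
  omega

end Nm

end Pool.Agent.Burnside6
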