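import Pool.Agent.Burnside6.Basic

set_option autoImplicit false

open Filter Topology

namespace Pool.Agent.Burnside6

variable {G : Type} [Group G]

namespace Nm

variable (X : Nm G)

theorem subadd (g : G) : Subadditive (fun k : ℕ => (X.ν (g ^ k) : ℝ)) := by
  intro m n
  have := X.mul (g ^ m) (g ^ n)
  rw [← pow_add] at this
  simp only
  exact_mod_cast this

/-- stable length -/
noncomputable def τ (g : G) : ℝ := (X.subadd g).lim

theorem bdd (g : G) : BddBelow (Set.range fun n : ℕ => (X.ν (g ^ n) : ℝ) / n) :=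
  ⟨0, by rintro _ ⟨n, rfl⟩; positivity⟩

theorem tau_tendsto (g : G) : Tendsto (fun k : ℕ => (X.ν (g ^ k) : ℝ) / k) atTop (𝓝 (X.τ g)) :=
  (X.subadd g).tendsto_lim (X.bdd g)

theorem tau_le_nu (g : G) (k : ℕ) : k * X.τ g ≤ X.ν (g ^ k) := by
  rcases Nat.eq_zero_or_pos k with rfl | hk
  · simp
  · have := (X.subadd g).lim_le_div (X.bdd g) hk.ne'
    rw [le_div_iff₀ (by exact_mod_cast hk)] at this
    rw [mul_comm]; exact this

theorem le_of_lin {a b c : ℝ} {f : ℕ → ℝ} (hf : Tendsto (fun k : ℕ => f k / k) atTop (𝓝 b))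
    (h : ∀ k : ℕ, a * k ≤ f k + c) : a ≤ b := by
  have h1 : Tendsto (fun k : ℕ => f k / k + c / k) atTop (𝓝 (b + 0)) :=
    hf.add (tendsto_const_div_atTop_nhds_zero_nat c)
  rw [add_zero] at h1
  refine ge_of_tendsto h1 ?_
  filter_upwards [eventually_gt_atTop 0] with k hk
  have hk' : (0 : ℝ) < k := by exact_mod_cast hk
  rw [← add_div, le_div_iff₀ hk']
  exact h k

theorem le_tau_nu {g : G} {a c : ℝ} (h : ∀ k : ℕ, a * k ≤ X.ν (g ^ k) + c) : a ≤ X.τ g :=
  le_of_lin (X.tau_tendsto g) h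

theorem tau_nonneg (g : G) : 0 ≤ X.τ g := X.le_tau_nu (c := 0) (fun k => by simp)

theorem tau_conj_le (x g : G) : X.τ g ≤ X.τ (x * g * x⁻¹) := by
  apply X.le_tau_nu (c := 2 * X.ν x)
  intro k
  have h1 := X.tau_le_nu g k
  have h2 : g ^ k = x⁻¹ * ((x * g * x⁻¹) ^ k * x) := by rw [conj_pow]; group
  have h3 := X.mul x⁻¹ ((x * g * x⁻¹) ^ k * x)
  have h4 := X.mul ((x * g * x⁻¹) ^ k) x
  rw [← h2, X.inv] at h3
  have h5 : (X.ν (g ^ k) : ℝ) ≤ X.ν ((x * g * x⁻¹) ^ k) + 2 * X.ν x := by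
    exact_mod_cast (by omega)
  linarith

theorem tau_conj (x g : G) : X.τ (x * g * x⁻¹) = X.τ g := by
  apply le_antisymm _ (X.tau_conj_le x g)
  have := X.tau_conj_le x⁻¹ (x * g * x⁻¹)
  simpa [mul_assoc] using this

theorem tau_conj' (x g : G) : X.τ (x⁻¹ * g * x) = X.τ g := by
  simpa using X.tau_conj x⁻¹ g

theorem d_pow (x g : G) (k : ℕ) : X.d x (g ^ k * x) = X.ν ((x⁻¹ * g * x) ^ k) := by
  have := conj_pow (a := x⁻¹) (b := g) (i := k)
  simp only [inv_inv] at this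
  rw [this, d, mul_assoc]

theorem tau_le (g x : G) (k : ℕ) : k * X.τ g ≤ X.d x (g ^ k * x) := by
  rw [X.d_pow, ← X.tau_conj' x g]; exact X.tau_le_nu _ _

theorem tau_le_one (g x : G) : X.τ g ≤ X.d x (g * x) := by
  simpa using X.tau_le g x 1

theorem le_tau {g : G} (x : G) {a c : ℝ} (h : ∀ k : ℕ, a * k ≤ X.d x (g ^ k * x) + c) :
    a ≤ X.τ g := by
  rw [← X.tau_conj' x g]
  apply X.le_tau_nu (c := c)
  intro k
  rw [← X.d_pow]; exact h k

theorem tau_inv (g : G) : X.τ g⁻¹ = X.τ g := by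
  have h := X.tau_tendsto g⁻¹
  simp only [inv_pow, X.inv] at h
  exact tendsto_nhds_unique h (X.tau_tendsto g)

theorem tau_one : X.τ 1 = 0 := by
  have h := X.tau_tendsto 1
  simp only [one_pow, X.one, Nat.cast_zero, zero_div] at h
  exact tendsto_nhds_unique h tendsto_const_nhds

theorem tau_pow (g : G) (m : ℕ) : X.τ (g ^ m) = m * X.τ g := by
  rcases Nat.eq_zero_or_pos m with rfl | hm
  · simp [X.tau_one]
  have h1 := ((X.tau_tendsto g).comp (tendsto_id.const_mul_atTop' hm)).const_mul (m : ℝ)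
  refine tendsto_nhds_unique (X.tau_tendsto (g ^ m)) (h1.congr ?_)
  intro k
  have hm' : (m : ℝ) ≠ 0 := by exact_mod_cast hm.ne'
  simp only [Function.comp, id, pow_mul, Nat.cast_mul]
  field_simp

theorem tau_zpow (g : G) (m : ℤ) : X.τ (g ^ m) = |(m : ℝ)| * X.τ g := by
  obtain ⟨k, rfl | rfl⟩ := Int.eq_nat_or_neg m
  · simp [X.tau_pow]
  · simp [X.tau_pow, X.tau_inv]

theorem tau_eq_zero {g : G} {n : ℕ} (hn : 0 < n) (h : g ^ n = 1) : X.τ g = 0 := by
  have := X.tau_pow g n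
  rw [h, X.tau_one] at this
  have hn' : (n : ℝ) ≠ 0 := by exact_mod_cast hn.ne'
  rcases mul_eq_zero.1 this.symm with h | h
  · exact absurd h hn'
  · exact h

theorem ne_one_of_tau {g : G} (h : 0 < X.τ g) : g ≠ 1 := by
  rintro rfl; rw [X.tau_one] at h; exact lt_irrefl _ h

theorem zpow_eq_one_of_tau {g : G} (h : 0 < X.τ g) {m : ℤ} (hm : g ^ m = 1) : m = 0 := by
  have := X.tau_zpow g m
  rw [hm, X.tau_one] at this
  rcases mul_eq_zero.1 this.symm with h' | h'
  · simpa using h'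
  · exact absurd h' h.ne'

theorem tau_scale (R : ℕ) (hR : 0 < R) (g : G) : R * (X.scale R hR).τ g = X.τ g := by
  have hR' : (0 : ℝ) < R := by exact_mod_cast hR
  apply le_antisymm
  · apply X.le_tau 1 (c := R)
    intro k
    have h1 := (X.scale R hR).tau_le g 1 k
    have h2 := (X.scale_d_bounds R hR 1 (g ^ k * 1)).2
    have h3 : ((X.scale R hR).d 1 (g ^ k * 1) : ℝ) * R ≤ X.d 1 (g ^ k * 1) + R := by
      exact_mod_cast h2.le
    nlinarith
  · rw [mul_comm, ← div_le_iff₀ hR']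
    apply (X.scale R hR).le_tau 1 (c := 0)
    intro k
    have h1 := X.tau_le g 1 k
    have h2 := (X.scale_d_bounds R hR 1 (g ^ k * 1)).1
    have h3 : (X.d 1 (g ^ k * 1) : ℝ) ≤ (X.scale R hR).d 1 (g ^ k * 1) * R := by
      exact_mod_cast h2
    rw [add_zero, div_mul_eq_mul_div, div_le_iff₀ hR']
    linarith

variable {X}

theorem FP.tau_four {D : ℕ} (h : X.FP D) {a b : G} (hab : Commute a b) :
    X.τ (a * b) + X.τ (a * b⁻¹) ≤ 2 * max (X.τ a) (X.τ b) := by
  have h1 := ((X.tau_tendsto a).max (X.tau_tendsto b)).const_mul 2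
  apply le_of_lin (f := fun k => 2 * max (X.ν (a ^ k) : ℝ) (X.ν (b ^ k))) (c := D)
  · refine h1.congr ?_
    intro k
    rw [max_div_div_right (by positivity), mul_div_assoc]
  · intro k
    have e1 := X.tau_le_nu (a * b) k
    have e2 := X.tau_le_nu (a * b⁻¹) k
    have e3 := h 1 (a ^ k * b ^ k) (b ^ k) (a ^ k)
    have c1 : Commute (a ^ k) (b ^ k) := hab.pow_pow k k
    have f1 : X.d 1 (a ^ k * b ^ k) = X.ν ((a * b) ^ k) := by rw [d_one, hab.mul_pow]
    have f2 : X.d (b ^ k) (a ^ k) = X.ν ((a * b⁻¹) ^ k) := by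
      rw [d, hab.inv_right.mul_pow, inv_pow, c1.inv_right.eq]
    have f3 : X.d (a ^ k * b ^ k) (a ^ k) = X.ν (b ^ k) := by
      rw [X.comm, d]; simp
    have f4 : X.d (a ^ k * b ^ k) (b ^ k) = X.ν (a ^ k) := by
      rw [X.comm, d, c1.eq]; simp
    rw [f1, f2, f3, f4, d_one, d_one] at e3
    have e4 : (X.ν ((a * b) ^ k) : ℝ) + X.ν ((a * b⁻¹) ^ k) ≤
        2 * max (X.ν (a ^ k) : ℝ) (X.ν (b ^ k)) + D := by
      rw [← Nat.cast_max]
      exact_mod_cast (by omega)
    linarith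

theorem FP.tau_four' {D : ℕ} (h : X.FP D) {a b : G} (hab : Commute a b) :
    X.τ a + X.τ b ≤ max (X.τ (a * b)) (X.τ (a * b⁻¹)) := by
  have hc : Commute (a * b) (a * b⁻¹) :=
    ((Commute.refl a).mul_right hab.inv_right).mul_left (hab.symm.mul_right (Commute.refl b).inv_right)
  have h1 := h.tau_four hc
  have e1 : a * b * (a * b⁻¹) = a ^ 2 := by
    rw [mul_assoc, ← mul_assoc b, ← hab.eq, pow_two]; group
  have e2 : a * b * (a * b⁻¹)⁻¹ = b ^ 2 := by
    have : Commute a (b ^ 2) := hab.pow_right 2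
    calc a * b * (a * b⁻¹)⁻¹ = a * b ^ 2 * a⁻¹ := by rw [pow_two]; group
      _ = b ^ 2 := by rw [this.eq]; group
  rw [e1, e2, X.tau_pow, X.tau_pow] at h1
  push_cast at h1
  linarith

theorem FP.tau_euclid {D : ℕ} (h : X.FP D) {a b : G} (hab : Commute a b) (hle : X.τ b ≤ X.τ a) :
    X.τ (a * b) + X.τ b ≤ X.τ a ∨ X.τ (a * b⁻¹) + X.τ b ≤ X.τ a := by
  have h1 := h.tau_four hab
  have h2 := h.tau_four' hab
  rw [max_eq_left hle] at h1
  rcases le_max_iff.1 h2 with h3 | h3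
  · right; linarith
  · left; linarith

theorem FP.cyclic {D : ℕ} (h : X.FP D) (Z : Subgroup G) (hc : ∀ a ∈ Z, ∀ b ∈ Z, Commute a b)
    {ε : ℝ} (hε : 0 < ε) (hl : ∀ a ∈ Z, a ≠ 1 → ε ≤ X.τ a) {g : G} (hg : g ∈ Z) (hg1 : g ≠ 1) :
    ∃ u ∈ Z, ∀ a ∈ Z, a ∈ Subgroup.zpowers u := by
  set T : Set ℝ := {t | ∃ a ∈ Z, a ≠ 1 ∧ X.τ a = t} with hT
  have hne : T.Nonempty := ⟨_, g, hg, hg1, rfl⟩
  have hb : BddBelow T := ⟨0, by rintro _ ⟨a, -, -, rfl⟩; exact X.tau_nonneg a⟩
  obtain ⟨_, ⟨u, hu, hu1, rfl⟩, hlt⟩ := exists_lt_of_csInf_lt hne (lt_add_of_pos_right _ hε)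
  refine ⟨u, hu, ?_⟩
  have small : ∀ a ∈ Z, X.τ a < X.τ u → a = 1 := by
    intro a ha hlt'
    by_contra h1
    have e := hl a ha h1
    have key : ∀ b ∈ Z, X.τ b + X.τ a ≤ X.τ u → b = 1 := by
      intro b hb' hle
      by_contra hb1
      have := csInf_le hb (show X.τ b ∈ T from ⟨b, hb', hb1, rfl⟩)
      linarith
    rcases h.tau_euclid (hc u hu a ha) hlt'.le with h2 | h2
    · have := key _ (Z.mul_mem hu ha) h2
      rw [eq_inv_of_mul_eq_one_left this, X.tau_inv] at hlt'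
      exact lt_irrefl _ hlt'
    · have := key _ (Z.mul_mem hu (Z.inv_mem ha)) h2
      rw [mul_inv_eq_one.1 this] at hlt'
      exact lt_irrefl _ hlt'
  have main : ∀ k : ℕ, ∀ a ∈ Z, X.τ a < k * ε → a ∈ Subgroup.zpowers u := by
    intro k
    induction k with
    | zero => intro a _ h0; have := X.tau_nonneg a; simp at h0; linarith
    | succ k ih =>
      intro a ha hk
      push_cast at hk
      have e := hl u hu hu1
      by_cases hlt' : X.τ a < X.τ u
      · rw [small a ha hlt']; exact one_mem _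
      rcases h.tau_euclid (hc a ha u hu) (not_lt.1 hlt') with h2 | h2
      · have := ih _ (Z.mul_mem ha hu) (by linarith)
        simpa using mul_mem this (inv_mem (Subgroup.mem_zpowers u))
      · have := ih _ (Z.mul_mem ha (Z.inv_mem hu)) (by linarith)
        simpa using mul_mem this (Subgroup.mem_zpowers u)
  intro a ha
  obtain ⟨k, hk⟩ := exists_nat_gt (X.τ a / ε)
  exact main k a ha (by rwa [div_lt_iff₀ hε] at hk)

/-- no inversion -/
theorem FP.no_inv {D n : ℕ} (h : X.FP D) (hn : Odd n) {c x : G} (hx : x ^ n = 1 ∨ 0 < X.τ x)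
    (hc : 0 < X.τ c) (hxc : x * c * x⁻¹ = c⁻¹) : False := by
  have h2 : Commute (x ^ 2) c := by
    have : x * (x * c * x⁻¹) * x⁻¹ = c := by
      rw [hxc]
      have := congrArg (·⁻¹) hxc
      simpa [mul_assoc] using this
    change x ^ 2 * c = c * x ^ 2
    conv_rhs => rw [← this]
    rw [pow_two]; group
  rcases hx with hx | hx
  · obtain ⟨k, rfl⟩ := hn
    have e : x = (x ^ 2) ^ (k + 1) := by
      rw [← pow_mul, show 2 * (k + 1) = (2 * k + 1) + 1 by ring, pow_succ, hx, one_mul]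
    have h3 : Commute x c := by rw [e]; exact h2.pow_left _
    rw [h3.eq, mul_inv_cancel_right] at hxc
    have : c ^ 2 = 1 := by rw [pow_two]; nth_rewrite 1 [hxc]; simp
    have := X.tau_eq_zero (by norm_num) this
    linarith
  · have e : X.τ (x ^ 2 * c⁻¹) = X.τ (x ^ 2 * c) := by
      rw [← X.tau_conj x (x ^ 2 * c), ← hxc]; congr 1; group
    have h3 := h.tau_four h2
    have h4 := h.tau_four' h2
    rw [e] at h3 h4
    rw [max_self] at h4
    have h5 := X.tau_pow x 2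
    push_cast at h5
    rcases le_total (X.τ (x ^ 2)) (X.τ c) with h6 | h6
    · rw [max_eq_right h6] at h3; linarith
    · rw [max_eq_left h6] at h3; linarith

theorem FP.eq_or_inv {D : ℕ} (h : X.FP D) {a b : G} (hab : Commute a b) (he : X.τ a = X.τ b)
    (h1 : a * b = 1 ∨ 0 < X.τ (a * b)) (h2 : a * b⁻¹ = 1 ∨ 0 < X.τ (a * b⁻¹)) :
    a = b⁻¹ ∨ a = b := by
  rcases h.tau_euclid hab he.ge with h3 | h3
  · rcases h1 with h1 | h1
    · left; exact eq_inv_of_mul_eq_one_left h1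
    · linarith
  · rcases h2 with h2 | h2
    · right; exact mul_inv_eq_one.1 h2
    · linarith

/-! chains -/

theorem FP.chain_fwd {D c : ℕ} (h : X.FP D) {p : ℕ → G}
    (hb : ∀ i, X.d (p i) (p (i + 1)) + X.d (p (i + 1)) (p (i + 2)) ≤ X.d (p i) (p (i + 2)) + c)
    (hs : ∀ i, c + D < X.d (p i) (p (i + 1))) (a j : ℕ) :
    X.d (p a) (p (a + j)) + X.d (p (a + j)) (p (a + j + 1)) ≤ X.d (p a) (p (a + j + 1)) + (c + D) := by
  induction j with
  | zero => simp
  | succ j ih =>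
    have h1 := h.L1 (hb (a + j)) (p a)
    have := hs (a + j)
    have := X.comm (p (a + j + 1)) (p a)
    have := X.comm (p (a + j)) (p a)
    rw [← add_assoc]
    change X.d (p a) (p (a + j + 1)) + X.d (p (a + j + 1)) (p (a + j + 2)) ≤
      X.d (p a) (p (a + j + 2)) + (c + D)
    omega

theorem FP.chain_bwd {D c : ℕ} (h : X.FP D) {p : ℕ → G}
    (hb : ∀ i, X.d (p i) (p (i + 1)) + X.d (p (i + 1)) (p (i + 2)) ≤ X.d (p i) (p (i + 2)) + c)
    (hs : ∀ i, c + D < X.d (p i) (p (i + 1))) (j : ℕ) : ∀ k,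
    X.d (p k) (p (k + 1)) + X.d (p (k + 1)) (p (k + 1 + j)) ≤ X.d (p k) (p (k + 1 + j)) + (c + D) := by
  induction j with
  | zero => simp
  | succ j ih =>
    intro k
    have h1 := h.L1 (hb k) (p (k + 1 + (j + 1)))
    have h2 := ih (k + 1)
    rw [show k + 1 + 1 + j = k + 1 + (j + 1) by omega] at h2
    have := hs (k + 1)
    have := X.comm (p (k + 1 + (j + 1))) (p (k + 1))
    have := X.comm (p (k + 1 + (j + 1))) (p (k + 2))
    change X.d (p (k + 1)) (p (k + 2)) + X.d (p (k + 2)) _ ≤ _ at h2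
    change _ < X.d (p (k + 1)) (p (k + 2)) at *
    omega

theorem FP.chain_btw {D c : ℕ} (h : X.FP D) {p : ℕ → G}
    (hb : ∀ i, X.d (p i) (p (i + 1)) + X.d (p (i + 1)) (p (i + 2)) ≤ X.d (p i) (p (i + 2)) + c)
    (hs : ∀ i, c + 2 * D < X.d (p i) (p (i + 1))) {a i b : ℕ} (h1 : a ≤ i) (h2 : i ≤ b) :
    X.d (p a) (p i) + X.d (p i) (p b) ≤ X.d (p a) (p b) + (c + 2 * D) := by
  have hs' : ∀ i, c + D < X.d (p i) (p (i + 1)) := fun i => by have := hs i; omega
  rcases Nat.eq_or_lt_of_le h1 with rfl | h1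
  · simp
  obtain ⟨j, rfl⟩ : ∃ j, i = a + j + 1 := ⟨i - a - 1, by omega⟩
  obtain ⟨l, rfl⟩ : ∃ l, b = a + j + 1 + l := ⟨b - (a + j + 1), by omega⟩
  have e1 := h.chain_fwd hb hs' a j
  have e2 := h.chain_bwd hb hs' l (a + j)
  have e3 := h.L1 e2 (p a)
  have := hs (a + j)
  have := X.comm (p (a + j + 1)) (p a)
  have := X.comm (p (a + j)) (p a)
  omega

theorem FP.chain_len {D c l : ℕ} (h : X.FP D) {p : ℕ → G}
    (hb : ∀ i, X.d (p i) (p (i + 1)) + X.d (p (i + 1)) (p (i + 2)) ≤ X.d (p i) (p (i + 2)) + c)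
    (hs : ∀ i, c + D + l ≤ X.d (p i) (p (i + 1))) (hl : 0 < l) (a j : ℕ) :
    l * j ≤ X.d (p a) (p (a + j)) := by
  have hs' : ∀ i, c + D < X.d (p i) (p (i + 1)) := fun i => by have := hs i; omega
  induction j with
  | zero => simp
  | succ j ih =>
    have := h.chain_fwd hb hs' a j
    have := hs (a + j)
    rw [← add_assoc, Nat.mul_succ]
    omega

theorem orbit_step (X : Nm G) (H x : G) (i : ℕ) :
    X.d (H ^ i * x) (H ^ (i + 1) * x) = X.d x (H * x) := by
  rw [pow_succ, mul_assoc, d_mul]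

theorem orbit_d (X : Nm G) (H x : G) (i j : ℕ) :
    X.d (H ^ i * x) (H ^ (i + j) * x) = X.d x (H ^ j * x) := by
  rw [pow_add, mul_assoc, d_mul]

theorem orbit_le (X : Nm G) (v m : G) (i : ℕ) : X.d m (v ^ i * m) ≤ i * X.d m (v * m) := by
  induction i with
  | zero => simp
  | succ i ih =>
    have := X.tri m (v ^ i * m) (v ^ (i + 1) * m)
    have e2 := X.orbit_step v m i
    rw [Nat.succ_mul]; omega

theorem FP.orbit_tau {D c l : ℕ} (h : X.FP D) {H x : G}
    (hb : 2 * X.d x (H * x) ≤ X.d x (H ^ 2 * x) + c) (hs : c + D + l ≤ X.d x (H * x)) :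
    (l : ℝ) ≤ X.τ H := by
  rcases Nat.eq_zero_or_pos l with rfl | hl
  · simpa using X.tau_nonneg H
  apply X.le_tau x (c := 0)
  intro k
  have := h.chain_len (p := fun i => H ^ i * x) (c := c) (l := l) (fun i => by
    simp only [orbit_step, show i + 2 = i + 1 + 1 from rfl]
    rw [show i + 1 + 1 = i + 2 from rfl, orbit_d]; omega)
    (fun i => by simp only [orbit_step]; exact hs) hl 0 k
  simp only [pow_zero, one_mul, zero_add] at this
  rw [add_zero]
  exact_mod_cast this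

theorem FP.min_disp {D : ℕ} (h : X.FP D) {H x : G} (hx : ∀ y, X.d x (H * x) ≤ X.d y (H * y))
    (hl : 2 * D + 1 < X.d x (H * x)) : 2 * X.d x (H * x) ≤ X.d x (H ^ 2 * x) + 2 * D := by
  obtain ⟨m, h1, h2⟩ := X.exists_between x (H * x) (X.d x (H * x) / 2) (by omega)
  have e1 := h.L1 (c := 0) (le_of_eq h2) (H * m)
  have e2 := hx m
  have h3 : X.d (H * x) (H * m) + X.d (H * m) (H ^ 2 * x) ≤ X.d (H * x) (H ^ 2 * x) + 0 := by
    rw [pow_two, mul_assoc]; simp only [d_mul]; omega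
  have e3 := h.L1 h3 x
  have f1 : X.d (H * m) (H ^ 2 * x) = X.d m (H * x) := by rw [pow_two, mul_assoc, d_mul]
  have := X.comm (H * m) m
  have := X.comm (H * m) x
  have := X.comm (H * x) x
  have := X.comm m x
  simp only [d_mul] at *
  omega

theorem exists_min (X : Nm G) (H : G) : ∃ x, ∀ y, X.d x (H * x) ≤ X.d y (H * y) := by
  exact ⟨_, fun y => Function.argmin_le (fun y => X.d y (H * y)) y⟩

theorem FP.ell_fix {D : ℕ} (h : X.FP D) {e : G} (he : X.τ e = 0) :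
    ∃ x, X.d x (e * x) ≤ 3 * D + 1 := by
  obtain ⟨x, hx⟩ := X.exists_min e
  refine ⟨x, ?_⟩
  by_contra hc
  have h1 := h.min_disp hx (by omega)
  have := h.orbit_tau (l := 1) h1 (by omega)
  rw [he] at this
  norm_num at this

/-- the point `m` is close to the axis of `H` -/
def Deep (X : Nm G) (H : G) (c : ℕ) (m : G) : Prop :=
  ∀ Q, ∃ k : ℕ, 2 * X.d m (H ^ k * m) ≤ X.d m (H ^ (2 * k) * m) + c ∧ Q ≤ X.d m (H ^ k * m)

theorem FP.deep_of_chain {D c : ℕ} (h : X.FP D) {H x : G}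
    (hb : 2 * X.d x (H * x) ≤ X.d x (H ^ 2 * x) + c) (hs : c + 2 * D < X.d x (H * x)) :
    X.Deep H (c + 2 * D) x := by
  intro Q
  have hb' : ∀ i, X.d (H ^ i * x) (H ^ (i + 1) * x) + X.d (H ^ (i + 1) * x) (H ^ (i + 2) * x) ≤
      X.d (H ^ i * x) (H ^ (i + 2) * x) + c := fun i => by
    rw [orbit_step, orbit_step, orbit_d]; omega
  refine ⟨Q, ?_, ?_⟩
  · have := h.chain_btw (p := fun i => H ^ i * x) hb' (fun i => by simp only [orbit_step]; exact hs)
      (Nat.zero_le Q) (show Q ≤ Q + Q by omega)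
    simp only [pow_zero, one_mul, orbit_d] at this
    rw [two_mul Q]; omega
  · have := h.chain_len (p := fun i => H ^ i * x) (l := 1) hb'
      (fun i => by simp only [orbit_step]; omega) one_pos 0 Q
    simpa using this

theorem FP.exists_deep {D : ℕ} (h : X.FP D) {u : G} (hu : 0 < X.τ u) :
    ∃ N x, 0 < N ∧ X.Deep (u ^ N) (4 * D) x := by
  obtain ⟨N, hN⟩ := exists_nat_gt (((4 * D + 1 : ℕ) : ℝ) / X.τ u)
  rw [div_lt_iff₀ hu] at hN
  obtain ⟨x, hx⟩ := X.exists_min (u ^ N)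
  have h1 := X.tau_le u x N
  have h2 : 4 * D + 1 < X.d x (u ^ N * x) := by exact_mod_cast hN.trans_le h1
  refine ⟨N, x, Nat.pos_of_ne_zero (by rintro rfl; simp at h2), ?_⟩
  have := h.deep_of_chain (h.min_disp hx (by omega)) (by omega)
  rwa [show 2 * D + 2 * D = 4 * D by ring] at this

theorem FP.far_shift {D : ℕ} (h : X.FP D) {p p' y y' : G}
    (hf : X.d p p' + X.d y y' + D < X.d p y) :
    X.d p' y' + X.d p y ≤ X.d p' y + X.d p y' + D := by
  have := h p' y' p y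
  have := X.comm p' p
  have := X.comm y' y
  have := X.comm y' p
  omega

theorem FP.deep_disp {D c : ℕ} (h : X.FP D) {H m v : G} (hd : X.Deep H c m) (hv : Commute v H) :
    (X.d m (v * m) : ℝ) ≤ X.τ v + (c + 4 * D : ℕ) := by
  rw [← sub_le_iff_le_add]
  apply X.le_tau m (c := 0)
  intro j
  obtain ⟨a, ha⟩ : ∃ a, a = X.d m (v * m) := ⟨_, rfl⟩
  rw [← ha]
  obtain ⟨k, hk1, hk2⟩ := hd (j * a + 3 * a + c + 2 * D + 1)
  obtain ⟨p, hp⟩ : ∃ p, p = (H ^ k)⁻¹ * m := ⟨_, rfl⟩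
  obtain ⟨q, hq⟩ : ∃ q, q = H ^ k * m := ⟨_, rfl⟩
  rw [← hq] at hk1 hk2
  have hpm : X.d p m = X.d m q := by rw [hp, d_inv_left, hq]
  have hpq : X.d p q = X.d m (H ^ (2 * k) * m) := by
    rw [hp, d_inv_left, hq, ← mul_assoc, ← pow_add, two_mul]
  have hvp : ∀ i : ℕ, X.d p (v ^ i * p) ≤ i * a := by
    intro i
    have e : v ^ i * p = (H ^ k)⁻¹ * (v ^ i * m) := by
      rw [hp, ← mul_assoc, ← mul_assoc, ((hv.pow_pow i k).inv_right).eq]
    rw [e, hp, d_mul, ha]
    exact X.orbit_le v m i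
  have hvq : X.d q (v * q) = a := by
    rw [hq, ← mul_assoc, (hv.pow_right k).eq, mul_assoc, d_mul, ha]
  have hvp1 : X.d p (v * p) ≤ a := by simpa using hvp 1
  have b0 : X.d p m + X.d m q ≤ X.d p q + c := by omega
  have b1 : X.d (v * p) (v * m) + X.d (v * m) (v * q) ≤ X.d (v * p) (v * q) + c := by
    simpa only [d_mul] using b0
  have b2 := h.moveL (p' := p) b1 (by rw [X.comm (v * p) p, d_mul]; omega)
  have b3 := h.moveR (q' := q) b2 (by rw [X.comm (v * q) q, d_mul]; omega)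
  have b4 := h.L2 b0 b3
  rw [← ha] at b4
  have key : ∀ i : ℕ, i ≤ j →
      (X.d p (v ^ i * m) + i * X.d p m ≤ X.d p m + i * X.d p (v * m) + i * D ∧
       X.d p m + i * X.d p (v * m) ≤ X.d p (v ^ i * m) + i * X.d p m + i * D) := by
    intro i
    induction i with
    | zero => simp
    | succ i ih =>
      intro hi
      obtain ⟨i1, i2⟩ := ih (by omega)
      have g1 : X.d p (v ^ (i + 1) * m) = X.d ((v ^ i)⁻¹ * p) (v * m) := by
        rw [X.d_inv_left (v ^ i), pow_succ, mul_assoc]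
      have g2 : X.d p (v ^ i * m) = X.d ((v ^ i)⁻¹ * p) m := by rw [d_inv_left]
      have g3 : X.d p ((v ^ i)⁻¹ * p) ≤ j * a := by
        rw [d_inv_self]
        exact (hvp i).trans (Nat.mul_le_mul_right a (by omega))
      have t1 := X.tri p (v * m) m
      have := X.comm (v * m) m
      have s1 := h.far_shift (p := p) (p' := (v ^ i)⁻¹ * p) (y := m) (y' := v * m) (by omega)
      have s2 := h.far_shift (p := p) (p' := (v ^ i)⁻¹ * p) (y := v * m) (y' := m) (by omega)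
      simp only [Nat.succ_mul]
      omega
  obtain ⟨k1, k2⟩ := key j le_rfl
  have t1 := X.tri p m (v ^ j * m)
  have t2 := X.tri p (v ^ j * m) m
  have := X.comm (v ^ j * m) m
  have fin : j * a ≤ X.d m (v ^ j * m) + j * (c + 4 * D) := by
    rcases b4 with b4 | b4
    · have := Nat.mul_le_mul_left j b4
      simp only [Nat.mul_add] at *
      have e : j * (4 * D) = 4 * (j * D) := by ring
      omega
    · have := Nat.mul_le_mul_left j b4
      simp only [Nat.mul_add] at *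
      have e : j * (4 * D) = 4 * (j * D) := by ring
      omega
  have fin' : (j : ℝ) * a ≤ X.d m (v ^ j * m) + j * (c + 4 * D : ℕ) := by exact_mod_cast fin
  linarith

end Nm

end Pool.Agent.Burnside6
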