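import Pool.Agent.Burnside6.Far
import Pool.Agent.Burnside6.Adian

set_option autoImplicit false

namespace Pool.Agent.Burnside6

section stage

variable {G : Type} [Group G] {E n : ℕ} {c : Ctx G E n}

theorem Ctx.short_pow {g : G} (h0 : 0 < c.X.τ g) (h1 : c.X.τ g ≤ 1) :
    ∃ v, c.In v ∧ ∃ j : ℤ, j ≠ 0 ∧ g = v ^ j := by
  rcases c.full g with h | ⟨u, hu, y, j, h⟩ | h
  · linarith [c.X.tau_eq_zero c.st.odd.pos h]
  · refine ⟨y * u * y⁻¹, ⟨y, by simpa [Ctx.Y, mul_assoc] using hu⟩, j, ?_, h.symm⟩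
    rintro rfl
    exact c.X.ne_one_of_tau h0 (by simpa using h.symm)
  · linarith

theorem Kill.word (κ : Kill c) {a b z : G} (ha : a ^ n = 1) (a1 : a ≠ 1) (hc : 0 < c.X.τ (b * a⁻¹))
    (h1 : c.X.d z (a * z) ≤ 80000) (h2 : c.X.d z (b * z) ≤ 80000) :
    ∃ N ≤ 15000000 * E, 0 < κ.Q.τ (((b * a⁻¹) ^ N * a : G) : G ⧸ κ.K) ∧
      κ.Q.τ (((b * a⁻¹) ^ N * a : G) : G ⧸ κ.K) ≤ 15000000 ∧ ∃ N',
      κ.Q.τ ((((b * a⁻¹) ^ N * a) ^ N' * a : G) : G ⧸ κ.K) ≤ 2000000000 ∧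
      ((((b * a⁻¹) ^ N * a) ^ N' * a : G) : G ⧸ κ.K) ≠ 1 ∧
      ∀ u, u ≠ 1 → Commute u ((((b * a⁻¹) ^ N * a) ^ N' * a : G) : G ⧸ κ.K) → 15000000 < κ.Q.τ u := by
  have h3 : c.X.d z (b * a⁻¹ * z) ≤ 160000 := by
    have := c.X.tri z (b * z) (b * a⁻¹ * z)
    rw [mul_assoc, Nm.d_mul, Nm.d_inv_self] at this
    rw [mul_assoc]; omega
  obtain ⟨N, n1, n2, n3, n4⟩ := c.fp.pump (T := 1) (K := 160000) c.st.h4p c.st.csaa c.st.csab
    (c.st.lox hc) (fun h => by linarith [c.X.tau_eq_zero c.st.odd.pos (c.st.he _ _ a1 ha h)])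
    (h1.trans (by norm_num)) h3
  have g1 := κ.gen (by simpa using n4) n3 (n2.trans (by norm_num))
  have g2 := κ.Q_le_X z ((b * a⁻¹) ^ N * a * z)
  refine ⟨N, by omega, by linarith, ?_⟩
  generalize (b * a⁻¹) ^ N * a = g at *
  rw [QuotientGroup.mk_mul] at g2
  have g3 : κ.Q.d z (g * z) ≤ 15000000 := by omega
  have g4 : κ.Q.d z (a * z) ≤ 15000000 := by
    have := κ.Q_le_X z (a * z)
    rw [QuotientGroup.mk_mul] at this; omega
  refine ⟨(κ.Q.tau_le_one _ z).trans (by exact_mod_cast g3), ?_⟩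
  have a2 : (a : G ⧸ κ.K) ≠ 1 := fun h =>
    (κ.ctr_ell a1 ha).not_mem a1 ((QuotientGroup.eq_one_iff a).1 h)
  obtain ⟨N', -, m2, m3, m4⟩ := κ.Q_fp.pump (E := 6000000) (T := 15000000) κ.Q_h4p κ.Q_csaa κ.Q_csab
    (by simpa using g1) (fun h => by
      linarith [κ.Q.tau_eq_zero c.st.odd.pos (κ.Q_he _ _ a2 (κ.mk_ell (Or.inl ha)) h)]) g4 g3
  refine ⟨N', (κ.Q.tau_le_one _ z).trans ?_, m3, by simpa using m4⟩
  exact_mod_cast m2.trans (by norm_num)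

end stage

variable {C B : Type} [CommGroup C] [CommGroup B]

namespace Par

variable (p : Par C B)

theorem persist {γ : FreeGroup ℕ × C} {i : ℕ} (h1 : p.π i γ ≠ 1) (h2 : p.π i (γ ^ p.n) = 1) :
    γ ∉ p.M := by
  have key : ∀ j, i ≤ j → p.π j γ ≠ 1 := by
    intro j hj
    induction j, hj using Nat.le_induction with
    | base => exact h1
    | succ j hj ih =>
      have := p.π_mono hj h2
      rw [map_pow] at this
      exact fun h => ((tower p j).kill.ctr_ell ih this).not_mem ih ((QuotientGroup.eq_one_iff _).1 h)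
  rintro ⟨j, hj⟩
  exact key (max i j) (le_max_left _ _) (p.π_mono (le_max_right _ _) hj)

theorem π_succ_eq_one (i : ℕ) (γ : FreeGroup ℕ × C) :
    p.π (i + 1) γ = 1 ↔ p.π i γ ∈ (tower p i).kill.K := QuotientGroup.eq_one_iff _

def Born (γ : FreeGroup ℕ × C) (i : ℕ) : Prop :=
  ∃ w, (tower p i).ctx.In w ∧ ∃ j : ℤ, p.π i γ = w ^ j ∧ 40000 * p.E < j.natAbs ∧
    2 * j.natAbs ≤ (tower p i).kill.N w

theorem mem_M_of_eq {i : ℕ} {γ γ' : FreeGroup ℕ × C} (h : p.π i γ = p.π i γ') : γ⁻¹ * γ' ∈ p.M :=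
  ⟨i, by rw [map_mul, map_inv, h, inv_mul_cancel]⟩

theorem born (γ : FreeGroup ℕ × C) (h : γ ∉ p.M) : ∃ m : ℕ, 0 < m ∧ m ≤ 40000 * p.E + 1 ∧
    ∃ γ' i, γ'⁻¹ * γ ^ m ∈ p.M ∧ p.Born γ' i := by
  obtain ⟨i, hi⟩ := p.eventually_ell γ
  induction i generalizing γ with
  | zero =>
    rw [map_pow] at hi
    exact absurd ⟨0, (pow_eq_one_iff_left (M := FreeGroup ℕ) p.odd.pos.ne').1 hi⟩ h
  | succ i ih =>
    rw [map_pow] at hi
    obtain ⟨g, h1, h2 | ⟨w, hw, j, h2⟩⟩ := (tower p i).kill.lift_ell hi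
    · obtain ⟨δ, rfl⟩ := p.π_surj i g
      have h3 : δ⁻¹ * γ ∈ p.M := p.mem_M_of_eq (i := i + 1) h1
      obtain ⟨m, m1, m2, γ', i', m3, m4⟩ := ih δ (fun hh => h (by simpa using mul_mem hh h3))
        (by rw [map_pow, h2])
      refine ⟨m, m1, m2, γ', i', ?_, m4⟩
      have : (δ ^ m)⁻¹ * γ ^ m ∈ p.M := p.mem_M_of_eq (i := i + 1) (by
        rw [map_pow, map_pow]; exact congrArg (· ^ m) h1)
      simpa [mul_assoc] using mul_mem m3 this
    · obtain ⟨j', a1, a2, -⟩ := (tower p i).kill.norm_exp hw j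
      rw [h2, ← a2] at h1
      have j0 : j' ≠ 0 := by
        rintro rfl
        exact h ⟨i + 1, by rw [← h1, zpow_zero]; rfl⟩
      have hN := (tower p i).kill.hN w hw
      have hE := Kill.E_pos hw
      obtain ⟨m, m1, m2, m3, m4⟩ : ∃ m : ℕ, 0 < m ∧ m ≤ 40000 * p.E + 1 ∧
          40000 * p.E < j'.natAbs * m ∧ 2 * (j'.natAbs * m) ≤ (tower p i).kill.N w := by
        by_cases hb : 40000 * p.E < j'.natAbs
        · exact ⟨1, one_pos, by omega, by omega, by omega⟩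
        · have t0 := Int.natAbs_pos.2 j0
          have t1 := Nat.div_add_mod (40000 * p.E) j'.natAbs
          have t2 := Nat.mod_lt (40000 * p.E) t0
          have t3 := Nat.div_le_self (40000 * p.E) j'.natAbs
          refine ⟨40000 * p.E / j'.natAbs + 1, Nat.succ_pos _, by omega, ?_, ?_⟩ <;>
            rw [Nat.mul_succ] <;> omega
      obtain ⟨δ, hδ⟩ := p.π_surj i (w ^ (j' * m))
      refine ⟨m, m1, m2, δ, i, p.mem_M_of_eq (i := i + 1) ?_, w, hw, j' * m, hδ, ?_, ?_⟩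
      · rw [map_pow, ← h1, π_succ, hδ, zpow_mul, zpow_natCast]; rfl
      · rwa [Int.natAbs_mul, Int.natAbs_natCast]
      · rwa [Int.natAbs_mul, Int.natAbs_natCast]

theorem tau_succ (i : ℕ) (q : (tower p i).G ⧸ (tower p i).kill.K) :
    p.R * (tower p (i + 1)).X.τ q = (tower p i).kill.Q.τ q :=
  (tower p i).kill.Q.tau_scale p.R (St.R_pos p) q

theorem not_comm {a ξ₀ ξ : FreeGroup ℕ × C} (hc : ξ₀ * a * ξ₀⁻¹ * a⁻¹ ∉ p.M) (hξ : ξ⁻¹ * ξ₀ ∈ p.M)
    (i : ℕ) : ¬ Commute (p.π i ξ) (p.π i a) := by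
  intro h
  apply hc
  have h1 : ξ * a * ξ⁻¹ * a⁻¹ ∈ p.M := ⟨i, by simp only [map_mul, map_inv]; rw [h.eq]; group⟩
  rw [← QuotientGroup.eq_one_iff] at h1 ⊢
  rw [← QuotientGroup.eq] at hξ
  simpa only [QuotientGroup.mk_mul, QuotientGroup.mk_inv, hξ] using h1

theorem upward {a ξ₀ : FreeGroup ℕ × C} {i₀ : ℕ} (hb : p.Born a i₀)
    (hc : ξ₀ * a * ξ₀⁻¹ * a⁻¹ ∉ p.M) : ∃ i ξ z, ξ⁻¹ * ξ₀ ∈ p.M ∧ p.π i a ^ p.n = 1 ∧
      0 < (tower p i).X.τ (p.π i (ξ * a * ξ⁻¹ * a⁻¹)) ∧ (tower p i).X.d z (p.π i a * z) ≤ 80000 ∧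
      (tower p i).X.d z (p.π i (ξ * a * ξ⁻¹) * z) ≤ 80000 := by
  by_contra hno
  have hR : (0 : ℝ) < p.R := by exact_mod_cast St.R_pos p
  obtain ⟨w, hw, j, h1, h2, h3⟩ := hb
  have ell : ∀ i, i₀ + 1 ≤ i → p.π i a ^ p.n = 1 := by
    intro i hi
    rw [← map_pow]
    apply p.π_mono hi
    rw [map_pow, π_succ]
    exact (tower p i₀).kill.mk_ell (Or.inr ⟨w, hw, j, h1⟩)
  have pos : ∀ i (q : (tower p i).G ⧸ (tower p i).kill.K), 1 ≤ 6000000 * (tower p i).kill.Q.τ q →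
      0 < (tower p (i + 1)).X.τ q := by
    intro i q h
    rw [← p.tau_succ] at h
    by_contra hh
    have := mul_nonpos_of_nonneg_of_nonpos hR.le (not_lt.1 hh)
    linarith
  have inv : ∀ i, i₀ + 1 ≤ i → ∀ ξ, ξ⁻¹ * ξ₀ ∈ p.M → 0 < (tower p i).X.τ (p.π i (ξ * a * ξ⁻¹ * a⁻¹)) := by
    intro i hi
    induction i, hi using Nat.le_induction with
    | base =>
      intro ξ hξ
      apply pos
      have := (tower p i₀).kill.far_pow (ξ := p.π i₀ ξ) hw h2 h3 (by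
        rw [← h1]; exact p.not_comm hc hξ (i₀ + 1))
      rw [← h1] at this
      simp only [← map_mul, ← map_inv] at this
      exact this
    | succ i hi ih =>
      intro ξ hξ
      apply pos
      have := (tower p i).kill.far_ell (ξ := p.π i ξ) (ell i hi) (p.not_comm hc hξ (i + 1)) (by
        intro k hk z hz
        by_contra hh
        obtain ⟨δ, rfl⟩ := p.π_surj i k
        have hδ : δ ∈ p.M := ⟨i + 1, (QuotientGroup.eq_one_iff _).2 hk⟩
        have h4 : (δ * ξ)⁻¹ * ξ₀ ∈ p.M := by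
          have := mul_mem (Subgroup.Normal.conj_mem inferInstance _ (inv_mem hδ) ξ⁻¹) hξ
          simpa [mul_assoc] using this
        simp only [← map_mul, ← map_inv] at hh
        exact hno ⟨i, δ * ξ, z, h4, ell i hi, ih _ h4, hz, not_lt.1 hh⟩)
      simp only [← map_mul, ← map_inv] at this
      exact this
  obtain ⟨j₁, a1, a2⟩ := p.ν_le a (i₀ + 1)
  obtain ⟨j₂, b1, b2⟩ := p.ν_le (ξ₀ * a * ξ₀⁻¹) j₁
  refine hno ⟨j₂, ξ₀, 1, by simp, ell _ (by omega),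
    inv _ (by omega) _ (by simp), ?_, ?_⟩
  · rw [mul_one, Nm.d_one]; exact (a2 _ b1).trans (by norm_num)
  · rw [mul_one, Nm.d_one]; exact (b2 _ le_rfl).trans (by norm_num)

theorem words {r : ℕ} (hr : r.Prime) (hr' : 1000 ≤ r) (hR : p.R = 2000000000)
    (h1 : ∀ t : ℝ, t * 2000000000 ≤ 15000000 → p.Nf t = r)
    (h2 : ∀ t : ℝ, 15000000 < t * 2000000000 → p.Nf t = r ^ 2)
    {a ξ₀ : FreeGroup ℕ × C} {i₀ : ℕ} (hb : p.Born a i₀) (hc : ξ₀ * a * ξ₀⁻¹ * a⁻¹ ∉ p.M) :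
    ∃ ξ, ξ⁻¹ * ξ₀ ∈ p.M ∧ ∃ N ≤ 15000000 * p.E, ((ξ * a * ξ⁻¹ * a⁻¹) ^ N * a) ^ r ∈ p.M ∧
      ∃ N' : ℕ, (((ξ * a * ξ⁻¹ * a⁻¹) ^ N * a) ^ N' * a) ^ r ∉ p.M := by
  obtain ⟨i, ξ, z, u1, u2, u3, u4, u5⟩ := p.upward hb hc
  have a1 : p.π i a ≠ 1 := fun h => p.not_comm hc u1 i (by rw [h]; exact Commute.one_right _)
  obtain ⟨N, n1, n2, n3, N', n4, n5, n6⟩ := (tower p i).kill.word (b := p.π i (ξ * a * ξ⁻¹)) u2 a1
    (by rw [← map_inv, ← map_mul]; exact u3) u4 u5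
  simp only [← map_mul, ← map_inv, ← map_pow] at n2 n3 n4 n5 n6
  have ts : ∀ q, (tower p i).kill.Q.τ q = 2000000000 * (tower p (i + 1)).X.τ q := fun q => by
    rw [← p.tau_succ, hR]; norm_num
  simp only [ts] at n2 n3 n4 n6
  replace n2 : 0 < 2000000000 * (tower p (i + 1)).X.τ (p.π (i + 1) ((ξ * a * ξ⁻¹ * a⁻¹) ^ N * a)) := n2
  replace n3 : 2000000000 * (tower p (i + 1)).X.τ (p.π (i + 1) ((ξ * a * ξ⁻¹ * a⁻¹) ^ N * a)) ≤
    15000000 := n3
  replace n4 : 2000000000 * (tower p (i + 1)).X.τ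
    (p.π (i + 1) (((ξ * a * ξ⁻¹ * a⁻¹) ^ N * a) ^ N' * a)) ≤ 2000000000 := n4
  replace n5 : p.π (i + 1) (((ξ * a * ξ⁻¹ * a⁻¹) ^ N * a) ^ N' * a) ≠ 1 := n5
  replace n6 : ∀ u : (tower p (i + 1)).G, u ≠ 1 →
    Commute u (p.π (i + 1) (((ξ * a * ξ⁻¹ * a⁻¹) ^ N * a) ^ N' * a)) →
    15000000 < 2000000000 * (tower p (i + 1)).X.τ u := n6
  refine ⟨ξ, u1, N, n1, ⟨i + 2, ?_⟩, N', ?_⟩
  · generalize (ξ * a * ξ⁻¹ * a⁻¹) ^ N * a = g at *
    obtain ⟨v, hv, j, j0, hj⟩ := Ctx.short_pow (c := (tower p (i + 1)).ctx) (g := p.π (i + 1) g)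
      (show 0 < (tower p (i + 1)).X.τ _ by linarith) (show (tower p (i + 1)).X.τ _ ≤ 1 by linarith)
    have t1 := (tower p (i + 1)).X.tau_zpow v j
    rw [← hj] at t1
    have t2 : (1 : ℝ) ≤ |(j : ℝ)| := by
      rw [← Int.cast_abs]; exact_mod_cast Int.one_le_abs j0
    have t3 := (tower p (i + 1)).X.tau_nonneg v
    have hK := (tower p (i + 1)).kill.hK v hv
    have hN : (tower p (i + 1)).kill.N v = r := h1 _ (by nlinarith)
    rw [hN] at hK
    rw [π_succ_eq_one, map_pow, hj, ← zpow_natCast, ← zpow_mul, mul_comm, zpow_mul,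
      zpow_natCast]
    exact zpow_mem hK _
  · generalize ((ξ * a * ξ⁻¹ * a⁻¹) ^ N * a) ^ N' * a = g at *
    have n7 := n6 _ n5 (Commute.refl _)
    obtain ⟨v, hv, j, j0, hj⟩ := Ctx.short_pow (c := (tower p (i + 1)).ctx) (g := p.π (i + 1) g)
      (show 0 < (tower p (i + 1)).X.τ _ by linarith) (show (tower p (i + 1)).X.τ _ ≤ 1 by linarith)
    have t1 := (tower p (i + 1)).X.tau_zpow v j
    rw [← hj] at t1
    have n8 := n6 v hv.ne_one (by rw [hj]; exact (Commute.refl v).zpow_right j)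
    have hN : (tower p (i + 1)).kill.N v = r ^ 2 := h2 _ (by linarith)
    have hj2 : j.natAbs < r := by
      have : |(j : ℝ)| < 1000 := by
        by_contra hh
        nlinarith
      rw [← Int.cast_abs, ← Nat.cast_natAbs] at this
      have : j.natAbs < 1000 := by exact_mod_cast this
      omega
    refine p.persist (i := i + 2) (fun h => ?_) ?_
    · rw [π_succ_eq_one, map_pow, hj, ← zpow_natCast, ← zpow_mul] at h
      have := (tower p (i + 1)).kill.dvd_of_mem hv h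
      rw [hN, Nat.cast_pow, pow_two, mul_dvd_mul_iff_right (by exact_mod_cast hr.ne_zero),
        Int.natCast_dvd] at this
      have := Nat.le_of_dvd (Int.natAbs_pos.2 j0) this
      omega
    · have : p.π (i + 2) g ^ p.n = 1 := (tower p (i + 1)).kill.mk_ell (Or.inr ⟨v, hv, j, hj⟩)
      rw [← pow_mul, mul_comm, pow_mul, map_pow, map_pow, this, one_pow]

section limit

variable {Q : Type} [Group Q] (f : FreeGroup ℕ × C →* Q) (hf : Function.Surjective f)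
  (hk : ∀ γ, f γ = 1 ↔ γ ∈ p.M)

include hf hk

theorem cent_finite {a : Q} (ha : a ≠ 1) : {x | Commute x a}.Finite := by
  classical
  by_contra hinf
  obtain ⟨S, S1, S2⟩ := Set.Infinite.exists_subset_card_eq hinf (p.n + 1)
  obtain ⟨α, rfl⟩ := hf a
  choose g hg using hf
  have : ∀ x : Q, ∃ i, x ∈ S → p.π i (g x * α * (g x)⁻¹ * α⁻¹) = 1 := by
    intro x
    by_cases hx : x ∈ S
    · obtain ⟨i, hi⟩ := (hk (g x * α * (g x)⁻¹ * α⁻¹)).1 (by
        have : Commute x (f α) := S1 hx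
        simp only [map_mul, map_inv, hg]; rw [this.eq]; group)
      exact ⟨i, fun _ => hi⟩
    · exact ⟨0, fun h => absurd h hx⟩
  choose ι hι using this
  obtain ⟨i₀, hi₀⟩ := p.eventually_ell α
  obtain ⟨j, j1, j2⟩ : ∃ j, i₀ ≤ j ∧ ∀ x ∈ S, ι x ≤ j :=
    ⟨max i₀ (S.sup ι), le_max_left _ _, fun x hx => (Finset.le_sup hx).trans (le_max_right _ _)⟩
  obtain ⟨w, w1, w2⟩ := (tower p j).st.ell (p.π j α) (fun h => ha ((hk α).2 ⟨j, h⟩))
    (by rw [← map_pow]; exact p.π_mono j1 hi₀)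
  have hfin : IsOfFinOrder w := isOfFinOrder_iff_pow_eq_one.2 ⟨_, p.odd.pos, w1⟩
  have := Finset.card_le_card_of_injOn (s := S) (t := (Finset.range (orderOf w)).image (w ^ ·))
    (fun x => p.π j (g x)) (fun x hx => by
      rw [Finset.mem_coe, ← hfin.mem_zpowers_iff_mem_range_orderOf]
      apply w2
      apply Nm.commute_of_comm
      simpa only [map_mul, map_inv] using p.π_mono (j2 x hx) (hι x hx)) (fun x _ y _ h => by
      have := (hk _).2 (p.mem_M_of_eq h)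
      rwa [map_mul, map_inv, hg, hg, inv_mul_eq_one] at this)
  have h2 := Finset.card_image_le (s := Finset.range (orderOf w)) (f := (w ^ ·))
  have h3 := orderOf_le_of_pow_eq_one p.odd.pos w1
  rw [Finset.card_range] at h2
  omega

theorem lim_csa {g a b : Q} (h : g ≠ 1) (ha : Commute a g) (hb : Commute b g) : Commute a b := by
  obtain ⟨g, rfl⟩ := hf g
  obtain ⟨a, rfl⟩ := hf a
  obtain ⟨b, rfl⟩ := hf b
  obtain ⟨i, hi⟩ := (hk (a * g * a⁻¹ * g⁻¹)).1 (by simp only [map_mul, map_inv]; rw [ha.eq]; group)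
  obtain ⟨j, hj⟩ := (hk (b * g * b⁻¹ * g⁻¹)).1 (by simp only [map_mul, map_inv]; rw [hb.eq]; group)
  have h1 := p.π_mono (le_max_left i j) hi
  have h2 := p.π_mono (le_max_right i j) hj
  simp only [map_mul, map_inv] at h1 h2
  have := (tower p (max i j)).st.csaa _ _ _ (fun hh => h ((hk g).2 ⟨_, hh⟩)) (Nm.commute_of_comm h1)
    (Nm.commute_of_comm h2)
  apply Nm.commute_of_comm
  have h3 := (hk (a * b * a⁻¹ * b⁻¹)).2 ⟨max i j, by simp only [map_mul, map_inv]; rw [this.eq]; group⟩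
  simpa only [map_mul, map_inv] using h3

theorem lim_pow (x : Q) : x ^ p.n = 1 := by
  obtain ⟨γ, rfl⟩ := hf x
  rw [← map_pow]; exact (hk _).2 (p.M_pow γ)

theorem lim_born {a : Q} (ha : a ≠ 1) : ∃ m : ℕ, 0 < m ∧ m ≤ 40000 * p.E + 1 ∧
    ∃ α i, f α = a ^ m ∧ p.Born α i := by
  obtain ⟨γ, rfl⟩ := hf a
  obtain ⟨m, m1, m2, α, i, h1, h2⟩ := p.born γ (fun h => ha ((hk γ).2 h))
  have := (hk _).2 h1
  rw [map_mul, map_inv, inv_mul_eq_one, map_pow] at this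
  exact ⟨m, m1, m2, α, i, this, h2⟩

theorem lim_nontop {r : ℕ} (hr : r.Prime) (hr' : 40000 * p.E + 1000 ≤ r) (hn : p.n = r ^ 2)
    (hR : p.R = 2000000000) (h1 : ∀ t : ℝ, t * 2000000000 ≤ 15000000 → p.Nf t = r)
    (h2 : ∀ t : ℝ, 15000000 < t * 2000000000 → p.Nf t = r ^ 2) (H : Subgroup Q)
    (t : TopologicalSpace H) (ht : IsTopologicalGroup H) (ht2 : T2Space H) : t = ⊥ := by
  have words : ∀ α i, p.Born α i → ∀ x : Q, ¬ Commute x (f α) →
      ∃ N ≤ 15000000 * p.E, ((x * f α * x⁻¹ * (f α)⁻¹) ^ N * f α) ^ r = 1 ∧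
      ∃ N' : ℕ, (((x * f α * x⁻¹ * (f α)⁻¹) ^ N * f α) ^ N' * f α) ^ r ≠ 1 := by
    intro α i hb x hx
    obtain ⟨ξ₀, rfl⟩ := hf x
    obtain ⟨ξ, a1, N, a2, a3, N', a4⟩ := p.words hr (by omega) hR h1 h2 hb (ξ₀ := ξ₀) (fun h => hx (by
      have := (hk _).2 h
      exact Nm.commute_of_comm (by simpa only [map_mul, map_inv] using this)))
    have e := (hk _).2 a1
    rw [map_mul, map_inv, inv_mul_eq_one] at e
    rw [← hk] at a3 a4
    simp only [map_mul, map_inv, map_pow, e] at a3 a4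
    exact ⟨N, a2, a3, N', a4⟩
  have pw : ∀ (a : Q) (m k : ℕ), 0 < m → m ≤ 40000 * p.E + 1 → (a ^ m) ^ k = 1 → a ^ k = 1 := by
    intro a m k m1 m2 h
    have c1 : Nat.Coprime m (r ^ 2) :=
      Nat.Coprime.pow_right _ (Nat.Coprime.symm ((Nat.coprime_iff_gcd_eq_one).2 (by
        simpa using (hr.coprime_iff_not_dvd).2 (Nat.not_dvd_of_pos_of_lt m1 (by omega)))))
    have e1 : (a ^ k) ^ m = 1 := by rw [← pow_mul, mul_comm, pow_mul, h]
    have e2 : (a ^ k) ^ (r ^ 2) = 1 := hn ▸ p.lim_pow f hf hk _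
    exact (pow_eq_one_iff_of_coprime c1).1 ⟨e1, e2⟩
  have cl : ∀ a : Q, a ≠ 1 → IsClosed ({x : H | Commute (x : Q) a} \ {1}) := fun a ha =>
    (((p.cent_finite f hf hk ha).preimage Subtype.val_injective.injOn).sdiff).isClosed
  by_cases hab : ∀ x ∈ H, ∀ y ∈ H, Commute x y
  · by_cases h0 : ∃ a ∈ H, a ≠ 1
    · obtain ⟨a, a1, a2⟩ := h0
      exact eq_bot_of_closed t ht _ (cl a a2) (by simp) (fun x hx => ⟨hab _ x.2 _ a1, hx⟩)
    · push Not at h0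
      exact eq_bot_of_closed t ht ∅ isClosed_empty (by simp)
        (fun x hx => hx (Subtype.ext (h0 _ x.2)))
  push Not at hab
  obtain ⟨x, hx, y, hy, hxy⟩ := hab
  obtain ⟨h, hH, hh⟩ : ∃ h ∈ H, h ^ r ≠ 1 := by
    have y1 : y ≠ 1 := by rintro rfl; exact hxy (Commute.one_right _)
    obtain ⟨m, m1, m2, α, i, a1, a2⟩ := p.lim_born f hf hk y1
    obtain ⟨N, -, -, N', b⟩ := words α i a2 x (fun h => hxy (p.lim_csa f hf hk (g := y ^ m)
      (fun h => y1 (by simpa using pw y m 1 m1 m2 (by simpa using h))) (a1 ▸ h)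
      ((Commute.refl y).pow_right m)))
    have hm : f α ∈ H := a1 ▸ pow_mem hy m
    exact ⟨_, mul_mem (pow_mem (mul_mem (pow_mem (mul_mem (mul_mem (mul_mem hx hm) (inv_mem hx))
      (inv_mem hm)) _) hm) _) hm, b⟩
  obtain ⟨m, m1, m2, α, i, a1, a2⟩ := p.lim_born f hf hk (a := h) (by rintro rfl; simp at hh)
  have hm : f α ∈ H := a1 ▸ pow_mem hH m
  have ha : f α ^ r ≠ 1 := fun h0 => hh (pw h m r m1 m2 (a1 ▸ h0))
  let a : H := ⟨f α, hm⟩
  refine eq_bot_of_closed t ht (({x : H | Commute (x : Q) (f α)} \ {1}) ∪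
    ⋃ N ∈ Finset.range (15000000 * p.E + 1), {x : H | ((x * a * x⁻¹ * a⁻¹) ^ N * a) ^ r = 1})
    ((cl _ (fun h0 => ha (by simp [h0]))).union (isClosed_biUnion_finset fun N _ =>
      isClosed_eq (by fun_prop) continuous_const)) ?_ ?_
  · simp only [Set.mem_union, Set.mem_sdiff, Set.mem_singleton_iff, not_true, and_false, false_or,
      Set.mem_iUnion, not_exists, Set.mem_ofPred_eq]
    intro N _ h0
    exact ha (by simpa [a] using congrArg Subtype.val h0)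
  · intro z hz
    by_cases hc : Commute (z : Q) (f α)
    · exact Or.inl ⟨hc, hz⟩
    · obtain ⟨N, b1, b2, -⟩ := words α i a2 z hc
      refine Or.inr (Set.mem_biUnion (x := N) (by simpa using Nat.lt_succ_of_le b1) ?_)
      exact Subtype.ext (by simpa [a] using b2)

end limit

end Par

end Pool.Agent.Burnside6
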