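import Pool.Agent.Burnside6.Two

set_option autoImplicit false

namespace Pool.Agent.Burnside6

open Classical in
noncomputable def par₂ (r : ℕ) [Fact r.Prime] (hr : 1200000000000000000000000000000 ≤ r) :
    Par (Multiplicative ℤ_[r]) (Multiplicative (ℕ → ZMod r)) where
  E := 12000000000000000
  n := r ^ 2
  R := 2000000000
  Nf t := if t * 2000000000 ≤ 15000000 then r else r ^ 2
  z₀ := Multiplicative.ofAdd 1
  α := FreeGroup.lift fun i => Multiplicative.ofAdd (Pi.single i 1)
  odd := ((Fact.out : r.Prime).odd_of_ne_two (by omega)).pow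
  hR := by norm_num
  hE := by norm_num
  hN t := by
    split_ifs
    · omega
    · nlinarith
  hNn t := by
    split_ifs
    · exact dvd_pow_self r (by norm_num)
    · exact dvd_rfl
  hC t j z h := by
    have key : ∀ k : ℕ, Multiplicative.ofAdd (1 : ℤ_[r]) ^ j * z ^ (r ^ k) = 1 → ((r ^ k : ℕ) : ℤ) ∣ j := by
      intro k h
      have := congrArg Multiplicative.toAdd h
      simp only [toAdd_mul, toAdd_zpow, toAdd_ofAdd, toAdd_pow, toAdd_one, zsmul_eq_mul, mul_one,
        nsmul_eq_mul] at this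
      rw [Nat.cast_pow, ← PadicInt.pow_p_dvd_int_iff]
      exact ⟨-z.toAdd, by push_cast at this; linear_combination this⟩
    split_ifs at h ⊢
    · simpa using key 1 (by simpa using h)
    · exact key 2 h
  tf z m hm h := by
    have := congrArg Multiplicative.toAdd h
    simp only [toAdd_pow, toAdd_one, nsmul_eq_mul, mul_eq_zero, Nat.cast_eq_zero, hm, false_or] at this
    exact this
  hB t b := by
    apply Multiplicative.toAdd.injective
    ext i
    split_ifs <;> simp

theorem main_zp : ∃ (p : ℕ) (_ : Fact p.Prime) (G : Type) (_ : Group G) (_ : TopologicalSpace G),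
    IsTopologicalGroup G ∧ T2Space G ∧ (∀ g : G, IsOfFinOrder g → g = 1) ∧
    IsOpen (Subgroup.center G : Set G) ∧
    Nonempty (Subgroup.center G ≃ₜ* Multiplicative ℤ_[p]) ∧
    Infinite (G ⧸ Subgroup.center G) ∧ IsPGroup p (G ⧸ Subgroup.center G) ∧
    ∀ (H : Subgroup (G ⧸ Subgroup.center G)) (t : TopologicalSpace H),
      @IsTopologicalGroup H t _ → @T2Space H t → t = ⊥ := by
  obtain ⟨r, hr, hp⟩ := Nat.exists_infinite_primes 1200000000000000000000000000000
  have : Fact r.Prime := ⟨hp⟩
  let P := par₂ r hr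
  let _ : TopologicalSpace (FreeGroup ℕ) := ⊥
  have : DiscreteTopology (FreeGroup ℕ) := ⟨rfl⟩
  have : IsTopologicalGroup (FreeGroup ℕ) :=
    { continuous_mul := continuous_of_discreteTopology, continuous_inv := continuous_of_discreteTopology }
  have hopen : IsOpen {γ : FreeGroup ℕ × Multiplicative ℤ_[r] | γ.1 = 1} :=
    (isOpen_discrete {1}).preimage continuous_fst
  have hdisc : DiscreteTopology P.L := by
    apply discreteTopology_of_isOpen_singleton_one
    convert hopen.preimage (continuous_subtype_val (p := (· ∈ P.L)))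
    ext ⟨⟨f, z⟩, h⟩
    simp only [Set.mem_singleton_iff, Set.mem_preimage, Set.mem_ofPred_eq]
    constructor
    · intro h; exact congrArg (fun x : P.L => x.1.1) h
    · rintro rfl; exact Subtype.ext (Prod.ext rfl (P.L_inj h))
  have hclosed : IsClosed (P.L : Set (FreeGroup ℕ × Multiplicative ℤ_[r])) := Subgroup.isClosed_of_discrete
  have hinf : ∀ {Q : Type} [Group Q] (f : FreeGroup ℕ × Multiplicative ℤ_[r] →* Q),
      (∀ γ, f γ = 1 ↔ γ ∈ P.M) → Infinite Q := by
    intro Q _ f hk
    refine Infinite.of_injective (fun i : ℕ => f (FreeGroup.of i, 1)) (fun i j h => ?_)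
    have h1 := P.M_ab ((hk ((FreeGroup.of i, 1)⁻¹ * (FreeGroup.of j, 1))).1 (by
      rw [map_mul, map_inv, inv_mul_eq_one]; exact h))
    simp only [P, par₂, Prod.fst_mul, Prod.fst_inv, map_mul, map_inv, FreeGroup.lift_apply_of,
      inv_mul_eq_one] at h1
    by_contra hne
    have := congrFun (Multiplicative.ofAdd.injective h1) i
    simp [hne] at this
  have hcen : ∀ γ : FreeGroup ℕ × Multiplicative ℤ_[r], (γ : _ ⧸ P.L) ∈ Subgroup.center _ ↔ γ ∈ P.M := by
    intro γ
    constructor
    · intro h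
      by_contra hM
      have hk : ∀ γ, QuotientGroup.mk' P.M γ = 1 ↔ γ ∈ P.M := fun γ => QuotientGroup.eq_one_iff γ
      have h1 := P.cent_finite _ (QuotientGroup.mk'_surjective _) hk (fun h => hM ((hk γ).1 h))
      have := hinf _ hk
      refine Set.infinite_univ (h1.subset fun x _ => ?_)
      obtain ⟨δ, rfl⟩ := QuotientGroup.mk'_surjective _ x
      apply Nm.commute_of_comm
      have h2 : δ * γ * δ⁻¹ * γ⁻¹ ∈ P.L := by
        rw [← QuotientGroup.eq_one_iff]
        simp only [QuotientGroup.mk_mul, QuotientGroup.mk_inv]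
        rw [Subgroup.mem_center_iff.1 h]; group
      simpa only [map_mul, map_inv] using (hk _).2 ((P.M_iff _).2 ⟨1, mul_mem h2 P.L.one_mem⟩)
    · intro h
      obtain ⟨z, hz⟩ := (P.M_iff γ).1 h
      have e : (γ : _ ⧸ P.L) = ((1, z⁻¹) : FreeGroup ℕ × _) := by
        rw [eq_comm, QuotientGroup.eq]
        convert hz using 1
        ext <;> simp [mul_comm]
      rw [e, Subgroup.mem_center_iff]
      intro g
      obtain ⟨g, rfl⟩ := QuotientGroup.mk_surjective g
      rw [← QuotientGroup.mk_mul, ← QuotientGroup.mk_mul]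
      congr 1
      ext <;> simp [mul_comm]
  let f := (QuotientGroup.mk' (Subgroup.center (_ ⧸ P.L))).comp (QuotientGroup.mk' P.L)
  have hf : Function.Surjective f :=
    (QuotientGroup.mk'_surjective _).comp (QuotientGroup.mk'_surjective _)
  have hk : ∀ γ, f γ = 1 ↔ γ ∈ P.M := fun γ => (QuotientGroup.eq_one_iff _).trans (hcen γ)
  have hz : ∀ z : Multiplicative ℤ_[r], ((1, z) : FreeGroup ℕ × _) ∈ P.M := fun z =>
    (P.M_iff _).2 ⟨z⁻¹, by rw [Prod.mk_mul_mk, mul_one, mul_inv_cancel]; exact P.L.one_mem⟩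
  refine ⟨r, inferInstance, _ ⧸ P.L, inferInstance, inferInstance, inferInstance, inferInstance,
    ?_, ?_, ?_, hinf f hk, fun x => ⟨2, P.lim_pow f hf hk x⟩,
    P.lim_nontop f hf hk hp (by simp only [P, par₂]; omega) rfl rfl
      (fun t ht => if_pos ht) (fun t ht => if_neg (not_le.2 ht))⟩
  · intro g hg
    obtain ⟨γ, rfl⟩ := QuotientGroup.mk_surjective g
    obtain ⟨m, m0, hm⟩ := isOfFinOrder_iff_pow_eq_one.1 hg
    exact (QuotientGroup.eq_one_iff _).2 (P.L_tf m0.ne' ((QuotientGroup.eq_one_iff _).1 hm))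
  · apply Subgroup.isOpen_of_mem_nhds (g := 1)
    refine Filter.mem_of_superset ((QuotientGroup.isOpenMap_coe _ hopen).mem_nhds ⟨1, rfl, rfl⟩) ?_
    rintro _ ⟨⟨_, z⟩, rfl, rfl⟩
    exact (hcen _).2 (hz z)
  · let ι : Multiplicative ℤ_[r] →* Subgroup.center (_ ⧸ P.L) :=
      ((QuotientGroup.mk' P.L).comp (MonoidHom.inr _ _)).codRestrict _ (fun z => (hcen _).2 (hz z))
    have hb : Function.Bijective ι := by
      constructor
      · rw [injective_iff_map_eq_one]
        intro z h
        exact P.L_inj ((QuotientGroup.eq_one_iff _).1 (congrArg Subtype.val h))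
      · rintro ⟨g, hg⟩
        obtain ⟨γ, rfl⟩ := QuotientGroup.mk_surjective g
        obtain ⟨z, hz⟩ := (P.M_iff γ).1 ((hcen γ).1 hg)
        refine ⟨z⁻¹, Subtype.ext (QuotientGroup.eq.2 ?_)⟩
        convert hz using 1
        ext <;> simp [mul_comm]
    have hc : Continuous ι :=
      Continuous.subtype_mk (QuotientGroup.continuous_mk.comp (continuous_const.prodMk continuous_id)) _
    let e := MulEquiv.ofBijective ι hb
    exact ⟨ContinuousMulEquiv.symm ⟨e, hc,
      (Continuous.homeoOfEquivCompactToT2 (f := e.toEquiv) hc).continuous_invFun⟩⟩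

end Pool.Agent.Burnside6
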